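import Pool.Agent.Lib.MP_d8bd92_nt.Fh.Opt.Defs

set_option autoImplicit false

/-!
Optimisation: leaves of the tree (linear certificates).
-/

namespace Pool.Agent.Lib.MP_d8bd92_nt.Fh.Opt

open Pool.Agent.Lib.MP_d8bd92_nt.Fh

theorem q3_0_1 {θ e a1 a2 a3 a4 a5 aw am av b1 b2 b3 b4 b5 bw bm bv c1 c2 c3 c4 c5 cw cm cv
    ra rb rc ha hb hc : ℝ} {KA KB KC SA SB SC : ℝ → ℝ → Prop}
    (H : Cfg θ e a1 a2 a3 a4 a5 aw am av b1 b2 b3 b4 b5 bw bm bv c1 c2 c3 c4 c5 cw cm cv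
      ra rb rc ha hb hc KA KB KC SA SB SC)
    (pa : rb + rc ≤ 7 / 9) (za : a4 = 0) (ta : 4 * a5 ≤ aw)
    (wa : aw ≤ 20 / 13 * (rb + rc - 7 / 12)) (ma : am = 0) (va : av = 0) (pb : ra + rc ≤ 7 / 9)
    (zb : b4 = 0) (tb : 4 * b5 ≤ bw) (wb : bw ≤ 20 / 13 * (ra + rc - 7 / 12)) (mb : bm = 0)
    (vb : bv = 0) (pc : 7 / 9 ≤ ra + rb) (kc4 : KC 4 c4) (tc : 5 * c5 ≤ cw)
    (wc : cw ≤ 65 / 36 * (ra + rb) - 245 / 216) (mc : cm = 0) (vc : cv = 0)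
    (g0 : θ < (0 * a1 + 0 * a2 + 0 * a3 + 0 * a4 + 1 * a5 + 0 * am) + (0 * b1 + 0 * b2 + 1 * b3 + 0
    * b4 + 1 * b5 + 0 * bm) + (0 * c1 + 0 * c2 + 0 * c3 + 1 * c4 + 1 * c5 + 0 * cm) + (ha + hb)
    - ((0 * a1 + 2 * (0 * a2) + 3 * (0 * a3) + 4 * (0 * a4) + 1 * aw + 0 * av) + (0 * b1 + 2 * (0 *
    b2) + 3 * (1 * b3) + 4 * (0 * b4) + 1 * bw + 0 * bv) + (0 * c1 + 2 * (0 * c2) + 3 * (0 * c3)
    + 4 * (1 * c4) + 1 * cw + 0 * cv)))
    (g1 : θ < (0 * a1 + 1 * a2 + 1 * a3 + 0 * a4 + 1 * a5 + 0 * am) + (0 * b1 + 1 * b2 + 1 * b3 + 0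
    * b4 + 1 * b5 + 0 * bm) + (0 * c1 + 1 * c2 + 1 * c3 + 1 * c4 + 1 * c5 + 0 * cm))
    (g2 : θ < (0 * a1 + 0 * a2 + 1 * a3 + 0 * a4 + 1 * a5 + 0 * am) + (0 * b1 + 0 * b2 + 1 * b3 + 0
    * b4 + 1 * b5 + 0 * bm) + (0 * c1 + 0 * c2 + 0 * c3 + 0 * c4 + 1 * c5 + 0 * cm) + (ha + hb)
    - ((0 * a1 + 2 * (0 * a2) + 3 * (1 * a3) + 4 * (0 * a4) + 1 * aw + 0 * av) + (0 * b1 + 2 * (0 *
    b2) + 3 * (1 * b3) + 4 * (0 * b4) + 1 * bw + 0 * bv) + (0 * c1 + 2 * (0 * c2) + 3 * (0 * c3)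
    + 4 * (0 * c4) + 1 * cw + 0 * cv)))
    (g3 : θ < (0 * a1 + 0 * a2 + 0 * a3 + 0 * a4 + 1 * a5 + 0 * am) + (0 * b1 + 0 * b2 + 1 * b3 + 0
    * b4 + 1 * b5 + 0 * bm) + (0 * c1 + 0 * c2 + 1 * c3 + 1 * c4 + 1 * c5 + 0 * cm) + (ha + hb)
    - ((0 * a1 + 2 * (0 * a2) + 3 * (0 * a3) + 4 * (0 * a4) + 1 * aw + 0 * av) + (0 * b1 + 2 * (0 *
    b2) + 3 * (1 * b3) + 4 * (0 * b4) + 1 * bw + 0 * bv) + (0 * c1 + 2 * (0 * c2) + 3 * (1 * c3)
    + 4 * (1 * c4) + 1 * cw + 0 * cv)))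
    (g4 : θ < (0 * a1 + 0 * a2 + 0 * a3 + 0 * a4 + 1 * a5 + 0 * am) + (0 * b1 + 0 * b2 + 1 * b3 + 0
    * b4 + 1 * b5 + 0 * bm) + (0 * c1 + 1 * c2 + 1 * c3 + 1 * c4 + 1 * c5 + 0 * cm) + (ha + hb)
    - ((0 * a1 + 2 * (0 * a2) + 3 * (0 * a3) + 4 * (0 * a4) + 1 * aw + 0 * av) + (0 * b1 + 2 * (0 *
    b2) + 3 * (1 * b3) + 4 * (0 * b4) + 1 * bw + 0 * bv) + (0 * c1 + 2 * (1 * c2) + 3 * (1 * c3)
    + 4 * (1 * c4) + 1 * cw + 0 * cv)))
    (g5 : θ < (0 * a1 + 0 * a2 + 0 * a3 + 0 * a4 + 1 * a5 + 0 * am) + (rb + rc) - (0 * a1 + 2 * (0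
    * a2) + 3 * (0 * a3) + 4 * (0 * a4) + 1 * aw + 0 * av)) : False := by
  obtain ⟨era, erb, erc, eha, ehb, ehc, na1, na2, na3, na4, na5, naw, nam, nav, nb1, nb2, nb3, nb4, nb5,
    nbw, nbm, nbv, nc1, nc2, nc3, nc4, nc5, ncw, ncm, ncv, he, he1, hθ, htot, hbc, hcb, hab, hlo,
    hTab, hTac, hTbc, hNa, hNb, hNc, hBab, hBac, hBba, hBbc, hBca, hBcb, hXa, hXb, hXc, hL, hSa,
    hSb, hSc, ka1, ka2, ka3, kb1, kb2, kb3, kc1, kc2, kc3⟩ := id H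
  rcases hXb _ _ (hSb 0 1 1 0 1 0 o0 o1 o1 o0 o1 o0) with g6 | g6 | g6 | g6 | g6
  · linarith only [era, erb, erc, eha, ehb, ehc, htot, hab, ta, za, ma, tb, zb, vb, pc, g1, g6,
      na3, na4, naw, nav, nb3, nbw, nbm, nc1, ncm, he, hθ]
  · linarith only [era, erb, erc, eha, ehb, ehc, htot, hab, ta, wa, za, ma, tb, zb, vb, pc, g1, g6,
      na3, na4, naw, nav, nb3, nbw, nbm, nc1, ncm, he, hθ]
  · rcases hXa _ _ (hSa 0 0 1 0 1 0 o0 o0 o1 o0 o1 o0) with g7 | g7 | g7 | g7 | g7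
    · linarith only [era, erb, erc, eha, ehb, ehc, htot, ta, wa, za, ma, tb, pc, g6, g7,
        hBab 1 a1 2 b2 ka1 kb2, hNc, na4, naw, nb4, nbw, he, hθ]
    · linarith only [era, erb, erc, eha, ehb, ehc, htot, ta, za, ma, tb, pc, g6, g7,
        hBab 1 a1 2 b2 ka1 kb2, hNc, na3, na4, naw, nb4, nbw, he, hθ]
    · linarith only [era, erb, erc, eha, ehb, ehc, htot, ta, za, wb, pc, g7, na4, naw, nbw, he, hθ]
    · linarith only [era, erb, erc, eha, ehb, ehc, htot, hab, ta, wa, za, ma, tb, zb, vb, pc, g6,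
        g7, hBba 2 b2 3 a3 kb2 ka3, na2, na4, nav, nb1, nbw, nbm, he, hθ]
    · linarith only [era, erb, erc, eha, ehb, ehc, htot, hab, ta, wa, za, ma, tb, zb, vb, pc, g6,
        g7, hBba 2 b2 3 a3 kb2 ka3, na2, na4, nav, nb1, nbw, nbm, he, hθ]
  · rcases hL _ _ _ _ _ _ (hSa 0 1 1 0 1 0 o0 o1 o1 o0 o1 o0) (hSb 0 0 1 0 1 0 o0 o0 o1 o0 o1 o0)
      (hSc 0 1 1 1 1 0 o0 o1 o1 o1 o1 o0) with g7 | g7
    · rcases hXb _ _ (hSb 0 0 1 0 0 0 o0 o0 o1 o0 o0 o0) with g8 | g8 | g8 | g8 | g8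
      · linarith only [era, erb, erc, eha, ehb, ehc, htot, hab, ta, wa, za, ma, tb, wb, zb, vb, pc,
          g7, g8, hNc, na4, naw, nav, nbm, nc1, ncm, he, hθ]
      · linarith only [era, erb, erc, eha, ehb, ehc, htot, hab, ta, wa, za, ma, tb, wb, zb, vb, pc,
          g7, g8, hNc, na4, naw, nav, nbm, nc1, ncm, he, hθ]
      · linarith only [era, erb, erc, eha, ehb, ehc, htot, wa, za, pc, g8, na4, naw, he, hθ]
      · rcases hXa _ _ (hSa 0 0 1 0 1 0 o0 o0 o1 o0 o1 o0) with g9 | g9 | g9 | g9 | g9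
        · linarith only [era, erb, erc, eha, ehb, ehc, htot, hbc, ta, wa, za, va, tb, pc, vc, g4,
            g8, g9, hBab 2 a2 3 b3 ka2 kb3, na4, naw, nam, nbw, ncm, he, hθ]
        · linarith only [era, erb, erc, eha, ehb, ehc, htot, hbc, ta, wa, za, va, tb, pc, vc, g4,
            g8, g9, hBba 3 b3 2 a2 kb3 ka2, na4, naw, nam, nbw, ncm, he, hθ]
        · linarith only [era, erb, erc, eha, ehb, ehc, htot, ta, za, wb, pc, g9, na4, naw, nbw, he,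
            hθ]
        · linarith only [era, erb, erc, eha, ehb, ehc, htot, ta, wa, za, pc, g8, g9,
            hBab 3 a3 3 b3 ka3 kb3, hBba 3 b3 3 a3 kb3 ka3, na4, he, hθ]
        · linarith only [era, erb, erc, eha, ehb, ehc, htot, ta, wa, za, pc, g8, g9,
            hBab 3 a3 3 b3 ka3 kb3, hBba 3 b3 3 a3 kb3 ka3, na4, he, hθ]
      · rcases hXa _ _ (hSa 0 0 1 0 1 0 o0 o0 o1 o0 o1 o0) with g9 | g9 | g9 | g9 | g9
        · linarith only [era, erb, erc, eha, ehb, ehc, htot, hbc, ta, wa, za, va, tb, pc, vc, g4,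
            g8, g9, hBab 2 a2 3 b3 ka2 kb3, na4, naw, nam, nbw, ncm, he, hθ]
        · linarith only [era, erb, erc, eha, ehb, ehc, htot, hbc, ta, za, va, tb, pc, vc, g4, g8,
            g9, hBba 3 b3 2 a2 kb3 ka2, na3, na4, naw, nam, nbw, ncm, he, hθ]
        · linarith only [era, erb, erc, eha, ehb, ehc, htot, ta, za, wb, pc, g9, na4, naw, nbw, he,
            hθ]
        · linarith only [era, erb, erc, eha, ehb, ehc, htot, ta, wa, za, wb, pc, g8, g9,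
            hBab 3 a3 3 b3 ka3 kb3, na4, nbw, he, hθ]
        · linarith only [era, erb, erc, eha, ehb, ehc, htot, ta, wa, za, wb, pc, g8, g9,
            hBab 3 a3 3 b3 ka3 kb3, na4, nbw, he, hθ]
    · rcases hXa _ _ (hSa 0 1 1 0 1 0 o0 o1 o1 o0 o1 o0) with g8 | g8 | g8 | g8 | g8
      · linarith only [era, erb, erc, eha, ehb, ehc, htot, hbc, ta, za, va, tb, wb, pc, vc, g1, g7,
          g8, hBab 1 a1 2 b2 ka1 kb2, na3, na4, naw, nbw, nc1, ncm, he, hθ]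
      · linarith only [era, erb, erc, eha, ehb, ehc, htot, hbc, ta, za, va, tb, wb, pc, vc, g1, g7,
          g8, hBab 1 a1 2 b2 ka1 kb2, na3, na4, naw, nbw, nc1, ncm, he, hθ]
      · linarith only [era, erb, erc, eha, ehb, ehc, htot, hbc, ta, za, va, tb, wb, pc, vc, g6, g7,
          g8, hNc, na4, naw, nam, nb4, nbw, ncm, he, hθ]
      · linarith only [era, erb, erc, eha, ehb, ehc, htot, hbc, hab, ta, za, va, tb, wb, zb, vb,
          pc, vc, g6, g7, g8, hNc, na4, naw, nam, nbw, nbm, ncm, he, hθ]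
      · linarith only [era, erb, erc, eha, ehb, ehc, htot, hbc, hab, ta, za, wb, zb, vb, pc, vc,
          g7, g8, hNc, na4, naw, nbw, nbm, ncm, he, hθ]
  · rcases hL _ _ _ _ _ _ (hSa 0 1 1 0 1 0 o0 o1 o1 o0 o1 o0) (hSb 0 0 1 0 1 0 o0 o0 o1 o0 o1 o0)
      (hSc 0 1 1 1 1 0 o0 o1 o1 o1 o1 o0) with g7 | g7
    · rcases hXb _ _ (hSb 0 0 1 0 0 0 o0 o0 o1 o0 o0 o0) with g8 | g8 | g8 | g8 | g8
      · linarith only [era, erb, erc, eha, ehb, ehc, htot, hab, ta, wa, za, ma, tb, wb, zb, vb, pc,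
          g7, g8, hNc, na4, naw, nav, nbm, nc1, ncm, he, hθ]
      · linarith only [era, erb, erc, eha, ehb, ehc, htot, hab, ta, wa, za, ma, tb, wb, zb, vb, pc,
          g7, g8, hNc, na4, naw, nav, nbm, nc1, ncm, he, hθ]
      · linarith only [era, erb, erc, eha, ehb, ehc, htot, wa, za, pc, g8, na4, naw, he, hθ]
      · rcases hXa _ _ (hSa 0 0 1 0 1 0 o0 o0 o1 o0 o1 o0) with g9 | g9 | g9 | g9 | g9
        · linarith only [era, erb, erc, eha, ehb, ehc, htot, hbc, ta, wa, za, va, tb, pc, vc, g4,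
            g8, g9, hBab 2 a2 3 b3 ka2 kb3, na4, naw, nam, nbw, ncm, he, hθ]
        · linarith only [era, erb, erc, eha, ehb, ehc, htot, hbc, ta, wa, za, va, tb, pc, vc, g4,
            g8, g9, hBba 3 b3 2 a2 kb3 ka2, na4, naw, nam, nbw, ncm, he, hθ]
        · linarith only [era, erb, erc, eha, ehb, ehc, htot, ta, za, wb, pc, g9, na4, naw, nbw, he,
            hθ]
        · linarith only [era, erb, erc, eha, ehb, ehc, htot, ta, wa, za, pc, g8, g9,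
            hBab 3 a3 3 b3 ka3 kb3, hBba 3 b3 3 a3 kb3 ka3, na4, he, hθ]
        · linarith only [era, erb, erc, eha, ehb, ehc, htot, ta, wa, za, pc, g8, g9,
            hBab 3 a3 3 b3 ka3 kb3, hBba 3 b3 3 a3 kb3 ka3, na4, he, hθ]
      · rcases hXa _ _ (hSa 0 0 1 0 1 0 o0 o0 o1 o0 o1 o0) with g9 | g9 | g9 | g9 | g9
        · linarith only [era, erb, erc, eha, ehb, ehc, htot, hbc, ta, wa, za, va, tb, pc, vc, g4,
            g8, g9, hBab 2 a2 3 b3 ka2 kb3, na4, naw, nam, nbw, ncm, he, hθ]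
        · linarith only [era, erb, erc, eha, ehb, ehc, htot, hbc, ta, za, va, tb, pc, vc, g4, g8,
            g9, hBba 3 b3 2 a2 kb3 ka2, na3, na4, naw, nam, nbw, ncm, he, hθ]
        · linarith only [era, erb, erc, eha, ehb, ehc, htot, ta, za, wb, pc, g9, na4, naw, nbw, he,
            hθ]
        · linarith only [era, erb, erc, eha, ehb, ehc, htot, ta, wa, za, wb, pc, g8, g9,
            hBab 3 a3 3 b3 ka3 kb3, na4, nbw, he, hθ]
        · linarith only [era, erb, erc, eha, ehb, ehc, htot, ta, wa, za, wb, pc, g8, g9,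
            hBab 3 a3 3 b3 ka3 kb3, na4, nbw, he, hθ]
    · rcases hXa _ _ (hSa 0 1 1 0 1 0 o0 o1 o1 o0 o1 o0) with g8 | g8 | g8 | g8 | g8
      · linarith only [era, erb, erc, eha, ehb, ehc, htot, hbc, ta, za, va, tb, wb, pc, vc, g1, g7,
          g8, hBab 1 a1 2 b2 ka1 kb2, na3, na4, naw, nbw, nc1, ncm, he, hθ]
      · linarith only [era, erb, erc, eha, ehb, ehc, htot, hbc, ta, za, va, tb, wb, pc, vc, g1, g7,
          g8, hBab 1 a1 2 b2 ka1 kb2, na3, na4, naw, nbw, nc1, ncm, he, hθ]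
      · linarith only [era, erb, erc, eha, ehb, ehc, htot, hbc, ta, za, va, tb, wb, pc, vc, g6, g7,
          g8, hNc, na4, naw, nam, nb4, nbw, ncm, he, hθ]
      · linarith only [era, erb, erc, eha, ehb, ehc, htot, hbc, hab, ta, za, va, tb, wb, zb, vb,
          pc, vc, g6, g7, g8, hNc, na4, naw, nam, nbw, nbm, ncm, he, hθ]
      · linarith only [era, erb, erc, eha, ehb, ehc, htot, hbc, hab, ta, za, wb, zb, vb, pc, vc,
          g7, g8, hNc, na4, naw, nbw, nbm, ncm, he, hθ]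

end Pool.Agent.Lib.MP_d8bd92_nt.Fh.Opt
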