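import Pool.Agent.Lib.MP_d8bd92_nt.Fh.Opt.Defs

set_option autoImplicit false

/-!
Optimisation: leaves of the tree (linear certificates).
-/

namespace Pool.Agent.Lib.MP_d8bd92_nt.Fh.Opt

open Pool.Agent.Lib.MP_d8bd92_nt.Fh

theorem q0_0_7 {θ e a1 a2 a3 a4 a5 aw am av b1 b2 b3 b4 b5 bw bm bv c1 c2 c3 c4 c5 cw cm cv
    ra rb rc ha hb hc : ℝ} {KA KB KC SA SB SC : ℝ → ℝ → Prop}
    (H : Cfg θ e a1 a2 a3 a4 a5 aw am av b1 b2 b3 b4 b5 bw bm bv c1 c2 c3 c4 c5 cw cm cv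
      ra rb rc ha hb hc KA KB KC SA SB SC)
    (pa : rb + rc ≤ 7 / 9) (za : a4 = 0) (ta : 4 * a5 ≤ aw)
    (wa : aw ≤ 20 / 13 * (rb + rc - 7 / 12)) (ma : am = 0) (va : av = 0) (pb : ra + rc ≤ 7 / 9)
    (zb : b4 = 0) (tb : 4 * b5 ≤ bw) (wb : bw ≤ 20 / 13 * (ra + rc - 7 / 12)) (mb : bm = 0)
    (vb : bv = 0) (pc : ra + rb ≤ 7 / 9) (zc : c4 = 0) (tc : 4 * c5 ≤ cw)
    (wc : cw ≤ 20 / 13 * (ra + rb - 7 / 12)) (mc : cm = 0) (vc : cv = 0)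
    (g0 : θ < (0 * a1 + 1 * a2 + 1 * a3 + 0 * a4 + 1 * a5 + 0 * am) + (0 * b1 + 1 * b2 + 1 * b3 + 0
    * b4 + 1 * b5 + 0 * bm) + (0 * c1 + 1 * c2 + 1 * c3 + 0 * c4 + 1 * c5 + 0 * cm))
    (g1 : θ < (0 * a1 + 0 * a2 + 0 * a3 + 0 * a4 + 1 * a5 + 0 * am) + (0 * b1 + 0 * b2 + 1 * b3 + 0
    * b4 + 1 * b5 + 0 * bm) + (0 * c1 + 0 * c2 + 1 * c3 + 0 * c4 + 1 * c5 + 0 * cm) + (ha + hb)
    - ((0 * a1 + 2 * (0 * a2) + 3 * (0 * a3) + 4 * (0 * a4) + 1 * aw + 0 * av) + (0 * b1 + 2 * (0 *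
    b2) + 3 * (1 * b3) + 4 * (0 * b4) + 1 * bw + 0 * bv) + (0 * c1 + 2 * (0 * c2) + 3 * (1 * c3)
    + 4 * (0 * c4) + 1 * cw + 0 * cv)))
    (g2 : θ < (0 * a1 + 1 * a2 + 1 * a3 + 0 * a4 + 1 * a5 + 0 * am) + (0 * b1 + 0 * b2 + 1 * b3 + 0
    * b4 + 1 * b5 + 0 * bm) + (0 * c1 + 1 * c2 + 1 * c3 + 0 * c4 + 1 * c5 + 0 * cm))
    (g3 : θ < (0 * b1 + 0 * b2 + 1 * b3 + 0 * b4 + 1 * b5 + 0 * bm) + (ra + rc) - 1 / 2 * (ra + rc)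
   )
    (g4 : θ < (0 * c1 + 0 * c2 + 1 * c3 + 0 * c4 + 0 * c5 + 0 * cm) + (ra + rb) - (0 * c1 + 2 * (0
    * c2) + 3 * (1 * c3) + 4 * (0 * c4) + 0 * cw + 0 * cv)) : False := by
  obtain ⟨era, erb, erc, eha, ehb, ehc, na1, na2, na3, na4, na5, naw, nam, nav, nb1, nb2, nb3, nb4, nb5,
    nbw, nbm, nbv, nc1, nc2, nc3, nc4, nc5, ncw, ncm, ncv, he, he1, hθ, htot, hbc, hcb, hab, hlo,
    hTab, hTac, hTbc, hNa, hNb, hNc, hBab, hBac, hBba, hBbc, hBca, hBcb, hXa, hXb, hXc, hL, hSa,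
    hSb, hSc, ka1, ka2, ka3, kb1, kb2, kb3, kc1, kc2, kc3⟩ := id H
  rcases hL _ _ _ _ _ _ (hSa 0 1 1 0 1 0 o0 o1 o1 o0 o1 o0) (hSb 0 0 1 0 1 0 o0 o0 o1 o0 o1 o0)
    (hSc 0 0 0 0 1 0 o0 o0 o0 o0 o1 o0) with g5 | g5
  · rcases hXa _ _ (hSa 0 0 1 0 1 0 o0 o0 o1 o0 o1 o0) with g6 | g6 | g6 | g6 | g6
    · linarith only [era, erb, erc, eha, ehb, ehc, htot, hbc, ta, wa, tb, zb, mb, wc, zc, vc, g3,
        g4, g5, g6, hBab 2 a2 3 b3 ka2 kb3, hNb, na4, naw, nb2, nb4, nbw, nbv, nc1, ncm, he, hθ]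
    · linarith only [era, erb, erc, eha, ehb, ehc, htot, hbc, ta, tb, zb, mb, wc, zc, vc, g3, g4,
        g5, g6, hBab 2 a2 3 b3 ka2 kb3, hNb, na3, na4, naw, nb2, nb4, nbw, nbv, nc1, ncm, he, hθ]
    · linarith only [era, erb, erc, eha, ehb, ehc, htot, hbc, ta, tb, zb, mb, tc, wc, zc, vc, g4,
        g5, g6, hBcb 2 c2 3 b3 kc2 kb3, na1, na4, naw, nam, nb2, nb4, nbw, nbv, nc1, ncm, he, hθ]
    · linarith only [era, erb, erc, eha, ehb, ehc, htot, hbc, hab, ta, tb, zb, mb, wc, zc, vc, g4,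
        g5, g6, hBcb 2 c2 3 b3 kc2 kb3, na1, na4, naw, nam, nav, nb2, nb4, nbw, nbv, nc1, nc5, ncm,
        he, hθ]
    · linarith only [era, erb, erc, eha, ehb, ehc, htot, hbc, hab, ta, ma, tb, zb, mb, wc, zc, vc,
        g4, g5, g6, hBcb 2 c2 3 b3 kc2 kb3, na1, na4, naw, nav, nb2, nb4, nbw, nbv, nc1, nc5, ncm,
        he, hθ]
  · rcases hXa _ _ (hSa 0 1 1 0 1 0 o0 o1 o1 o0 o1 o0) with g6 | g6 | g6 | g6 | g6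
    · rcases hL _ _ _ _ _ _ (hSa 0 0 0 0 0 0 o0 o0 o0 o0 o0 o0) (hSb 0 0 1 0 1 0 o0 o0 o1 o0 o1 o0)
        (hSc 0 1 1 0 1 0 o0 o1 o1 o0 o1 o0) with g7 | g7
      · linarith only [era, erb, erc, eha, ehb, ehc, htot, hbc, ta, za, va, tb, zb, tc, wc, zc, vc,
          g1, g3, g4, g5, g6, g7, hBcb 2 c2 3 b3 kc2 kb3, hBac 1 a1 2 c2 ka1 kc2, na3, naw, nam,
          nb4, ncm, he, hθ]
      · linarith only [era, erb, erc, eha, ehb, ehc, htot, hbc, ta, za, va, tb, zb, vb, tc, wc, zc,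
          vc, g2, g3, g6, g7, na3, naw, nam, nb1, nb4, nbw, nbm, nc3, nc5, ncm, he, hθ]
    · rcases hL _ _ _ _ _ _ (hSa 0 0 0 0 0 0 o0 o0 o0 o0 o0 o0) (hSb 0 0 1 0 1 0 o0 o0 o1 o0 o1 o0)
        (hSc 0 1 1 0 1 0 o0 o1 o1 o0 o1 o0) with g7 | g7
      · linarith only [era, erb, erc, eha, ehb, ehc, htot, hbc, ta, za, va, tb, zb, tc, wc, zc, vc,
          g3, g4, g5, g6, g7, hBcb 2 c2 3 b3 kc2 kb3, hBac 1 a1 2 c2 ka1 kc2, hNb, na3, naw, nam,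
          nb4, ncm, he, hθ]
      · linarith only [era, erb, erc, eha, ehb, ehc, htot, hbc, ta, za, va, tb, zb, mb, tc, wc, zc,
          vc, g3, g4, g6, g7, hNb, na3, naw, nam, nb2, nb4, nbw, nbv, nc5, ncm, he, hθ]
    · linarith only [era, erb, erc, eha, ehb, ehc, htot, hbc, ta, tb, zb, mb, tc, wc, zc, vc, g3,
        g4, g6, hBcb 2 c2 3 b3 kc2 kb3, hNb, na4, naw, nb2, nb4, nbw, nbv, nc5, ncm, he, hθ]
    · rcases hXa _ _ (hSa 0 0 1 0 1 0 o0 o0 o1 o0 o1 o0) with g7 | g7 | g7 | g7 | g7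
      · linarith only [era, erb, erc, eha, ehb, ehc, htot, hbc, hab, ta, ma, tb, zb, mb, wc, zc,
          vc, g3, g4, g5, g6, g7, hNb, na4, naw, nav, nb2, nb4, nbw, nbv, nc5, ncm, he, hθ]
      · linarith only [era, erb, erc, eha, ehb, ehc, htot, hbc, hab, ta, ma, tb, zb, mb, tc, wc,
          zc, vc, g3, g4, g6, g7, hNb, na4, naw, nav, nb2, nb4, nbw, nbv, nc5, ncm, he, hθ]
      · linarith only [era, erb, erc, eha, ehb, ehc, htot, hbc, ta, tb, zb, mb, tc, wc, zc, vc, g3,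
          g4, g7, hBcb 2 c2 3 b3 kc2 kb3, hBbc 3 b3 2 c2 kb3 kc2, naw, nb2, nb4, nbv, nc5, ncm, he,
          hθ]
      · linarith only [era, erb, erc, eha, ehb, ehc, htot, hbc, hab, ta, ma, tb, zb, mb, wc, zc,
          vc, g3, g4, g5, g7, hBcb 2 c2 3 b3 kc2 kb3, hBbc 3 b3 2 c2 kb3 kc2,
          hBca 2 c2 3 a3 kc2 ka3, na2, na4, nav, nb2, nb4, nbv, nc5, ncm, he, hθ]
      · linarith only [era, erb, erc, eha, ehb, ehc, htot, hbc, hab, ta, za, va, tb, zb, wc, zc,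
          vc, g3, g4, g5, g6, g7, hBcb 2 c2 3 b3 kc2 kb3, hBbc 3 b3 2 c2 kb3 kc2,
          hBca 2 c2 3 a3 kc2 ka3, na2, nam, nb4, nc5, ncm, he, hθ]
    · rcases hXa _ _ (hSa 0 0 1 0 1 0 o0 o0 o1 o0 o1 o0) with g7 | g7 | g7 | g7 | g7
      · linarith only [era, erb, erc, eha, ehb, ehc, htot, hbc, hab, ta, va, tb, zb, mb, wc, zc,
          vc, g3, g4, g5, g6, g7, hNb, na4, naw, nam, nb2, nb4, nbw, nbv, nc5, ncm, he, hθ]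
      · linarith only [era, erb, erc, eha, ehb, ehc, htot, hbc, hab, ta, ma, tb, zb, mb, wc, zc,
          vc, g3, g4, g5, g6, g7, hNb, na4, naw, nav, nb2, nb4, nbw, nbv, nc5, ncm, he, hθ]
      · linarith only [era, erb, erc, eha, ehb, ehc, htot, hbc, ta, tb, zb, mb, tc, wc, zc, vc, g3,
          g4, g7, hBcb 2 c2 3 b3 kc2 kb3, hBbc 3 b3 2 c2 kb3 kc2, naw, nb2, nb4, nbv, nc5, ncm, he,
          hθ]
      · linarith only [era, erb, erc, eha, ehb, ehc, htot, hbc, hab, ta, ma, tb, zb, mb, wc, zc,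
          vc, g3, g4, g5, g6, g7, hBcb 2 c2 3 b3 kc2 kb3, hBbc 3 b3 2 c2 kb3 kc2,
          hBca 2 c2 3 a3 kc2 ka3, na4, nav, nb2, nb4, nbv, nc5, ncm, he, hθ]
      · linarith only [era, erb, erc, eha, ehb, ehc, htot, hbc, hab, ta, tb, zb, wc, zc, vc, g3,
          g4, g5, g7, hBcb 2 c2 3 b3 kc2 kb3, hBbc 3 b3 2 c2 kb3 kc2, hBca 2 c2 3 a3 kc2 ka3, na2,
          nb4, nc1, nc5, ncm, he, hθ]

theorem q0_0_8 {θ e a1 a2 a3 a4 a5 aw am av b1 b2 b3 b4 b5 bw bm bv c1 c2 c3 c4 c5 cw cm cv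
    ra rb rc ha hb hc : ℝ} {KA KB KC SA SB SC : ℝ → ℝ → Prop}
    (H : Cfg θ e a1 a2 a3 a4 a5 aw am av b1 b2 b3 b4 b5 bw bm bv c1 c2 c3 c4 c5 cw cm cv
      ra rb rc ha hb hc KA KB KC SA SB SC)
    (pa : rb + rc ≤ 7 / 9) (za : a4 = 0) (ta : 4 * a5 ≤ aw)
    (wa : aw ≤ 20 / 13 * (rb + rc - 7 / 12)) (ma : am = 0) (va : av = 0) (pb : ra + rc ≤ 7 / 9)
    (zb : b4 = 0) (tb : 4 * b5 ≤ bw) (wb : bw ≤ 20 / 13 * (ra + rc - 7 / 12)) (mb : bm = 0)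
    (vb : bv = 0) (pc : ra + rb ≤ 7 / 9) (zc : c4 = 0) (tc : 4 * c5 ≤ cw)
    (wc : cw ≤ 20 / 13 * (ra + rb - 7 / 12)) (mc : cm = 0) (vc : cv = 0)
    (g0 : θ < (0 * a1 + 1 * a2 + 1 * a3 + 0 * a4 + 1 * a5 + 0 * am) + (0 * b1 + 1 * b2 + 1 * b3 + 0
    * b4 + 1 * b5 + 0 * bm) + (0 * c1 + 1 * c2 + 1 * c3 + 0 * c4 + 1 * c5 + 0 * cm))
    (g1 : θ < (0 * a1 + 0 * a2 + 0 * a3 + 0 * a4 + 1 * a5 + 0 * am) + (0 * b1 + 0 * b2 + 1 * b3 + 0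
    * b4 + 1 * b5 + 0 * bm) + (0 * c1 + 0 * c2 + 1 * c3 + 0 * c4 + 1 * c5 + 0 * cm) + (ha + hb)
    - ((0 * a1 + 2 * (0 * a2) + 3 * (0 * a3) + 4 * (0 * a4) + 1 * aw + 0 * av) + (0 * b1 + 2 * (0 *
    b2) + 3 * (1 * b3) + 4 * (0 * b4) + 1 * bw + 0 * bv) + (0 * c1 + 2 * (0 * c2) + 3 * (1 * c3)
    + 4 * (0 * c4) + 1 * cw + 0 * cv)))
    (g2 : θ < (0 * a1 + 1 * a2 + 1 * a3 + 0 * a4 + 1 * a5 + 0 * am) + (0 * b1 + 0 * b2 + 1 * b3 + 0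
    * b4 + 1 * b5 + 0 * bm) + (0 * c1 + 1 * c2 + 1 * c3 + 0 * c4 + 1 * c5 + 0 * cm))
    (g3 : θ < (0 * b1 + 0 * b2 + 1 * b3 + 0 * b4 + 1 * b5 + 0 * bm) + (ra + rc) - 1 / 2 * (ra + rc)
   )
    (g4 : θ < (0 * c1 + 0 * c2 + 1 * c3 + 0 * c4 + 0 * c5 + 0 * cm) + (ra + rb) - (1 / 14 * (ra
    + rb) + 5 / 7 * (0 * c1 + 2 * (0 * c2) + 3 * (1 * c3) + 4 * (0 * c4) + 0 * cw + 0 * cv))) : False := by
  obtain ⟨era, erb, erc, eha, ehb, ehc, na1, na2, na3, na4, na5, naw, nam, nav, nb1, nb2, nb3, nb4, nb5,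
    nbw, nbm, nbv, nc1, nc2, nc3, nc4, nc5, ncw, ncm, ncv, he, he1, hθ, htot, hbc, hcb, hab, hlo,
    hTab, hTac, hTbc, hNa, hNb, hNc, hBab, hBac, hBba, hBbc, hBca, hBcb, hXa, hXb, hXc, hL, hSa,
    hSb, hSc, ka1, ka2, ka3, kb1, kb2, kb3, kc1, kc2, kc3⟩ := id H
  rcases hL _ _ _ _ _ _ (hSa 0 1 1 0 1 0 o0 o1 o1 o0 o1 o0) (hSb 0 0 1 0 1 0 o0 o0 o1 o0 o1 o0)
    (hSc 0 0 0 0 1 0 o0 o0 o0 o0 o1 o0) with g5 | g5
  · rcases hXa _ _ (hSa 0 0 1 0 1 0 o0 o0 o1 o0 o1 o0) with g6 | g6 | g6 | g6 | g6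
    · linarith only [era, erb, erc, eha, ehb, ehc, htot, hbc, ta, wa, tb, zb, mb, wc, zc, vc, g3,
        g4, g5, g6, hBab 2 a2 3 b3 ka2 kb3, hNb, na4, naw, nb2, nb4, nbw, nbv, nc1, ncm, he, hθ]
    · linarith only [era, erb, erc, eha, ehb, ehc, htot, hbc, ta, tb, zb, mb, wc, zc, vc, g3, g4,
        g5, g6, hBab 2 a2 3 b3 ka2 kb3, hNb, na3, na4, naw, nb2, nb4, nbw, nbv, nc1, ncm, he, hθ]
    · linarith only [era, erb, erc, eha, ehb, ehc, htot, hbc, ta, tb, zb, mb, tc, wc, zc, vc, g4,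
        g5, g6, hBcb 2 c2 3 b3 kc2 kb3, na1, na4, naw, nam, nb2, nb4, nbw, nbv, nc1, ncm, he, hθ]
    · linarith only [era, erb, erc, eha, ehb, ehc, htot, hbc, hab, ta, ma, tb, zb, mb, wc, zc, vc,
        g4, g5, g6, hBcb 2 c2 3 b3 kc2 kb3, na1, na4, naw, nav, nb2, nb4, nbw, nbv, nc1, nc5, ncm,
        he, hθ]
    · linarith only [era, erb, erc, eha, ehb, ehc, htot, hbc, hab, ta, ma, tb, zb, mb, wc, zc, vc,
        g4, g5, g6, hBcb 2 c2 3 b3 kc2 kb3, na1, na4, naw, nav, nb2, nb4, nbw, nbv, nc1, nc5, ncm,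
        he, hθ]
  · rcases hXa _ _ (hSa 0 1 1 0 1 0 o0 o1 o1 o0 o1 o0) with g6 | g6 | g6 | g6 | g6
    · linarith only [era, erb, erc, eha, ehb, ehc, htot, hbc, ta, za, va, tb, zb, tc, wc, zc, vc,
        g2, g3, g4, g5, g6, hBac 1 a1 2 c2 ka1 kc2, hBab 1 a1 3 b3 ka1 kb3, na3, naw, nam, nb4,
        nbw, ncm, he, hθ]
    · linarith only [era, erb, erc, eha, ehb, ehc, htot, hbc, ta, za, va, tb, zb, tc, wc, zc, vc,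
        g2, g3, g4, g5, g6, hBac 1 a1 2 c2 ka1 kc2, na3, naw, nam, nb4, nbw, nc3, ncm, he, hθ]
    · linarith only [era, erb, erc, eha, ehb, ehc, htot, hbc, ta, va, tb, zb, mb, wc, zc, vc, g3,
        g4, g5, g6, hBcb 2 c2 3 b3 kc2 kb3, hNb, na4, naw, nam, nb2, nb4, nbw, nbv, nc5, ncm, he,
        hθ]
    · rcases hXa _ _ (hSa 0 0 1 0 1 0 o0 o0 o1 o0 o1 o0) with g7 | g7 | g7 | g7 | g7
      · linarith only [era, erb, erc, eha, ehb, ehc, htot, hbc, hab, ta, wa, za, va, tb, zb, wc,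
          zc, vc, g3, g4, g5, g6, g7, hNb, naw, nam, nb4, nbw, nc5, ncm, he, hθ]
      · linarith only [era, erb, erc, eha, ehb, ehc, htot, hbc, hab, ta, za, va, tb, zb, wc, zc,
          vc, g3, g4, g5, g6, g7, hNb, na3, naw, nam, nb4, nbw, nc5, ncm, he, hθ]
      · linarith only [era, erb, erc, eha, ehb, ehc, htot, hbc, ta, tb, zb, mb, wc, zc, vc, g3, g4,
          g7, hBbc 3 b3 2 c2 kb3 kc2, naw, nb2, nb4, nbw, nbv, nc3, nc5, ncm, he, hθ]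
      · linarith only [era, erb, erc, eha, ehb, ehc, htot, hbc, hab, ta, za, va, tb, zb, wc, zc,
          vc, g3, g4, g5, g7, hBcb 2 c2 3 b3 kc2 kb3, hBbc 3 b3 2 c2 kb3 kc2,
          hBca 2 c2 3 a3 kc2 ka3, na2, nam, nb4, nc1, nc5, ncm, he, hθ]
      · linarith only [era, erb, erc, eha, ehb, ehc, htot, hbc, hab, ta, za, va, tb, zb, wc, zc,
          vc, g3, g4, g5, g6, g7, hBcb 2 c2 3 b3 kc2 kb3, hBca 2 c2 3 a3 kc2 ka3, nam, nb4, nbw,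
          nc1, nc5, ncm, he, hθ]
    · rcases hXa _ _ (hSa 0 0 1 0 1 0 o0 o0 o1 o0 o1 o0) with g7 | g7 | g7 | g7 | g7
      · linarith only [era, erb, erc, eha, ehb, ehc, htot, hbc, hab, ta, wa, za, va, tb, zb, wc,
          zc, vc, g3, g4, g5, g6, g7, hNb, naw, nam, nb4, nbw, nc5, ncm, he, hθ]
      · linarith only [era, erb, erc, eha, ehb, ehc, htot, hbc, hab, ta, za, va, tb, zb, wc, zc,
          vc, g3, g4, g5, g6, g7, hNb, na3, naw, nam, nb4, nbw, nc5, ncm, he, hθ]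
      · linarith only [era, erb, erc, eha, ehb, ehc, htot, hbc, ta, tb, zb, mb, wc, zc, vc, g3, g4,
          g7, hBbc 3 b3 2 c2 kb3 kc2, naw, nb2, nb4, nbw, nbv, nc3, nc5, ncm, he, hθ]
      · linarith only [era, erb, erc, eha, ehb, ehc, htot, hbc, hab, ta, za, va, tb, zb, wc, zc,
          vc, g3, g4, g5, g7, hBcb 2 c2 3 b3 kc2 kb3, hBbc 3 b3 2 c2 kb3 kc2,
          hBca 2 c2 3 a3 kc2 ka3, na2, nam, nb4, nc1, nc5, ncm, he, hθ]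
      · linarith only [era, erb, erc, eha, ehb, ehc, htot, hbc, hab, ta, za, va, tb, zb, wc, zc,
          vc, g3, g4, g5, g7, hBcb 2 c2 3 b3 kc2 kb3, hBca 2 c2 3 a3 kc2 ka3, na2, nam, nb4, nbw,
          nc1, nc5, ncm, he, hθ]

theorem q0_0_5 {θ e a1 a2 a3 a4 a5 aw am av b1 b2 b3 b4 b5 bw bm bv c1 c2 c3 c4 c5 cw cm cv
    ra rb rc ha hb hc : ℝ} {KA KB KC SA SB SC : ℝ → ℝ → Prop}
    (H : Cfg θ e a1 a2 a3 a4 a5 aw am av b1 b2 b3 b4 b5 bw bm bv c1 c2 c3 c4 c5 cw cm cv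
      ra rb rc ha hb hc KA KB KC SA SB SC)
    (pa : rb + rc ≤ 7 / 9) (za : a4 = 0) (ta : 4 * a5 ≤ aw)
    (wa : aw ≤ 20 / 13 * (rb + rc - 7 / 12)) (ma : am = 0) (va : av = 0) (pb : ra + rc ≤ 7 / 9)
    (zb : b4 = 0) (tb : 4 * b5 ≤ bw) (wb : bw ≤ 20 / 13 * (ra + rc - 7 / 12)) (mb : bm = 0)
    (vb : bv = 0) (pc : ra + rb ≤ 7 / 9) (zc : c4 = 0) (tc : 4 * c5 ≤ cw)
    (wc : cw ≤ 20 / 13 * (ra + rb - 7 / 12)) (mc : cm = 0) (vc : cv = 0)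
    (g0 : θ < (0 * a1 + 1 * a2 + 1 * a3 + 0 * a4 + 1 * a5 + 0 * am) + (0 * b1 + 1 * b2 + 1 * b3 + 0
    * b4 + 1 * b5 + 0 * bm) + (0 * c1 + 1 * c2 + 1 * c3 + 0 * c4 + 1 * c5 + 0 * cm))
    (g1 : θ < (0 * a1 + 0 * a2 + 0 * a3 + 0 * a4 + 1 * a5 + 0 * am) + (0 * b1 + 0 * b2 + 1 * b3 + 0
    * b4 + 1 * b5 + 0 * bm) + (0 * c1 + 0 * c2 + 1 * c3 + 0 * c4 + 1 * c5 + 0 * cm) + (ha + hb)
    - ((0 * a1 + 2 * (0 * a2) + 3 * (0 * a3) + 4 * (0 * a4) + 1 * aw + 0 * av) + (0 * b1 + 2 * (0 *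
    b2) + 3 * (1 * b3) + 4 * (0 * b4) + 1 * bw + 0 * bv) + (0 * c1 + 2 * (0 * c2) + 3 * (1 * c3)
    + 4 * (0 * c4) + 1 * cw + 0 * cv)))
    (g2 : θ < (0 * a1 + 1 * a2 + 1 * a3 + 0 * a4 + 1 * a5 + 0 * am) + (0 * b1 + 0 * b2 + 1 * b3 + 0
    * b4 + 1 * b5 + 0 * bm) + (0 * c1 + 1 * c2 + 1 * c3 + 0 * c4 + 1 * c5 + 0 * cm))
    (g3 : θ < (0 * b1 + 0 * b2 + 1 * b3 + 0 * b4 + 1 * b5 + 0 * bm) + (ra + rc) - (9 / 22 * (ra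
    + rc) + 1 / 11 * (0 * b1 + 2 * (0 * b2) + 3 * (1 * b3) + 4 * (0 * b4) + 1 * bw + 0 * bv)))
    (g4 : θ < (0 * c1 + 0 * c2 + 1 * c3 + 0 * c4 + 0 * c5 + 0 * cm) + (ra + rb) - (9 / 22 * (ra
    + rb) + 1 / 11 * (0 * c1 + 2 * (0 * c2) + 3 * (1 * c3) + 4 * (0 * c4) + 0 * cw + 0 * cv))) : False := by
  obtain ⟨era, erb, erc, eha, ehb, ehc, na1, na2, na3, na4, na5, naw, nam, nav, nb1, nb2, nb3, nb4, nb5,
    nbw, nbm, nbv, nc1, nc2, nc3, nc4, nc5, ncw, ncm, ncv, he, he1, hθ, htot, hbc, hcb, hab, hlo,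
    hTab, hTac, hTbc, hNa, hNb, hNc, hBab, hBac, hBba, hBbc, hBca, hBcb, hXa, hXb, hXc, hL, hSa,
    hSb, hSc, ka1, ka2, ka3, kb1, kb2, kb3, kc1, kc2, kc3⟩ := id H
  rcases hXa _ _ (hSa 0 0 1 0 0 0 o0 o0 o1 o0 o0 o0) with g5 | g5 | g5 | g5 | g5
  · rcases hL _ _ _ _ _ _ (hSa 0 0 0 0 0 0 o0 o0 o0 o0 o0 o0) (hSb 0 0 1 0 1 0 o0 o0 o1 o0 o1 o0)
      (hSc 0 1 1 0 1 0 o0 o1 o1 o0 o1 o0) with g6 | g6
    · linarith only [era, erb, erc, eha, ehb, ehc, htot, hbc, za, va, tb, zb, vb, tc, zc, vc, g1,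
        g3, g4, g5, g6, hBab 2 a2 3 b3 ka2 kb3, hBac 2 a2 3 c3 ka2 kc3, nam, nb1, nb4, nbm, nc1,
        ncw, ncm, he, hθ]
    · linarith only [era, erb, erc, eha, ehb, ehc, htot, hbc, wa, za, va, tb, zb, vb, tc, zc, vc,
        g1, g3, g4, g5, g6, hBac 2 a2 3 c3 ka2 kc3, na5, nam, nb1, nb4, nbw, nbm, nc1, ncw, ncm,
        he, hθ]
  · linarith only [era, erb, erc, eha, ehb, ehc, htot, hbc, za, va, tb, zb, vb, tc, zc, vc, g1, g3,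
      g4, g5, hBab 2 a2 3 b3 ka2 kb3, hBac 2 a2 3 c3 ka2 kc3, na3, nam, nb1, nb4, nbm, nc1, ncw,
      ncm, he, hθ]
  · linarith only [era, erb, erc, eha, ehb, ehc, htot, tb, wb, zb, g3, g4, g5,
      hBcb 3 c3 3 b3 kc3 kb3, hBbc 3 b3 3 c3 kb3 kc3, nb4, he, hθ]
  · linarith only [era, erb, erc, eha, ehb, ehc, htot, tb, wb, zb, g3, g4, g5,
      hBab 3 a3 3 b3 ka3 kb3, hBcb 3 c3 3 b3 kc3 kb3, hBac 3 a3 3 c3 ka3 kc3, nb4, he, hθ]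
  · rcases hXb _ _ (hSb 0 1 0 0 1 0 o0 o1 o0 o0 o1 o0) with g6 | g6 | g6 | g6 | g6
    · linarith only [era, erb, erc, eha, ehb, ehc, htot, tb, zb, g3, g4, g5, g6,
        hBab 3 a3 3 b3 ka3 kb3, hBbc 3 b3 3 c3 kb3 kc3, hBca 3 c3 3 a3 kc3 ka3, nb2, nb4, he, hθ]
    · linarith only [era, erb, erc, eha, ehb, ehc, htot, tb, zb, g3, g4, g5, g6,
        hBab 3 a3 3 b3 ka3 kb3, hBcb 3 c3 3 b3 kc3 kb3, hBca 3 c3 3 a3 kc3 ka3, nb2, nb4, he, hθ]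
    · linarith only [era, erb, erc, eha, ehb, ehc, htot, hcb, hab, ta, ma, tb, zb, vb, tc, mc, g3,
        g4, g5, g6, na2, na4, naw, nav, nb1, nb4, nbw, nbm, nc2, nc4, ncw, ncv, he, hθ]
    · linarith only [era, erb, erc, eha, ehb, ehc, htot, hcb, hab, ta, ma, tb, wb, zb, vb, tc, mc,
        g3, g4, g5, g6, na2, na4, naw, nav, nb1, nb4, nbm, nc2, nc4, ncw, ncv, he, hθ]
    · linarith only [era, erb, erc, eha, ehb, ehc, htot, hcb, hab, ta, ma, tb, wb, zb, vb, tc, mc,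
        g3, g4, g5, g6, na2, na4, naw, nav, nb1, nb4, nbm, nc2, nc4, ncw, ncv, he, hθ]

end Pool.Agent.Lib.MP_d8bd92_nt.Fh.Opt
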