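import Pool.Agent.Lib.MP_d8bd92_nt.Fh.Opt.Defs
import Pool.Agent.Lib.MP_d8bd92_nt.Fh.Opt.R0
import Pool.Agent.Lib.MP_d8bd92_nt.Fh.Opt.R1
import Pool.Agent.Lib.MP_d8bd92_nt.Fh.Opt.R2
import Pool.Agent.Lib.MP_d8bd92_nt.Fh.Opt.R3
import Pool.Agent.Lib.MP_d8bd92_nt.Fh.Opt.R4
import Pool.Agent.Lib.MP_d8bd92_nt.Fh.Opt.R5
import Pool.Agent.Lib.MP_d8bd92_nt.Fh.Opt.R6
import Pool.Agent.Lib.MP_d8bd92_nt.Fh.Opt.R7

set_option autoImplicit false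

/-!
Optimisation: leaves of the tree (linear certificates).
-/

namespace Pool.Agent.Lib.MP_d8bd92_nt.Fh.Opt

open Pool.Agent.Lib.MP_d8bd92_nt.Fh

theorem q1_0 {θ e a1 a2 a3 a4 a5 aw am av b1 b2 b3 b4 b5 bw bm bv c1 c2 c3 c4 c5 cw cm cv
    ra rb rc ha hb hc : ℝ} {KA KB KC SA SB SC : ℝ → ℝ → Prop}
    (H : Cfg θ e a1 a2 a3 a4 a5 aw am av b1 b2 b3 b4 b5 bw bm bv c1 c2 c3 c4 c5 cw cm cv
      ra rb rc ha hb hc KA KB KC SA SB SC)
    (pa : 7 / 9 ≤ rb + rc) (ka4 : KA 4 a4) (ta : 5 * a5 ≤ aw)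
    (wa : aw ≤ 65 / 36 * (rb + rc) - 245 / 216) (ma : am = 0) (va : av = 0) (pb : ra + rc ≤ 7 / 9)
    (zb : b4 = 0) (tb : 4 * b5 ≤ bw) (wb : bw ≤ 20 / 13 * (ra + rc - 7 / 12)) (mb : bm = 0)
    (vb : bv = 0) (pc : ra + rb ≤ 7 / 9) (zc : c4 = 0) (tc : 4 * c5 ≤ cw)
    (wc : cw ≤ 20 / 13 * (ra + rb - 7 / 12)) (mc : cm = 0) (vc : cv = 0) : False := by
  obtain ⟨era, erb, erc, eha, ehb, ehc, na1, na2, na3, na4, na5, naw, nam, nav, nb1, nb2, nb3, nb4, nb5,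
    nbw, nbm, nbv, nc1, nc2, nc3, nc4, nc5, ncw, ncm, ncv, he, he1, hθ, htot, hbc, hcb, hab, hlo,
    hTab, hTac, hTbc, hNa, hNb, hNc, hBab, hBac, hBba, hBbc, hBca, hBcb, hXa, hXb, hXc, hL, hSa,
    hSb, hSc, ka1, ka2, ka3, kb1, kb2, kb3, kc1, kc2, kc3⟩ := id H
  rcases hL _ _ _ _ _ _ (hSa 0 1 1 1 1 0 o0 o1 o1 o1 o1 o0) (hSb 0 1 1 0 1 0 o0 o1 o1 o0 o1 o0)
    (hSc 0 1 1 0 1 0 o0 o1 o1 o0 o1 o0) with g0 | g0
  · rcases hL _ _ _ _ _ _ (hSa 0 0 0 0 0 0 o0 o0 o0 o0 o0 o0) (hSb 0 0 1 0 1 0 o0 o0 o1 o0 o1 o0)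
      (hSc 0 0 1 0 1 0 o0 o0 o1 o0 o1 o0) with g1 | g1
    · linarith only [era, erb, erc, eha, ehb, ehc, htot, pa, tb, wb, zb, tc, wc, g1,
        hBcb 3 c3 3 b3 kc3 kb3, hBbc 3 b3 3 c3 kb3 kc3, nb4, he, hθ]
    · rcases hL _ _ _ _ _ _ (hSa 0 0 0 0 1 0 o0 o0 o0 o0 o1 o0) (hSb 0 0 1 0 1 0 o0 o0 o1 o0 o1 o0)
        (hSc 0 0 1 0 1 0 o0 o0 o1 o0 o1 o0) with g2 | g2
      · linarith only [era, erb, erc, eha, ehb, ehc, htot, pa, ta, wa, tb, wb, zb, tc, wc, g2,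
          hBcb 3 c3 3 b3 kc3 kb3, hBbc 3 b3 3 c3 kb3 kc3, nb4, he, hθ]
      · rcases hL _ _ _ _ _ _ (hSa 0 1 1 1 1 0 o0 o1 o1 o1 o1 o0)
          (hSb 0 0 1 0 1 0 o0 o0 o1 o0 o1 o0) (hSc 0 1 1 0 1 0 o0 o1 o1 o0 o1 o0) with g3 | g3
        · rcases hXb _ _ (hSb 0 0 1 0 0 0 o0 o0 o1 o0 o0 o0) with g4 | g4 | g4 | g4 | g4
          · linarith only [era, erb, erc, eha, ehb, ehc, htot, hcb, pa, tb, wb, zb, vb, tc, wc, mc,
              g3, g4, hNa, na1, nam, nb4, nbm, nc4, ncw, ncv, he, hθ]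
          · linarith only [era, erb, erc, eha, ehb, ehc, htot, hcb, pa, tb, wb, zb, vb, tc, wc, mc,
              g3, g4, hNa, na1, nam, nb4, nbm, nc4, ncw, ncv, he, hθ]
          · linarith only [era, erb, erc, eha, ehb, ehc, htot, pa, zb, wc, g4, nb4, ncw, he, hθ]
          · rcases hXc _ _ (hSc 0 0 1 0 1 0 o0 o0 o1 o0 o1 o0) with g5 | g5 | g5 | g5 | g5
            · linarith only [era, erb, erc, eha, ehb, ehc, htot, hbc, pa, tb, zb, mb, wc, zc, vc,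
                g4, g5, hBbc 3 b3 2 c2 kb3 kc2, nb2, nb4, nbw, nbv, ncw, ncm, he, hθ]
            · linarith only [era, erb, erc, eha, ehb, ehc, htot, hbc, pa, tb, zb, mb, tc, wc, zc,
                vc, g4, g5, hBbc 3 b3 2 c2 kb3 kc2, nb2, nb4, nbw, nbv, ncw, ncm, he, hθ]
            · linarith only [era, erb, erc, eha, ehb, ehc, htot, pa, wb, zb, tc, g5, nb4, nbw, ncw,
                he, hθ]
            · linarith only [era, erb, erc, eha, ehb, ehc, htot, pa, zb, tc, wc, g4, g5,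
                hBcb 3 c3 3 b3 kc3 kb3, hBbc 3 b3 3 c3 kb3 kc3, nb4, he, hθ]
            · linarith only [era, erb, erc, eha, ehb, ehc, htot, pa, zb, tc, wc, g4, g5,
                hBcb 3 c3 3 b3 kc3 kb3, hBbc 3 b3 3 c3 kb3 kc3, nb4, he, hθ]
          · rcases hXc _ _ (hSc 0 0 1 0 1 0 o0 o0 o1 o0 o1 o0) with g5 | g5 | g5 | g5 | g5
            · linarith only [era, erb, erc, eha, ehb, ehc, htot, hbc, pa, tb, zb, mb, wc, zc, vc,
                g4, g5, hBbc 3 b3 2 c2 kb3 kc2, nb2, nb4, nbw, nbv, ncw, ncm, he, hθ]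
            · linarith only [era, erb, erc, eha, ehb, ehc, htot, hbc, pa, tb, zb, mb, tc, wc, zc,
                vc, g4, g5, hBbc 3 b3 2 c2 kb3 kc2, nb2, nb4, nbw, nbv, ncw, ncm, he, hθ]
            · linarith only [era, erb, erc, eha, ehb, ehc, htot, pa, wb, zb, tc, g5, nb4, nbw, ncw,
                he, hθ]
            · linarith only [era, erb, erc, eha, ehb, ehc, htot, pa, wb, zb, tc, wc, g4, g5,
                hBcb 3 c3 3 b3 kc3 kb3, nb4, nbw, he, hθ]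
            · linarith only [era, erb, erc, eha, ehb, ehc, htot, pa, wb, zb, tc, wc, g4, g5,
                hBcb 3 c3 3 b3 kc3 kb3, nb4, nbw, he, hθ]
        · rcases hXc _ _ (hSc 0 1 1 0 1 0 o0 o1 o1 o0 o1 o0) with g4 | g4 | g4 | g4 | g4
          · linarith only [era, erb, erc, eha, ehb, ehc, htot, hbc, pa, tb, zb, mb, tc, zc, vc, g0,
              g4, na1, nam, nb3, nb4, nbw, nbv, nc3, ncw, ncm, he, hθ]
          · linarith only [era, erb, erc, eha, ehb, ehc, htot, hbc, pa, tb, wb, zb, mb, tc, zc, vc,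
              g0, g4, na1, nam, nb3, nb4, nbw, nbv, nc3, ncw, ncm, he, hθ]
          · linarith only [era, erb, erc, eha, ehb, ehc, htot, pa, va, wb, zb, vb, tc, g3, g4, hNa,
              nam, nb4, nbw, nbm, nc3, nc4, ncw, he, hθ]
          · linarith only [era, erb, erc, eha, ehb, ehc, htot, pa, va, wb, zb, vb, tc, g3, g4, hNa,
              nam, nb4, nbw, nbm, nc3, nc4, ncw, he, hθ]
          · linarith only [era, erb, erc, eha, ehb, ehc, htot, pa, va, wb, zb, vb, tc, g3, g4, hNa,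
              nam, nb4, nbw, nbm, nc4, ncw, he, hθ]
  · linarith only [era, erb, erc, eha, ehb, ehc, htot, hbc, hlo, va, zb, vb, zc, vc, g0, nam, nb4,
      nbm, ncm, he, hθ]

theorem q0_0 {θ e a1 a2 a3 a4 a5 aw am av b1 b2 b3 b4 b5 bw bm bv c1 c2 c3 c4 c5 cw cm cv
    ra rb rc ha hb hc : ℝ} {KA KB KC SA SB SC : ℝ → ℝ → Prop}
    (H : Cfg θ e a1 a2 a3 a4 a5 aw am av b1 b2 b3 b4 b5 bw bm bv c1 c2 c3 c4 c5 cw cm cv
      ra rb rc ha hb hc KA KB KC SA SB SC)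
    (pa : rb + rc ≤ 7 / 9) (za : a4 = 0) (ta : 4 * a5 ≤ aw)
    (wa : aw ≤ 20 / 13 * (rb + rc - 7 / 12)) (ma : am = 0) (va : av = 0) (pb : ra + rc ≤ 7 / 9)
    (zb : b4 = 0) (tb : 4 * b5 ≤ bw) (wb : bw ≤ 20 / 13 * (ra + rc - 7 / 12)) (mb : bm = 0)
    (vb : bv = 0) (pc : ra + rb ≤ 7 / 9) (zc : c4 = 0) (tc : 4 * c5 ≤ cw)
    (wc : cw ≤ 20 / 13 * (ra + rb - 7 / 12)) (mc : cm = 0) (vc : cv = 0) : False := by
  obtain ⟨era, erb, erc, eha, ehb, ehc, na1, na2, na3, na4, na5, naw, nam, nav, nb1, nb2, nb3, nb4, nb5,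
    nbw, nbm, nbv, nc1, nc2, nc3, nc4, nc5, ncw, ncm, ncv, he, he1, hθ, htot, hbc, hcb, hab, hlo,
    hTab, hTac, hTbc, hNa, hNb, hNc, hBab, hBac, hBba, hBbc, hBca, hBcb, hXa, hXb, hXc, hL, hSa,
    hSb, hSc, ka1, ka2, ka3, kb1, kb2, kb3, kc1, kc2, kc3⟩ := id H
  rcases hL _ _ _ _ _ _ (hSa 0 1 1 0 1 0 o0 o1 o1 o0 o1 o0) (hSb 0 1 1 0 1 0 o0 o1 o1 o0 o1 o0)
    (hSc 0 1 1 0 1 0 o0 o1 o1 o0 o1 o0) with g0 | g0
  · rcases hL _ _ _ _ _ _ (hSa 0 0 0 0 1 0 o0 o0 o0 o0 o1 o0) (hSb 0 0 1 0 1 0 o0 o0 o1 o0 o1 o0)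
      (hSc 0 0 1 0 1 0 o0 o0 o1 o0 o1 o0) with g1 | g1
    · exact q0_0_1 H pa za ta wa ma va pb zb tb wb mb vb pc zc tc wc mc vc g0 g1
    · rcases hL _ _ _ _ _ _ (hSa 0 1 1 0 1 0 o0 o1 o1 o0 o1 o0) (hSb 0 0 1 0 1 0 o0 o0 o1 o0 o1 o0)
        (hSc 0 1 1 0 1 0 o0 o1 o1 o0 o1 o0) with g2 | g2
      · rcases hXb _ _ (hSb 0 0 1 0 1 0 o0 o0 o1 o0 o1 o0) with g3 | g3 | g3 | g3 | g3
        · linarith only [era, erb, erc, eha, ehb, ehc, htot, hcb, hab, ta, ma, tb, zb, vb, tc, mc,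
            g2, g3, hNc, hNa, na4, naw, nav, nb4, nbw, nbm, nc4, ncw, ncv, he, hθ]
        · linarith only [era, erb, erc, eha, ehb, ehc, htot, hcb, hab, ta, ma, tb, zb, vb, tc, mc,
            g2, g3, hNc, hNa, hNb, na4, naw, nav, nb1, nb4, nbw, nbm, nc4, ncw, ncv, he, hθ]
        · exact q0_0_2 H pa za ta wa ma va pb zb tb wb mb vb pc zc tc wc mc vc g0 g1 g2 g3
        · rcases hXc _ _ (hSc 0 0 1 0 0 0 o0 o0 o1 o0 o0 o0) with g4 | g4 | g4 | g4 | g4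
          · exact q0_0_3 H pa za ta wa ma va pb zb tb wb mb vb pc zc tc wc mc vc g0 g1 g2 g3 g4
          · exact q0_0_4 H pa za ta wa ma va pb zb tb wb mb vb pc zc tc wc mc vc g0 g1 g2 g3 g4
          · rcases hXa _ _ (hSa 0 0 1 0 0 0 o0 o0 o1 o0 o0 o0) with g5 | g5 | g5 | g5 | g5
            · linarith only [era, erb, erc, eha, ehb, ehc, htot, hbc, wa, za, va, tb, zb, mb, wc,
                zc, vc, g1, g3, g4, g5, hBab 2 a2 3 b3 ka2 kb3, naw, nam, nb2, nb4, nbw, nbv, nc1,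
                nc5, ncm, he, hθ]
            · linarith only [era, erb, erc, eha, ehb, ehc, htot, hbc, za, va, tb, zb, mb, wc, zc,
                vc, g1, g3, g4, g5, hBab 2 a2 3 b3 ka2 kb3, na3, nam, nb2, nb4, nbw, nbv, nc1, nc5,
                ncm, he, hθ]
            · linarith only [era, erb, erc, eha, ehb, ehc, htot, wb, zb, g4, g5, nb4, nbw, he, hθ]
            · linarith only [era, erb, erc, eha, ehb, ehc, htot, tb, wb, zb, g3, g4, g5,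
                hBab 3 a3 3 b3 ka3 kb3, hBba 3 b3 3 a3 kb3 ka3, nb4, he, hθ]
            · linarith only [era, erb, erc, eha, ehb, ehc, htot, hab, ta, ma, tb, wb, zb, vb, g3,
                g4, g5, hBba 3 b3 3 a3 kb3 ka3, na2, na4, naw, nav, nb1, nb4, nbm, he, hθ]
          · exact q0_0_5 H pa za ta wa ma va pb zb tb wb mb vb pc zc tc wc mc vc g0 g1 g2 g3 g4
          · exact q0_0_6 H pa za ta wa ma va pb zb tb wb mb vb pc zc tc wc mc vc g0 g1 g2 g3 g4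
        · rcases hXc _ _ (hSc 0 0 1 0 0 0 o0 o0 o1 o0 o0 o0) with g4 | g4 | g4 | g4 | g4
          · exact q0_0_7 H pa za ta wa ma va pb zb tb wb mb vb pc zc tc wc mc vc g0 g1 g2 g3 g4
          · exact q0_0_8 H pa za ta wa ma va pb zb tb wb mb vb pc zc tc wc mc vc g0 g1 g2 g3 g4
          · rcases hXa _ _ (hSa 0 0 1 0 1 0 o0 o0 o1 o0 o1 o0) with g5 | g5 | g5 | g5 | g5
            · linarith only [era, erb, erc, eha, ehb, ehc, htot, hbc, ta, wa, za, va, tb, zb, mb,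
                wc, zc, vc, g1, g3, g4, g5, hBab 2 a2 3 b3 ka2 kb3, naw, nam, nb2, nb4, nbw, nbv,
                nc1, nc5, ncm, he, hθ]
            · linarith only [era, erb, erc, eha, ehb, ehc, htot, hbc, ta, za, va, tb, zb, mb, wc,
                zc, vc, g1, g3, g4, g5, hBab 2 a2 3 b3 ka2 kb3, na3, naw, nam, nb2, nb4, nbw, nbv,
                nc1, nc5, ncm, he, hθ]
            · linarith only [era, erb, erc, eha, ehb, ehc, htot, ta, wb, zb, g4, g5, naw, nb4, nbw,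
                he, hθ]
            · linarith only [era, erb, erc, eha, ehb, ehc, htot, ta, wa, tb, wb, zb, g3, g4, g5,
                hBab 3 a3 3 b3 ka3 kb3, hBba 3 b3 3 a3 kb3 ka3, nb4, he, hθ]
            · linarith only [era, erb, erc, eha, ehb, ehc, htot, ta, wa, tb, wb, zb, g3, g4, g5,
                hBab 3 a3 3 b3 ka3 kb3, hBba 3 b3 3 a3 kb3 ka3, nb4, he, hθ]
          · exact q0_0_9 H pa za ta wa ma va pb zb tb wb mb vb pc zc tc wc mc vc g0 g1 g2 g3 g4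
          · exact q0_0_10 H pa za ta wa ma va pb zb tb wb mb vb pc zc tc wc mc vc g0 g1 g2 g3 g4
      · rcases hL _ _ _ _ _ _ (hSa 0 0 1 0 1 0 o0 o0 o1 o0 o1 o0)
          (hSb 0 1 1 0 1 0 o0 o1 o1 o0 o1 o0) (hSc 0 1 1 0 1 0 o0 o1 o1 o0 o1 o0) with g3 | g3
        · rcases hL _ _ _ _ _ _ (hSa 0 0 1 0 1 0 o0 o0 o1 o0 o1 o0)
            (hSb 0 1 1 0 1 0 o0 o1 o1 o0 o1 o0) (hSc 0 0 1 0 1 0 o0 o0 o1 o0 o1 o0) with g4 | g4
          · exact q0_0_11 H pa za ta wa ma va pb zb tb wb mb vb pc zc tc wc mc vc g0 g1 g2 g3 g4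
          · exact q0_0_12 H pa za ta wa ma va pb zb tb wb mb vb pc zc tc wc mc vc g0 g1 g2 g3 g4
        · rcases hXb _ _ (hSb 0 1 1 0 1 0 o0 o1 o1 o0 o1 o0) with g4 | g4 | g4 | g4 | g4
          · linarith only [era, erb, erc, eha, ehb, ehc, htot, hcb, hab, ta, ma, tb, zb, vb, tc,
              mc, g0, g4, na3, na4, na5, nav, nb3, nb4, nbw, nbm, nc3, nc4, ncw, ncv, he, hθ]
          · linarith only [era, erb, erc, eha, ehb, ehc, htot, hcb, hab, ta, ma, tb, zb, vb, tc,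
              mc, g0, g4, na3, na4, naw, nav, nb1, nb3, nb4, nbw, nbm, nc3, nc4, ncw, ncv, he, hθ]
          · exact q0_0_13 H pa za ta wa ma va pb zb tb wb mb vb pc zc tc wc mc vc g0 g1 g2 g3 g4
          · exact q0_0_14 H pa za ta wa ma va pb zb tb wb mb vb pc zc tc wc mc vc g0 g1 g2 g3 g4
          · exact q0_0_15 H pa za ta wa ma va pb zb tb wb mb vb pc zc tc wc mc vc g0 g1 g2 g3 g4
  · linarith only [era, erb, erc, eha, ehb, ehc, htot, hbc, hlo, za, va, zb, vb, zc, vc, g0, nam,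
      nb4, nbm, ncm, he, hθ]

theorem q0_2 {θ e a1 a2 a3 a4 a5 aw am av b1 b2 b3 b4 b5 bw bm bv c1 c2 c3 c4 c5 cw cm cv
    ra rb rc ha hb hc : ℝ} {KA KB KC SA SB SC : ℝ → ℝ → Prop}
    (H : Cfg θ e a1 a2 a3 a4 a5 aw am av b1 b2 b3 b4 b5 bw bm bv c1 c2 c3 c4 c5 cw cm cv
      ra rb rc ha hb hc KA KB KC SA SB SC)
    (pa : rb + rc ≤ 7 / 9) (za : a4 = 0) (ta : 4 * a5 ≤ aw)
    (wa : aw ≤ 20 / 13 * (rb + rc - 7 / 12)) (ma : am = 0) (va : av = 0) (pb : ra + rc ≤ 7 / 9)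
    (zb : b4 = 0) (tb : 4 * b5 ≤ bw) (wb : bw ≤ 20 / 13 * (ra + rc - 7 / 12)) (mb : 4 * bm ≤ bv)
    (vb : ra + rc ≤ bv) (ub : 7 / 12 - (ra + rc) / 2 ≤ bm) (kbm : KB 4 bm) (pc : ra + rb ≤ 7 / 9)
    (zc : c4 = 0) (tc : 4 * c5 ≤ cw) (wc : cw ≤ 20 / 13 * (ra + rb - 7 / 12)) (mc : cm = 0)
    (vc : cv = 0) : False := by
  obtain ⟨era, erb, erc, eha, ehb, ehc, na1, na2, na3, na4, na5, naw, nam, nav, nb1, nb2, nb3, nb4, nb5,
    nbw, nbm, nbv, nc1, nc2, nc3, nc4, nc5, ncw, ncm, ncv, he, he1, hθ, htot, hbc, hcb, hab, hlo,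
    hTab, hTac, hTbc, hNa, hNb, hNc, hBab, hBac, hBba, hBbc, hBca, hBcb, hXa, hXb, hXc, hL, hSa,
    hSb, hSc, ka1, ka2, ka3, kb1, kb2, kb3, kc1, kc2, kc3⟩ := id H
  rcases hL _ _ _ _ _ _ (hSa 0 0 0 0 1 0 o0 o0 o0 o0 o1 o0) (hSb 0 0 0 0 0 1 o0 o0 o0 o0 o0 o1)
    (hSc 0 0 1 0 1 0 o0 o0 o1 o0 o1 o0) with g0 | g0
  · linarith only [era, erb, erc, eha, ehb, ehc, htot, hbc, ta, wa, tb, mb, ub, tc, wc, zc, vc, g0,
      hBcb 3 c3 4 bm kc3 kbm, nb2, nb3, nb4, nb5, nc1, nc4, ncw, ncm, he, hθ]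
  · rcases hXc _ _ (hSc 0 0 1 0 0 0 o0 o0 o1 o0 o0 o0) with g1 | g1 | g1 | g1 | g1
    · linarith only [era, erb, erc, eha, ehb, ehc, htot, hbc, ta, wa, pb, tb, mb, ub, wc, zc, vc,
        g1, hBcb 2 c2 4 bm kc2 kbm, na5, nb2, nb3, nb4, nb5, nc4, nc5, ncm, he, hθ]
    · linarith only [era, erb, erc, eha, ehb, ehc, htot, hbc, wa, pb, tb, mb, ub, wc, zc, vc, g1,
        hBcb 2 c2 4 bm kc2 kbm, naw, nb2, nb3, nb4, nb5, nc4, nc5, ncm, he, hθ]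
    · linarith only [era, erb, erc, eha, ehb, ehc, htot, hbc, wa, tb, mb, ub, wc, zc, vc, g1, naw,
        nb2, nb3, nb4, nb5, nc1, nc2, nc4, nc5, ncm, he, hθ]
    · rcases hXa _ _ (hSa 0 0 1 0 1 0 o0 o0 o1 o0 o1 o0) with g2 | g2 | g2 | g2 | g2
      · linarith only [era, erb, erc, eha, ehb, ehc, htot, hbc, ta, wa, za, va, pb, mb, ub, zc, vc,
          g0, g1, g2, hBac 2 a2 3 c3 ka2 kc3, naw, nam, nc1, nc4, nc5, ncm, he, hθ]
      · linarith only [era, erb, erc, eha, ehb, ehc, htot, hbc, ta, za, va, pb, mb, ub, wc, zc, vc,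
          g0, g1, g2, hBac 2 a2 3 c3 ka2 kc3, na5, nam, nc1, nc4, nc5, ncw, ncm, he, hθ]
      · linarith only [era, erb, erc, eha, ehb, ehc, htot, hbc, ta, tb, mb, ub, wc, zc, vc, g1, g2,
          hBcb 3 c3 4 bm kc3 kbm, na5, nb2, nb3, nb4, nb5, nc1, nc4, nc5, ncm, he, hθ]
      · linarith only [era, erb, erc, eha, ehb, ehc, htot, ta, wa, ub, zc, g1, g2,
          hBcb 3 c3 4 bm kc3 kbm, hBab 3 a3 4 bm ka3 kbm, hBac 3 a3 3 c3 ka3 kc3, nc4, he, hθ]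
      · linarith only [era, erb, erc, eha, ehb, ehc, htot, ta, wa, ub, zc, g1, g2,
          hBcb 3 c3 4 bm kc3 kbm, hBab 3 a3 4 bm ka3 kbm, hBac 3 a3 3 c3 ka3 kc3, nc4, he, hθ]
    · rcases hXa _ _ (hSa 0 0 1 0 0 0 o0 o0 o1 o0 o0 o0) with g2 | g2 | g2 | g2 | g2
      · linarith only [era, erb, erc, eha, ehb, ehc, htot, hbc, za, va, pb, mb, ub, wc, zc, vc, g0,
          g1, g2, hBac 2 a2 3 c3 ka2 kc3, nam, nc1, nc4, nc5, ncw, ncm, he, hθ]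
      · linarith only [era, erb, erc, eha, ehb, ehc, htot, hbc, za, va, pb, mb, ub, wc, zc, vc, g0,
          g1, g2, hBac 2 a2 3 c3 ka2 kc3, nam, nc1, nc4, nc5, ncw, ncm, he, hθ]
      · linarith only [era, erb, erc, eha, ehb, ehc, htot, ub, wc, zc, g1, g2,
          hBcb 3 c3 4 bm kc3 kbm, nc4, ncw, he, hθ]
      · linarith only [era, erb, erc, eha, ehb, ehc, htot, ub, zc, g1, g2, hBcb 3 c3 4 bm kc3 kbm,
          hBab 3 a3 4 bm ka3 kbm, hBac 3 a3 3 c3 ka3 kc3, nc4, he, hθ]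
      · linarith only [era, erb, erc, eha, ehb, ehc, htot, ub, zc, g1, g2, hBcb 3 c3 4 bm kc3 kbm,
          hBab 3 a3 4 bm ka3 kbm, hBac 3 a3 3 c3 ka3 kc3, nc4, he, hθ]

end Pool.Agent.Lib.MP_d8bd92_nt.Fh.Opt
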