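import Pool.Agent.Lib.MP_d8bd92_nt.Fh.Opt.Defs
import Pool.Agent.Lib.MP_d8bd92_nt.Fh.Opt.R0
import Pool.Agent.Lib.MP_d8bd92_nt.Fh.Opt.R1
import Pool.Agent.Lib.MP_d8bd92_nt.Fh.Opt.R2
import Pool.Agent.Lib.MP_d8bd92_nt.Fh.Opt.R3
import Pool.Agent.Lib.MP_d8bd92_nt.Fh.Opt.R4
import Pool.Agent.Lib.MP_d8bd92_nt.Fh.Opt.R5
import Pool.Agent.Lib.MP_d8bd92_nt.Fh.Opt.R6
import Pool.Agent.Lib.MP_d8bd92_nt.Fh.Opt.R7

set_option autoImplicit false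

/-!
Optimisation: leaves of the tree (linear certificates).
-/

namespace Pool.Agent.Lib.MP_d8bd92_nt.Fh.Opt

open Pool.Agent.Lib.MP_d8bd92_nt.Fh

theorem q0_4 {θ e a1 a2 a3 a4 a5 aw am av b1 b2 b3 b4 b5 bw bm bv c1 c2 c3 c4 c5 cw cm cv
    ra rb rc ha hb hc : ℝ} {KA KB KC SA SB SC : ℝ → ℝ → Prop}
    (H : Cfg θ e a1 a2 a3 a4 a5 aw am av b1 b2 b3 b4 b5 bw bm bv c1 c2 c3 c4 c5 cw cm cv
      ra rb rc ha hb hc KA KB KC SA SB SC)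
    (pa : rb + rc ≤ 7 / 9) (za : a4 = 0) (ta : 4 * a5 ≤ aw)
    (wa : aw ≤ 20 / 13 * (rb + rc - 7 / 12)) (ma : am = 0) (va : av = 0) (pb : ra + rc ≤ 7 / 9)
    (zb : b4 = 0) (tb : 4 * b5 ≤ bw) (wb : bw ≤ 20 / 13 * (ra + rc - 7 / 12)) (mb : bm = 0)
    (vb : bv = 0) (pc : ra + rb ≤ 7 / 9) (zc : c4 = 0) (tc : 4 * c5 ≤ cw)
    (wc : cw ≤ 20 / 13 * (ra + rb - 7 / 12)) (mc : 4 * cm ≤ cv) (vc : ra + rb ≤ cv)
    (uc : 7 / 12 - (ra + rb) / 2 ≤ cm) (kcm : KC 4 cm) : False := by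
  obtain ⟨era, erb, erc, eha, ehb, ehc, na1, na2, na3, na4, na5, naw, nam, nav, nb1, nb2, nb3, nb4, nb5,
    nbw, nbm, nbv, nc1, nc2, nc3, nc4, nc5, ncw, ncm, ncv, he, he1, hθ, htot, hbc, hcb, hab, hlo,
    hTab, hTac, hTbc, hNa, hNb, hNc, hBab, hBac, hBba, hBbc, hBca, hBcb, hXa, hXb, hXc, hL, hSa,
    hSb, hSc, ka1, ka2, ka3, kb1, kb2, kb3, kc1, kc2, kc3⟩ := id H
  rcases hL _ _ _ _ _ _ (hSa 0 1 1 0 1 0 o0 o1 o1 o0 o1 o0) (hSb 0 0 1 0 1 0 o0 o0 o1 o0 o1 o0)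
    (hSc 0 0 1 0 1 1 o0 o0 o1 o0 o1 o1) with g0 | g0
  · rcases hL _ _ _ _ _ _ (hSa 0 0 0 0 1 0 o0 o0 o0 o0 o1 o0) (hSb 0 0 1 0 1 0 o0 o0 o1 o0 o1 o0)
      (hSc 0 0 0 0 0 1 o0 o0 o0 o0 o0 o1) with g1 | g1
    · linarith only [era, erb, erc, eha, ehb, ehc, htot, hcb, ta, wa, tb, wb, zb, vb, tc, mc, uc,
        g1, hBbc 3 b3 4 cm kb3 kcm, nb1, nb4, nbw, nbm, nc2, nc3, nc4, ncw, he, hθ]
    · rcases hXb _ _ (hSb 0 0 1 0 0 0 o0 o0 o1 o0 o0 o0) with g2 | g2 | g2 | g2 | g2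
      · linarith only [era, erb, erc, eha, ehb, ehc, htot, hcb, hab, ta, wa, ma, wb, zb, vb, tc,
          mc, uc, g0, g2, hNc, na4, naw, nav, nb1, nb4, nb5, nbm, nc2, nc3, nc4, ncw, he, hθ]
      · linarith only [era, erb, erc, eha, ehb, ehc, htot, hcb, hab, ta, wa, ma, wb, zb, vb, tc,
          mc, uc, g0, g2, hNc, na4, naw, nav, nb1, nb4, nb5, nbm, nc2, nc3, nc4, ncw, he, hθ]
      · linarith only [era, erb, erc, eha, ehb, ehc, htot, hcb, wa, wb, zb, vb, tc, mc, uc, g2,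
          naw, nb1, nb2, nb4, nb5, nbm, nc2, nc3, nc4, ncw, he, hθ]
      · rcases hXa _ _ (hSa 0 0 1 0 1 0 o0 o0 o1 o0 o1 o0) with g3 | g3 | g3 | g3 | g3
        · linarith only [era, erb, erc, eha, ehb, ehc, htot, ta, wa, za, va, zb, vb, mc, vc, uc,
            g1, g2, g3, hBab 2 a2 3 b3 ka2 kb3, naw, nam, nb1, nb4, nb5, nbm, he, hθ]
        · linarith only [era, erb, erc, eha, ehb, ehc, htot, ta, za, va, wb, zb, vb, mc, vc, uc,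
            g1, g2, g3, hBab 2 a2 3 b3 ka2 kb3, naw, nam, nb1, nb4, nb5, nbw, nbm, he, hθ]
        · linarith only [era, erb, erc, eha, ehb, ehc, htot, hcb, ta, wb, zb, vb, tc, mc, uc, g2,
            g3, hBbc 3 b3 4 cm kb3 kcm, naw, nb1, nb4, nb5, nbm, nc2, nc3, nc4, ncw, he, hθ]
        · linarith only [era, erb, erc, eha, ehb, ehc, htot, ta, wa, zb, uc, g2, g3,
            hBbc 3 b3 4 cm kb3 kcm, hBac 3 a3 4 cm ka3 kcm, hBab 3 a3 3 b3 ka3 kb3, nb4, he, hθ]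
        · linarith only [era, erb, erc, eha, ehb, ehc, htot, ta, wa, zb, uc, g2, g3,
            hBbc 3 b3 4 cm kb3 kcm, hBac 3 a3 4 cm ka3 kcm, hBab 3 a3 3 b3 ka3 kb3, nb4, he, hθ]
      · rcases hXa _ _ (hSa 0 0 1 0 1 0 o0 o0 o1 o0 o1 o0) with g3 | g3 | g3 | g3 | g3
        · linarith only [era, erb, erc, eha, ehb, ehc, htot, ta, za, va, wb, zb, vb, mc, vc, uc,
            g1, g2, g3, hBab 2 a2 3 b3 ka2 kb3, naw, nam, nb1, nb4, nb5, nbw, nbm, he, hθ]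
        · linarith only [era, erb, erc, eha, ehb, ehc, htot, ta, za, va, wb, zb, vb, mc, vc, uc,
            g1, g2, g3, hBab 2 a2 3 b3 ka2 kb3, naw, nam, nb1, nb4, nb5, nbw, nbm, he, hθ]
        · linarith only [era, erb, erc, eha, ehb, ehc, htot, ta, wb, zb, uc, g2, g3,
            hBbc 3 b3 4 cm kb3 kcm, naw, nb4, nbw, he, hθ]
        · linarith only [era, erb, erc, eha, ehb, ehc, htot, ta, wa, zb, uc, g2, g3,
            hBbc 3 b3 4 cm kb3 kcm, hBac 3 a3 4 cm ka3 kcm, hBab 3 a3 3 b3 ka3 kb3, nb4, he, hθ]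
        · linarith only [era, erb, erc, eha, ehb, ehc, htot, ta, wa, zb, uc, g2, g3,
            hBbc 3 b3 4 cm kb3 kcm, hBac 3 a3 4 cm ka3 kcm, hBab 3 a3 3 b3 ka3 kb3, nb4, he, hθ]
  · linarith only [era, erb, erc, eha, ehb, ehc, htot, za, va, zb, vb, pc, tc, vc, uc, g0,
      hBbc 2 b2 4 cm kb2 kcm, na4, nam, nbm, nc3, ncw, he, hθ]

theorem q2_2 {θ e a1 a2 a3 a4 a5 aw am av b1 b2 b3 b4 b5 bw bm bv c1 c2 c3 c4 c5 cw cm cv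
    ra rb rc ha hb hc : ℝ} {KA KB KC SA SB SC : ℝ → ℝ → Prop}
    (H : Cfg θ e a1 a2 a3 a4 a5 aw am av b1 b2 b3 b4 b5 bw bm bv c1 c2 c3 c4 c5 cw cm cv
      ra rb rc ha hb hc KA KB KC SA SB SC)
    (pa : rb + rc ≤ 7 / 9) (za : a4 = 0) (ta : 4 * a5 ≤ aw)
    (wa : aw ≤ 20 / 13 * (rb + rc - 7 / 12)) (ma : am = 0) (va : av = 0) (pb : 7 / 9 ≤ ra + rc)
    (kb4 : KB 4 b4) (tb : 5 * b5 ≤ bw) (wb : bw ≤ 65 / 36 * (ra + rc) - 245 / 216)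
    (mb : 5 * bm ≤ bv) (vb : ra + rc ≤ bv) (ub : 7 / 12 - (ra + rc) / 2 ≤ bm) (kbm : KB 5 bm)
    (pc : ra + rb ≤ 7 / 9) (zc : c4 = 0) (tc : 4 * c5 ≤ cw)
    (wc : cw ≤ 20 / 13 * (ra + rb - 7 / 12)) (mc : cm = 0) (vc : cv = 0) : False := by
  obtain ⟨era, erb, erc, eha, ehb, ehc, na1, na2, na3, na4, na5, naw, nam, nav, nb1, nb2, nb3, nb4, nb5,
    nbw, nbm, nbv, nc1, nc2, nc3, nc4, nc5, ncw, ncm, ncv, he, he1, hθ, htot, hbc, hcb, hab, hlo,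
    hTab, hTac, hTbc, hNa, hNb, hNc, hBab, hBac, hBba, hBbc, hBca, hBcb, hXa, hXb, hXc, hL, hSa,
    hSb, hSc, ka1, ka2, ka3, kb1, kb2, kb3, kc1, kc2, kc3⟩ := id H
  rcases hXc _ _ (hSc 0 0 1 0 0 0 o0 o0 o1 o0 o0 o0) with g0 | g0 | g0 | g0 | g0
  · linarith only [era, erb, erc, eha, ehb, ehc, htot, hbc, wa, mb, ub, wc, zc, vc, g0,
      hBcb 2 c2 5 bm kc2 kbm, naw, nb1, nb2, nb3, nb4, nb5, nbw, nc4, nc5, ncm, he, hθ]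
  · linarith only [era, erb, erc, eha, ehb, ehc, htot, hbc, wa, mb, ub, wc, zc, vc, g0,
      hBcb 2 c2 5 bm kc2 kbm, naw, nb1, nb2, nb3, nb4, nb5, nbw, nc4, nc5, ncm, he, hθ]
  · linarith only [era, erb, erc, eha, ehb, ehc, htot, wa, pb, zc, g0, naw, nc4, he, hθ]
  · linarith only [era, erb, erc, eha, ehb, ehc, htot, wa, pb, ub, zc, g0, hBcb 3 c3 5 bm kc3 kbm,
      naw, nc4, he, hθ]
  · rcases hXb _ _ (hSb 0 0 0 0 0 1 o0 o0 o0 o0 o0 o1) with g1 | g1 | g1 | g1 | g1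
    · linarith only [era, erb, erc, eha, ehb, ehc, htot, mb, ub, zc, g1, nb1, nb2, nb3, nb4, nb5,
        nc4, he, hθ]
    · linarith only [era, erb, erc, eha, ehb, ehc, htot, mb, ub, zc, g1, nb1, nb2, nb3, nb4, nb5,
        nc4, he, hθ]
    · linarith only [era, erb, erc, eha, ehb, ehc, htot, mb, ub, zc, g1, nb1, nb2, nb3, nb4, nb5,
        nc4, he, hθ]
    · linarith only [era, erb, erc, eha, ehb, ehc, htot, wa, mb, wc, zc, g1, naw, nb1, nb2, nb3,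
        nb4, nb5, nc4, ncw, he, hθ]
    · rcases hXa _ _ (hSa 0 0 1 0 1 0 o0 o0 o1 o0 o1 o0) with g2 | g2 | g2 | g2 | g2
      · rcases hL _ _ _ _ _ _ (hSa 0 0 0 0 0 0 o0 o0 o0 o0 o0 o0)
          (hSb 0 0 0 0 0 1 o0 o0 o0 o0 o0 o1) (hSc 0 0 1 0 1 0 o0 o0 o1 o0 o1 o0) with g3 | g3
        · linarith only [era, erb, erc, eha, ehb, ehc, htot, ta, wa, za, ma, pb, tc, wc, zc, g2,
            g3, hBac 1 a1 3 c3 ka1 kc3, hBcb 3 c3 5 bm kc3 kbm, hBac 2 a2 3 c3 ka2 kc3, naw, nc4,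
            he, hθ]
        · linarith only [era, erb, erc, eha, ehb, ehc, htot, hbc, za, va, mb, ub, wc, zc, vc, g0,
            g2, g3, hBac 2 a2 3 c3 ka2 kc3, nam, nb1, nb2, nb3, nb4, nb5, nc1, nc4, nc5, ncw, ncm,
            he, hθ]
      · linarith only [era, erb, erc, eha, ehb, ehc, htot, ta, ub, wc, zc, g0, g2,
          hBcb 3 c3 5 bm kc3 kbm, na3, na5, nc4, ncw, he, hθ]
      · linarith only [era, erb, erc, eha, ehb, ehc, htot, ta, pb, wc, zc, g2, na5, nc4, ncw, he,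
          hθ]
      · linarith only [era, erb, erc, eha, ehb, ehc, htot, ta, wa, pb, wc, zc, g0, g2,
          hBac 3 a3 3 c3 ka3 kc3, nc4, ncw, he, hθ]
      · linarith only [era, erb, erc, eha, ehb, ehc, htot, ta, wa, pb, wc, zc, g0, g2,
          hBac 3 a3 3 c3 ka3 kc3, nc4, ncw, he, hθ]

theorem q3_4 {θ e a1 a2 a3 a4 a5 aw am av b1 b2 b3 b4 b5 bw bm bv c1 c2 c3 c4 c5 cw cm cv
    ra rb rc ha hb hc : ℝ} {KA KB KC SA SB SC : ℝ → ℝ → Prop}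
    (H : Cfg θ e a1 a2 a3 a4 a5 aw am av b1 b2 b3 b4 b5 bw bm bv c1 c2 c3 c4 c5 cw cm cv
      ra rb rc ha hb hc KA KB KC SA SB SC)
    (pa : rb + rc ≤ 7 / 9) (za : a4 = 0) (ta : 4 * a5 ≤ aw)
    (wa : aw ≤ 20 / 13 * (rb + rc - 7 / 12)) (ma : am = 0) (va : av = 0) (pb : ra + rc ≤ 7 / 9)
    (zb : b4 = 0) (tb : 4 * b5 ≤ bw) (wb : bw ≤ 20 / 13 * (ra + rc - 7 / 12)) (mb : bm = 0)
    (vb : bv = 0) (pc : 7 / 9 ≤ ra + rb) (kc4 : KC 4 c4) (tc : 5 * c5 ≤ cw)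
    (wc : cw ≤ 65 / 36 * (ra + rb) - 245 / 216) (mc : 5 * cm ≤ cv) (vc : ra + rb ≤ cv)
    (uc : 7 / 12 - (ra + rb) / 2 ≤ cm) (kcm : KC 5 cm) : False := by
  obtain ⟨era, erb, erc, eha, ehb, ehc, na1, na2, na3, na4, na5, naw, nam, nav, nb1, nb2, nb3, nb4, nb5,
    nbw, nbm, nbv, nc1, nc2, nc3, nc4, nc5, ncw, ncm, ncv, he, he1, hθ, htot, hbc, hcb, hab, hlo,
    hTab, hTac, hTbc, hNa, hNb, hNc, hBab, hBac, hBba, hBbc, hBca, hBcb, hXa, hXb, hXc, hL, hSa,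
    hSb, hSc, ka1, ka2, ka3, kb1, kb2, kb3, kc1, kc2, kc3⟩ := id H
  rcases hXb _ _ (hSb 0 0 1 0 0 0 o0 o0 o1 o0 o0 o0) with g0 | g0 | g0 | g0 | g0
  · linarith only [era, erb, erc, eha, ehb, ehc, htot, hcb, wa, wb, zb, vb, mc, vc, uc, g0,
      hBbc 2 b2 5 cm kb2 kcm, naw, nb4, nb5, nbm, nc1, nc2, nc3, nc4, ncw, he, hθ]
  · linarith only [era, erb, erc, eha, ehb, ehc, htot, hcb, wa, wb, zb, vb, mc, vc, uc, g0,
      hBbc 2 b2 5 cm kb2 kcm, naw, nb4, nb5, nbm, nc1, nc2, nc3, nc4, ncw, he, hθ]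
  · linarith only [era, erb, erc, eha, ehb, ehc, htot, wa, zb, pc, g0, naw, nb4, he, hθ]
  · linarith only [era, erb, erc, eha, ehb, ehc, htot, wa, zb, pc, uc, g0, hBbc 3 b3 5 cm kb3 kcm,
      naw, nb4, he, hθ]
  · rcases hXa _ _ (hSa 0 0 1 0 1 0 o0 o0 o1 o0 o1 o0) with g1 | g1 | g1 | g1 | g1
    · rcases hL _ _ _ _ _ _ (hSa 0 0 0 0 0 0 o0 o0 o0 o0 o0 o0) (hSb 0 0 1 0 1 0 o0 o0 o1 o0 o1 o0)
        (hSc 0 0 0 0 0 1 o0 o0 o0 o0 o0 o1) with g2 | g2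
      · linarith only [era, erb, erc, eha, ehb, ehc, htot, ta, wa, za, ma, tb, wb, zb, pc, g1, g2,
          hBab 1 a1 3 b3 ka1 kb3, hBbc 3 b3 5 cm kb3 kcm, hBab 2 a2 3 b3 ka2 kb3, na5, nb4, he, hθ]
      · linarith only [era, erb, erc, eha, ehb, ehc, htot, za, va, wb, zb, vb, mc, vc, uc, g0, g1,
          g2, hBab 2 a2 3 b3 ka2 kb3, nam, nb1, nb4, nb5, nbw, nbm, he, hθ]
    · linarith only [era, erb, erc, eha, ehb, ehc, htot, ta, wb, zb, uc, g0, g1,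
        hBbc 3 b3 5 cm kb3 kcm, na3, na5, nb4, nbw, he, hθ]
    · linarith only [era, erb, erc, eha, ehb, ehc, htot, ta, wb, zb, pc, g1, na5, nb4, nbw, he, hθ]
    · linarith only [era, erb, erc, eha, ehb, ehc, htot, ta, wa, wb, zb, pc, g0, g1,
        hBab 3 a3 3 b3 ka3 kb3, nb4, nbw, he, hθ]
    · linarith only [era, erb, erc, eha, ehb, ehc, htot, ta, wa, wb, zb, pc, g0, g1,
        hBab 3 a3 3 b3 ka3 kb3, nb4, nbw, he, hθ]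

theorem q1_1 {θ e a1 a2 a3 a4 a5 aw am av b1 b2 b3 b4 b5 bw bm bv c1 c2 c3 c4 c5 cw cm cv
    ra rb rc ha hb hc : ℝ} {KA KB KC SA SB SC : ℝ → ℝ → Prop}
    (H : Cfg θ e a1 a2 a3 a4 a5 aw am av b1 b2 b3 b4 b5 bw bm bv c1 c2 c3 c4 c5 cw cm cv
      ra rb rc ha hb hc KA KB KC SA SB SC)
    (pa : 7 / 9 ≤ rb + rc) (ka4 : KA 4 a4) (ta : 5 * a5 ≤ aw)
    (wa : aw ≤ 65 / 36 * (rb + rc) - 245 / 216) (ma : 5 * am ≤ av) (va : rb + rc ≤ av)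
    (ua : 7 / 12 - (rb + rc) / 2 ≤ am) (kam : KA 5 am) (pb : ra + rc ≤ 7 / 9) (zb : b4 = 0)
    (tb : 4 * b5 ≤ bw) (wb : bw ≤ 20 / 13 * (ra + rc - 7 / 12)) (mb : bm = 0) (vb : bv = 0)
    (pc : ra + rb ≤ 7 / 9) (zc : c4 = 0) (tc : 4 * c5 ≤ cw)
    (wc : cw ≤ 20 / 13 * (ra + rb - 7 / 12)) (mc : cm = 0) (vc : cv = 0) : False := by
  obtain ⟨era, erb, erc, eha, ehb, ehc, na1, na2, na3, na4, na5, naw, nam, nav, nb1, nb2, nb3, nb4, nb5,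
    nbw, nbm, nbv, nc1, nc2, nc3, nc4, nc5, ncw, ncm, ncv, he, he1, hθ, htot, hbc, hcb, hab, hlo,
    hTab, hTac, hTbc, hNa, hNb, hNc, hBab, hBac, hBba, hBbc, hBca, hBcb, hXa, hXb, hXc, hL, hSa,
    hSb, hSc, ka1, ka2, ka3, kb1, kb2, kb3, kc1, kc2, kc3⟩ := id H
  rcases hXb _ _ (hSb 0 0 1 0 0 0 o0 o0 o1 o0 o0 o0) with g0 | g0 | g0 | g0 | g0
  · linarith only [era, erb, erc, eha, ehb, ehc, htot, hab, ma, ua, wb, zb, vb, wc, g0,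
      hBba 2 b2 5 am kb2 kam, na1, na2, na3, na4, na5, naw, nb4, nb5, nbm, ncw, he, hθ]
  · linarith only [era, erb, erc, eha, ehb, ehc, htot, hab, ta, ma, ua, wb, zb, vb, wc, g0,
      hBba 2 b2 5 am kb2 kam, na1, na2, na3, na4, na5, nb4, nb5, nbm, ncw, he, hθ]
  · linarith only [era, erb, erc, eha, ehb, ehc, htot, pa, zb, wc, g0, nb4, ncw, he, hθ]
  · linarith only [era, erb, erc, eha, ehb, ehc, htot, pa, ua, zb, wc, g0, hBba 3 b3 5 am kb3 kam,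
      nb4, ncw, he, hθ]
  · rcases hXc _ _ (hSc 0 0 1 0 1 0 o0 o0 o1 o0 o1 o0) with g1 | g1 | g1 | g1 | g1
    · linarith only [era, erb, erc, eha, ehb, ehc, htot, hbc, hab, ta, ma, ua, tb, zb, mb, wc, zc,
        vc, g0, g1, hBbc 3 b3 2 c2 kb3 kc2, na2, na3, na4, naw, nb2, nb4, nbw, nbv, ncw, ncm, he,
        hθ]
    · linarith only [era, erb, erc, eha, ehb, ehc, htot, hbc, hab, ta, ma, ua, tb, zb, mb, tc, wc,
        zc, vc, g0, g1, hBbc 3 b3 2 c2 kb3 kc2, na2, na3, na4, naw, nb2, nb4, nbw, nbv, ncw, ncm,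
        he, hθ]
    · linarith only [era, erb, erc, eha, ehb, ehc, htot, pa, wb, zb, tc, g1, nb4, nbw, ncw, he, hθ]
    · linarith only [era, erb, erc, eha, ehb, ehc, htot, pa, wb, zb, tc, wc, g0, g1,
        hBcb 3 c3 3 b3 kc3 kb3, nb4, nbw, he, hθ]
    · linarith only [era, erb, erc, eha, ehb, ehc, htot, hbc, hab, pa, ta, ma, ua, zb, tc, wc, zc,
        vc, g0, g1, hBcb 3 c3 3 b3 kc3 kb3, na2, na3, na4, naw, nb4, nc1, ncm, he, hθ]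

theorem q2_6 {θ e a1 a2 a3 a4 a5 aw am av b1 b2 b3 b4 b5 bw bm bv c1 c2 c3 c4 c5 cw cm cv
    ra rb rc ha hb hc : ℝ} {KA KB KC SA SB SC : ℝ → ℝ → Prop}
    (H : Cfg θ e a1 a2 a3 a4 a5 aw am av b1 b2 b3 b4 b5 bw bm bv c1 c2 c3 c4 c5 cw cm cv
      ra rb rc ha hb hc KA KB KC SA SB SC)
    (pa : rb + rc ≤ 7 / 9) (za : a4 = 0) (ta : 4 * a5 ≤ aw)
    (wa : aw ≤ 20 / 13 * (rb + rc - 7 / 12)) (ma : am = 0) (va : av = 0) (pb : 7 / 9 ≤ ra + rc)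
    (kb4 : KB 4 b4) (tb : 5 * b5 ≤ bw) (wb : bw ≤ 65 / 36 * (ra + rc) - 245 / 216)
    (mb : 5 * bm ≤ bv) (vb : ra + rc ≤ bv) (ub : 7 / 12 - (ra + rc) / 2 ≤ bm) (kbm : KB 5 bm)
    (pc : ra + rb ≤ 7 / 9) (zc : c4 = 0) (tc : 4 * c5 ≤ cw)
    (wc : cw ≤ 20 / 13 * (ra + rb - 7 / 12)) (mc : 4 * cm ≤ cv) (vc : ra + rb ≤ cv)
    (uc : 7 / 12 - (ra + rb) / 2 ≤ cm) (kcm : KC 4 cm) : False := by
  obtain ⟨era, erb, erc, eha, ehb, ehc, na1, na2, na3, na4, na5, naw, nam, nav, nb1, nb2, nb3, nb4, nb5,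
    nbw, nbm, nbv, nc1, nc2, nc3, nc4, nc5, ncw, ncm, ncv, he, he1, hθ, htot, hbc, hcb, hab, hlo,
    hTab, hTac, hTbc, hNa, hNb, hNc, hBab, hBac, hBba, hBbc, hBca, hBcb, hXa, hXb, hXc, hL, hSa,
    hSb, hSc, ka1, ka2, ka3, kb1, kb2, kb3, kc1, kc2, kc3⟩ := id H
  rcases hL _ _ _ _ _ _ (hSa 0 0 0 0 0 0 o0 o0 o0 o0 o0 o0) (hSb 0 0 0 0 1 1 o0 o0 o0 o0 o1 o1)
    (hSc 0 0 0 0 0 1 o0 o0 o0 o0 o0 o1) with g0 | g0
  · linarith only [era, erb, erc, eha, ehb, ehc, htot, pb, ub, g0, hBbc 5 bm 4 cm kbm kcm, nb1,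
      nb2, nb3, nb4, he, hθ]
  · linarith only [era, erb, erc, eha, ehb, ehc, htot, wa, za, va, pb, ub, mc, uc, g0,
      hBac 3 a3 4 cm ka3 kcm, na1, na4, na5, naw, nam, nb1, nb2, nb3, nb5, he, hθ]

end Pool.Agent.Lib.MP_d8bd92_nt.Fh.Opt
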