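import Pool.Agent.Lib.MP_d8bd92_nt.Fh.Opt.Defs
import Pool.Agent.Lib.MP_d8bd92_nt.Fh.Opt.R0
import Pool.Agent.Lib.MP_d8bd92_nt.Fh.Opt.R1
import Pool.Agent.Lib.MP_d8bd92_nt.Fh.Opt.R2
import Pool.Agent.Lib.MP_d8bd92_nt.Fh.Opt.R3
import Pool.Agent.Lib.MP_d8bd92_nt.Fh.Opt.R4
import Pool.Agent.Lib.MP_d8bd92_nt.Fh.Opt.R5
import Pool.Agent.Lib.MP_d8bd92_nt.Fh.Opt.R6
import Pool.Agent.Lib.MP_d8bd92_nt.Fh.Opt.R7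

set_option autoImplicit false

/-!
Optimisation: leaves of the tree (linear certificates).
-/

namespace Pool.Agent.Lib.MP_d8bd92_nt.Fh.Opt

open Pool.Agent.Lib.MP_d8bd92_nt.Fh

theorem q3_0 {θ e a1 a2 a3 a4 a5 aw am av b1 b2 b3 b4 b5 bw bm bv c1 c2 c3 c4 c5 cw cm cv
    ra rb rc ha hb hc : ℝ} {KA KB KC SA SB SC : ℝ → ℝ → Prop}
    (H : Cfg θ e a1 a2 a3 a4 a5 aw am av b1 b2 b3 b4 b5 bw bm bv c1 c2 c3 c4 c5 cw cm cv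
      ra rb rc ha hb hc KA KB KC SA SB SC)
    (pa : rb + rc ≤ 7 / 9) (za : a4 = 0) (ta : 4 * a5 ≤ aw)
    (wa : aw ≤ 20 / 13 * (rb + rc - 7 / 12)) (ma : am = 0) (va : av = 0) (pb : ra + rc ≤ 7 / 9)
    (zb : b4 = 0) (tb : 4 * b5 ≤ bw) (wb : bw ≤ 20 / 13 * (ra + rc - 7 / 12)) (mb : bm = 0)
    (vb : bv = 0) (pc : 7 / 9 ≤ ra + rb) (kc4 : KC 4 c4) (tc : 5 * c5 ≤ cw)
    (wc : cw ≤ 65 / 36 * (ra + rb) - 245 / 216) (mc : cm = 0) (vc : cv = 0) : False := by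
  obtain ⟨era, erb, erc, eha, ehb, ehc, na1, na2, na3, na4, na5, naw, nam, nav, nb1, nb2, nb3, nb4, nb5,
    nbw, nbm, nbv, nc1, nc2, nc3, nc4, nc5, ncw, ncm, ncv, he, he1, hθ, htot, hbc, hcb, hab, hlo,
    hTab, hTac, hTbc, hNa, hNb, hNc, hBab, hBac, hBba, hBbc, hBca, hBcb, hXa, hXb, hXc, hL, hSa,
    hSb, hSc, ka1, ka2, ka3, kb1, kb2, kb3, kc1, kc2, kc3⟩ := id H
  rcases hL _ _ _ _ _ _ (hSa 0 0 0 0 1 0 o0 o0 o0 o0 o1 o0) (hSb 0 0 1 0 1 0 o0 o0 o1 o0 o1 o0)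
    (hSc 0 0 0 1 1 0 o0 o0 o0 o1 o1 o0) with g0 | g0
  · linarith only [era, erb, erc, eha, ehb, ehc, htot, hbc, ta, wa, za, tb, wb, mb, pc, wc, vc, g0,
      hBcb 4 c4 3 b3 kc4 kb3, na4, nb2, nb4, nbw, nbv, nc1, nc2, nc3, ncm, he, hθ]
  · rcases hL _ _ _ _ _ _ (hSa 0 1 1 0 1 0 o0 o1 o1 o0 o1 o0) (hSb 0 1 1 0 1 0 o0 o1 o1 o0 o1 o0)
      (hSc 0 1 1 1 1 0 o0 o1 o1 o1 o1 o0) with g1 | g1
    · rcases hL _ _ _ _ _ _ (hSa 0 0 1 0 1 0 o0 o0 o1 o0 o1 o0) (hSb 0 0 1 0 1 0 o0 o0 o1 o0 o1 o0)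
        (hSc 0 0 0 0 1 0 o0 o0 o0 o0 o1 o0) with g2 | g2
      · linarith only [era, erb, erc, eha, ehb, ehc, htot, ta, wa, za, tb, wb, pc, tc, wc, g2,
          hBab 3 a3 3 b3 ka3 kb3, hBba 3 b3 3 a3 kb3 ka3, na4, he, hθ]
      · rcases hL _ _ _ _ _ _ (hSa 0 0 0 0 1 0 o0 o0 o0 o0 o1 o0)
          (hSb 0 0 1 0 1 0 o0 o0 o1 o0 o1 o0) (hSc 0 0 1 1 1 0 o0 o0 o1 o1 o1 o0) with g3 | g3
        · linarith only [era, erb, erc, eha, ehb, ehc, htot, hbc, ta, wa, za, va, tb, wb, mb, pc,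
            wc, vc, g0, g3, hBab 3 a3 3 b3 ka3 kb3, hBab 2 a2 3 b3 ka2 kb3, na4, nam, nb2, nb4,
            nbw, nbv, nc1, nc2, nc5, ncm, he, hθ]
        · rcases hL _ _ _ _ _ _ (hSa 0 0 0 0 1 0 o0 o0 o0 o0 o1 o0)
            (hSb 0 0 1 0 1 0 o0 o0 o1 o0 o1 o0) (hSc 0 1 1 1 1 0 o0 o1 o1 o1 o1 o0) with g4 | g4
          · linarith only [era, erb, erc, eha, ehb, ehc, htot, hbc, ta, wa, za, va, tb, wb, mb, pc,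
              wc, vc, g0, g3, g4, hBab 3 a3 3 b3 ka3 kb3, hBab 2 a2 3 b3 ka2 kb3, na1, na4, nam,
              nb2, nb4, nbv, nc1, nc5, ncm, he, hθ]
          · rcases hXa _ _ (hSa 0 0 0 0 1 0 o0 o0 o0 o0 o1 o0) with g5 | g5 | g5 | g5 | g5
            · exact q3_0_1 H pa za ta wa ma va pb zb tb wb mb vb pc kc4 tc wc mc vc g0 g1 g2 g3 g4
                g5
            · exact q3_0_2 H pa za ta wa ma va pb zb tb wb mb vb pc kc4 tc wc mc vc g0 g1 g2 g3 g4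
                g5
            · linarith only [era, erb, erc, eha, ehb, ehc, htot, ta, za, wb, pc, g5, na4, naw, nbw,
                he, hθ]
            · linarith only [era, erb, erc, eha, ehb, ehc, htot, ta, wa, za, wb, pc, g5, na4, nbw,
                he, hθ]
            · linarith only [era, erb, erc, eha, ehb, ehc, htot, ta, wa, za, wb, pc, g5, na4, nbw,
                he, hθ]
    · linarith only [era, erb, erc, eha, ehb, ehc, htot, hbc, hlo, za, va, zb, vb, vc, g1, na4,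
        nam, nbm, ncm, he, hθ]

theorem q0_6 {θ e a1 a2 a3 a4 a5 aw am av b1 b2 b3 b4 b5 bw bm bv c1 c2 c3 c4 c5 cw cm cv
    ra rb rc ha hb hc : ℝ} {KA KB KC SA SB SC : ℝ → ℝ → Prop}
    (H : Cfg θ e a1 a2 a3 a4 a5 aw am av b1 b2 b3 b4 b5 bw bm bv c1 c2 c3 c4 c5 cw cm cv
      ra rb rc ha hb hc KA KB KC SA SB SC)
    (pa : rb + rc ≤ 7 / 9) (za : a4 = 0) (ta : 4 * a5 ≤ aw)
    (wa : aw ≤ 20 / 13 * (rb + rc - 7 / 12)) (ma : am = 0) (va : av = 0) (pb : ra + rc ≤ 7 / 9)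
    (zb : b4 = 0) (tb : 4 * b5 ≤ bw) (wb : bw ≤ 20 / 13 * (ra + rc - 7 / 12)) (mb : 4 * bm ≤ bv)
    (vb : ra + rc ≤ bv) (ub : 7 / 12 - (ra + rc) / 2 ≤ bm) (kbm : KB 4 bm) (pc : ra + rb ≤ 7 / 9)
    (zc : c4 = 0) (tc : 4 * c5 ≤ cw) (wc : cw ≤ 20 / 13 * (ra + rb - 7 / 12)) (mc : 4 * cm ≤ cv)
    (vc : ra + rb ≤ cv) (uc : 7 / 12 - (ra + rb) / 2 ≤ cm) (kcm : KC 4 cm) : False := by
  obtain ⟨era, erb, erc, eha, ehb, ehc, na1, na2, na3, na4, na5, naw, nam, nav, nb1, nb2, nb3, nb4, nb5,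
    nbw, nbm, nbv, nc1, nc2, nc3, nc4, nc5, ncw, ncm, ncv, he, he1, hθ, htot, hbc, hcb, hab, hlo,
    hTab, hTac, hTbc, hNa, hNb, hNc, hBab, hBac, hBba, hBbc, hBca, hBcb, hXa, hXb, hXc, hL, hSa,
    hSb, hSc, ka1, ka2, ka3, kb1, kb2, kb3, kc1, kc2, kc3⟩ := id H
  rcases hL _ _ _ _ _ _ (hSa 0 0 0 0 1 0 o0 o0 o0 o0 o1 o0) (hSb 0 0 0 0 0 1 o0 o0 o0 o0 o0 o1)
    (hSc 0 0 0 0 0 1 o0 o0 o0 o0 o0 o1) with g0 | g0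
  · linarith only [era, erb, erc, eha, ehb, ehc, htot, ta, wa, zb, ub, uc, g0,
      hBbc 4 bm 4 cm kbm kcm, hBcb 4 cm 4 bm kcm kbm, nb4, he, hθ]
  · rcases hXa _ _ (hSa 0 0 1 0 1 0 o0 o0 o1 o0 o1 o0) with g1 | g1 | g1 | g1 | g1
    · rcases hL _ _ _ _ _ _ (hSa 0 0 0 0 0 0 o0 o0 o0 o0 o0 o0) (hSb 0 0 0 0 0 1 o0 o0 o0 o0 o0 o1)
        (hSc 0 0 0 0 1 1 o0 o0 o0 o0 o1 o1) with g2 | g2
      · linarith only [era, erb, erc, eha, ehb, ehc, htot, hbc, ta, za, va, wb, zb, mb, tc, wc, zc,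
          mc, uc, g0, g1, g2, hBac 2 a2 4 cm ka2 kcm, na1, naw, nam, nb1, nb2, nb4, nb5, nc1, nc2,
          he, hθ]
      · linarith only [era, erb, erc, eha, ehb, ehc, htot, hbc, wa, za, va, wb, zb, mb, ub, zc, mc,
          uc, g1, g2, hBac 2 a2 4 cm ka2 kcm, na4, naw, nam, nb1, nb2, nb5, nc1, nc2, nc5, ncw, he,
          hθ]
    · linarith only [era, erb, erc, eha, ehb, ehc, htot, hbc, ta, za, va, wb, zb, mb, ub, wc, zc,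
        mc, uc, g0, g1, hBab 2 a2 4 bm ka2 kbm, na3, naw, nam, nb1, nb2, nb4, nb5, nc1, nc2, nc5,
        he, hθ]
    · linarith only [era, erb, erc, eha, ehb, ehc, htot, ta, zb, ub, uc, g1,
        hBbc 4 bm 4 cm kbm kcm, hBcb 4 cm 4 bm kcm kbm, naw, nb4, he, hθ]
    · linarith only [era, erb, erc, eha, ehb, ehc, htot, ta, wa, zb, ub, uc, g1,
        hBbc 4 bm 4 cm kbm kcm, hBab 3 a3 4 bm ka3 kbm, hBac 3 a3 4 cm ka3 kcm, nb4, he, hθ]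
    · linarith only [era, erb, erc, eha, ehb, ehc, htot, ta, wa, zb, ub, uc, g1,
        hBbc 4 bm 4 cm kbm kcm, hBab 3 a3 4 bm ka3 kbm, hBac 3 a3 4 cm ka3 kcm, nb4, he, hθ]

theorem q0_3 {θ e a1 a2 a3 a4 a5 aw am av b1 b2 b3 b4 b5 bw bm bv c1 c2 c3 c4 c5 cw cm cv
    ra rb rc ha hb hc : ℝ} {KA KB KC SA SB SC : ℝ → ℝ → Prop}
    (H : Cfg θ e a1 a2 a3 a4 a5 aw am av b1 b2 b3 b4 b5 bw bm bv c1 c2 c3 c4 c5 cw cm cv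
      ra rb rc ha hb hc KA KB KC SA SB SC)
    (pa : rb + rc ≤ 7 / 9) (za : a4 = 0) (ta : 4 * a5 ≤ aw)
    (wa : aw ≤ 20 / 13 * (rb + rc - 7 / 12)) (ma : 4 * am ≤ av) (va : rb + rc ≤ av)
    (ua : 7 / 12 - (rb + rc) / 2 ≤ am) (kam : KA 4 am) (pb : ra + rc ≤ 7 / 9) (zb : b4 = 0)
    (tb : 4 * b5 ≤ bw) (wb : bw ≤ 20 / 13 * (ra + rc - 7 / 12)) (mb : 4 * bm ≤ bv)
    (vb : ra + rc ≤ bv) (ub : 7 / 12 - (ra + rc) / 2 ≤ bm) (kbm : KB 4 bm) (pc : ra + rb ≤ 7 / 9)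
    (zc : c4 = 0) (tc : 4 * c5 ≤ cw) (wc : cw ≤ 20 / 13 * (ra + rb - 7 / 12)) (mc : cm = 0)
    (vc : cv = 0) : False := by
  obtain ⟨era, erb, erc, eha, ehb, ehc, na1, na2, na3, na4, na5, naw, nam, nav, nb1, nb2, nb3, nb4, nb5,
    nbw, nbm, nbv, nc1, nc2, nc3, nc4, nc5, ncw, ncm, ncv, he, he1, hθ, htot, hbc, hcb, hab, hlo,
    hTab, hTac, hTbc, hNa, hNb, hNc, hBab, hBac, hBba, hBbc, hBca, hBcb, hXa, hXb, hXc, hL, hSa,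
    hSb, hSc, ka1, ka2, ka3, kb1, kb2, kb3, kc1, kc2, kc3⟩ := id H
  rcases hXc _ _ (hSc 1 1 0 0 1 0 o1 o1 o0 o0 o1 o0) with g0 | g0 | g0 | g0 | g0
  · linarith only [era, erb, erc, eha, ehb, ehc, htot, hbc, hab, ta, za, ma, ua, tb, mb, ub, wc,
      zc, vc, g0, hBcb 3 c3 4 bm kc3 kbm, na2, na3, na4, na5, nb2, nb3, nb4, nbw, ncw, ncm, he, hθ]
  · linarith only [era, erb, erc, eha, ehb, ehc, htot, hbc, hab, ta, za, ma, ua, tb, mb, ub, wc,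
      zc, vc, g0, hBcb 3 c3 4 bm kc3 kbm, na2, na3, na4, na5, nb2, nb3, nb4, nbw, ncw, ncm, he, hθ]
  · linarith only [era, erb, erc, eha, ehb, ehc, htot, hbc, hab, ta, za, ma, ua, tb, mb, ub, wc,
      zc, vc, g0, na2, na3, na4, na5, nb2, nb3, nb4, nbw, ncw, ncm, he, hθ]
  · linarith only [era, erb, erc, eha, ehb, ehc, htot, hbc, hab, ta, za, ma, ua, tb, mb, ub, wc,
      zc, vc, g0, na2, na3, na4, na5, nb2, nb3, nb4, nbw, nc1, nc5, ncw, ncm, he, hθ]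
  · linarith only [era, erb, erc, eha, ehb, ehc, htot, hbc, hab, ta, za, ma, ua, tb, mb, ub, wc,
      zc, vc, g0, na2, na3, na4, na5, nb2, nb3, nb4, nbw, nc1, nc5, ncw, ncm, he, hθ]

theorem q0_5 {θ e a1 a2 a3 a4 a5 aw am av b1 b2 b3 b4 b5 bw bm bv c1 c2 c3 c4 c5 cw cm cv
    ra rb rc ha hb hc : ℝ} {KA KB KC SA SB SC : ℝ → ℝ → Prop}
    (H : Cfg θ e a1 a2 a3 a4 a5 aw am av b1 b2 b3 b4 b5 bw bm bv c1 c2 c3 c4 c5 cw cm cv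
      ra rb rc ha hb hc KA KB KC SA SB SC)
    (pa : rb + rc ≤ 7 / 9) (za : a4 = 0) (ta : 4 * a5 ≤ aw)
    (wa : aw ≤ 20 / 13 * (rb + rc - 7 / 12)) (ma : 4 * am ≤ av) (va : rb + rc ≤ av)
    (ua : 7 / 12 - (rb + rc) / 2 ≤ am) (kam : KA 4 am) (pb : ra + rc ≤ 7 / 9) (zb : b4 = 0)
    (tb : 4 * b5 ≤ bw) (wb : bw ≤ 20 / 13 * (ra + rc - 7 / 12)) (mb : bm = 0) (vb : bv = 0)
    (pc : ra + rb ≤ 7 / 9) (zc : c4 = 0) (tc : 4 * c5 ≤ cw)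
    (wc : cw ≤ 20 / 13 * (ra + rb - 7 / 12)) (mc : 4 * cm ≤ cv) (vc : ra + rb ≤ cv)
    (uc : 7 / 12 - (ra + rb) / 2 ≤ cm) (kcm : KC 4 cm) : False := by
  obtain ⟨era, erb, erc, eha, ehb, ehc, na1, na2, na3, na4, na5, naw, nam, nav, nb1, nb2, nb3, nb4, nb5,
    nbw, nbm, nbv, nc1, nc2, nc3, nc4, nc5, ncw, ncm, ncv, he, he1, hθ, htot, hbc, hcb, hab, hlo,
    hTab, hTac, hTbc, hNa, hNb, hNc, hBab, hBac, hBba, hBbc, hBca, hBcb, hXa, hXb, hXc, hL, hSa,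
    hSb, hSc, ka1, ka2, ka3, kb1, kb2, kb3, kc1, kc2, kc3⟩ := id H
  rcases hXb _ _ (hSb 0 1 0 0 1 0 o0 o1 o0 o0 o1 o0) with g0 | g0 | g0 | g0 | g0
  · linarith only [era, erb, erc, eha, ehb, ehc, htot, hcb, hab, ta, ma, ua, wb, zb, vb, tc, mc,
      uc, g0, hBbc 3 b3 4 cm kb3 kcm, na2, na3, na4, naw, nb4, nbw, nbm, nc2, nc3, nc4, nc5, he, hθ]
  · linarith only [era, erb, erc, eha, ehb, ehc, htot, hcb, hab, ta, ma, ua, tb, zb, vb, tc, mc,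
      uc, g0, hBbc 3 b3 4 cm kb3 kcm, na2, na3, na4, naw, nb2, nb4, nbw, nbm, nc2, nc3, nc4, nc5,
      he, hθ]
  · linarith only [era, erb, erc, eha, ehb, ehc, htot, hcb, hab, ta, ma, ua, wb, zb, vb, tc, mc,
      uc, g0, na2, na3, na4, naw, nb1, nb4, nbw, nbm, nc2, nc3, nc4, nc5, he, hθ]
  · linarith only [era, erb, erc, eha, ehb, ehc, htot, hcb, hab, ta, ma, ua, wb, zb, vb, tc, mc,
      uc, g0, na2, na3, na4, naw, nb1, nb4, nb5, nbw, nbm, nc2, nc3, nc4, nc5, he, hθ]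
  · linarith only [era, erb, erc, eha, ehb, ehc, htot, hcb, hab, ta, ma, ua, wb, zb, vb, tc, mc,
      uc, g0, na2, na3, na4, naw, nb1, nb4, nb5, nbw, nbm, nc2, nc3, nc4, nc5, he, hθ]

theorem q3_6 {θ e a1 a2 a3 a4 a5 aw am av b1 b2 b3 b4 b5 bw bm bv c1 c2 c3 c4 c5 cw cm cv
    ra rb rc ha hb hc : ℝ} {KA KB KC SA SB SC : ℝ → ℝ → Prop}
    (H : Cfg θ e a1 a2 a3 a4 a5 aw am av b1 b2 b3 b4 b5 bw bm bv c1 c2 c3 c4 c5 cw cm cv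
      ra rb rc ha hb hc KA KB KC SA SB SC)
    (pa : rb + rc ≤ 7 / 9) (za : a4 = 0) (ta : 4 * a5 ≤ aw)
    (wa : aw ≤ 20 / 13 * (rb + rc - 7 / 12)) (ma : am = 0) (va : av = 0) (pb : ra + rc ≤ 7 / 9)
    (zb : b4 = 0) (tb : 4 * b5 ≤ bw) (wb : bw ≤ 20 / 13 * (ra + rc - 7 / 12)) (mb : 4 * bm ≤ bv)
    (vb : ra + rc ≤ bv) (ub : 7 / 12 - (ra + rc) / 2 ≤ bm) (kbm : KB 4 bm) (pc : 7 / 9 ≤ ra + rb)
    (kc4 : KC 4 c4) (tc : 5 * c5 ≤ cw) (wc : cw ≤ 65 / 36 * (ra + rb) - 245 / 216)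
    (mc : 5 * cm ≤ cv) (vc : ra + rb ≤ cv) (uc : 7 / 12 - (ra + rb) / 2 ≤ cm) (kcm : KC 5 cm) : False := by
  obtain ⟨era, erb, erc, eha, ehb, ehc, na1, na2, na3, na4, na5, naw, nam, nav, nb1, nb2, nb3, nb4, nb5,
    nbw, nbm, nbv, nc1, nc2, nc3, nc4, nc5, ncw, ncm, ncv, he, he1, hθ, htot, hbc, hcb, hab, hlo,
    hTab, hTac, hTbc, hNa, hNb, hNc, hBab, hBac, hBba, hBbc, hBca, hBcb, hXa, hXb, hXc, hL, hSa,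
    hSb, hSc, ka1, ka2, ka3, kb1, kb2, kb3, kc1, kc2, kc3⟩ := id H
  rcases hL _ _ _ _ _ _ (hSa 0 0 0 0 0 0 o0 o0 o0 o0 o0 o0) (hSb 0 0 0 0 0 1 o0 o0 o0 o0 o0 o1)
    (hSc 0 0 0 0 1 1 o0 o0 o0 o0 o1 o1) with g0 | g0
  · linarith only [era, erb, erc, eha, ehb, ehc, htot, pc, uc, g0, hBcb 5 cm 4 bm kcm kbm, nc1,
      nc2, nc3, nc4, he, hθ]
  · linarith only [era, erb, erc, eha, ehb, ehc, htot, hbc, wa, za, va, mb, ub, pc, uc, g0,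
      hBab 3 a3 4 bm ka3 kbm, na1, na4, na5, naw, nam, nc1, nc2, nc3, nc5, he, hθ]

theorem q0_7 {θ e a1 a2 a3 a4 a5 aw am av b1 b2 b3 b4 b5 bw bm bv c1 c2 c3 c4 c5 cw cm cv
    ra rb rc ha hb hc : ℝ} {KA KB KC SA SB SC : ℝ → ℝ → Prop}
    (H : Cfg θ e a1 a2 a3 a4 a5 aw am av b1 b2 b3 b4 b5 bw bm bv c1 c2 c3 c4 c5 cw cm cv
      ra rb rc ha hb hc KA KB KC SA SB SC)
    (pa : rb + rc ≤ 7 / 9) (za : a4 = 0) (ta : 4 * a5 ≤ aw)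
    (wa : aw ≤ 20 / 13 * (rb + rc - 7 / 12)) (ma : 4 * am ≤ av) (va : rb + rc ≤ av)
    (ua : 7 / 12 - (rb + rc) / 2 ≤ am) (kam : KA 4 am) (pb : ra + rc ≤ 7 / 9) (zb : b4 = 0)
    (tb : 4 * b5 ≤ bw) (wb : bw ≤ 20 / 13 * (ra + rc - 7 / 12)) (mb : 4 * bm ≤ bv)
    (vb : ra + rc ≤ bv) (ub : 7 / 12 - (ra + rc) / 2 ≤ bm) (kbm : KB 4 bm) (pc : ra + rb ≤ 7 / 9)
    (zc : c4 = 0) (tc : 4 * c5 ≤ cw) (wc : cw ≤ 20 / 13 * (ra + rb - 7 / 12)) (mc : 4 * cm ≤ cv)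
    (vc : ra + rb ≤ cv) (uc : 7 / 12 - (ra + rb) / 2 ≤ cm) (kcm : KC 4 cm) : False := by
  obtain ⟨era, erb, erc, eha, ehb, ehc, na1, na2, na3, na4, na5, naw, nam, nav, nb1, nb2, nb3, nb4, nb5,
    nbw, nbm, nbv, nc1, nc2, nc3, nc4, nc5, ncw, ncm, ncv, he, he1, hθ, htot, hbc, hcb, hab, hlo,
    hTab, hTac, hTbc, hNa, hNb, hNc, hBab, hBac, hBba, hBbc, hBca, hBcb, hXa, hXb, hXc, hL, hSa,
    hSb, hSc, ka1, ka2, ka3, kb1, kb2, kb3, kc1, kc2, kc3⟩ := id H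
  linarith only [era, erb, erc, eha, ehb, ehc, htot, ua, zb, ub, uc, hBca 4 cm 4 am kcm kam,
    hBab 4 am 4 bm kam kbm, hBcb 4 cm 4 bm kcm kbm, nb4, he, hθ]

theorem q1_2 {θ e a1 a2 a3 a4 a5 aw am av b1 b2 b3 b4 b5 bw bm bv c1 c2 c3 c4 c5 cw cm cv
    ra rb rc ha hb hc : ℝ} {KA KB KC SA SB SC : ℝ → ℝ → Prop}
    (H : Cfg θ e a1 a2 a3 a4 a5 aw am av b1 b2 b3 b4 b5 bw bm bv c1 c2 c3 c4 c5 cw cm cv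
      ra rb rc ha hb hc KA KB KC SA SB SC)
    (pa : 7 / 9 ≤ rb + rc) (ka4 : KA 4 a4) (ta : 5 * a5 ≤ aw)
    (wa : aw ≤ 65 / 36 * (rb + rc) - 245 / 216) (ma : am = 0) (va : av = 0) (pb : ra + rc ≤ 7 / 9)
    (zb : b4 = 0) (tb : 4 * b5 ≤ bw) (wb : bw ≤ 20 / 13 * (ra + rc - 7 / 12)) (mb : 4 * bm ≤ bv)
    (vb : ra + rc ≤ bv) (ub : 7 / 12 - (ra + rc) / 2 ≤ bm) (kbm : KB 4 bm) (pc : ra + rb ≤ 7 / 9)
    (zc : c4 = 0) (tc : 4 * c5 ≤ cw) (wc : cw ≤ 20 / 13 * (ra + rb - 7 / 12)) (mc : cm = 0)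
    (vc : cv = 0) : False := by
  obtain ⟨era, erb, erc, eha, ehb, ehc, na1, na2, na3, na4, na5, naw, nam, nav, nb1, nb2, nb3, nb4, nb5,
    nbw, nbm, nbv, nc1, nc2, nc3, nc4, nc5, ncw, ncm, ncv, he, he1, hθ, htot, hbc, hcb, hab, hlo,
    hTab, hTac, hTbc, hNa, hNb, hNc, hBab, hBac, hBba, hBbc, hBca, hBcb, hXa, hXb, hXc, hL, hSa,
    hSb, hSc, ka1, ka2, ka3, kb1, kb2, kb3, kc1, kc2, kc3⟩ := id H
  linarith only [era, erb, erc, eha, ehb, ehc, htot, hbc, pa, tb, zb, mb, ub, wc, zc, vc,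
    hBcb 3 c3 4 bm kc3 kbm, nb2, nb3, nb4, nb5, nc1, nc5, ncw, ncm, he, hθ]

theorem q1_3 {θ e a1 a2 a3 a4 a5 aw am av b1 b2 b3 b4 b5 bw bm bv c1 c2 c3 c4 c5 cw cm cv
    ra rb rc ha hb hc : ℝ} {KA KB KC SA SB SC : ℝ → ℝ → Prop}
    (H : Cfg θ e a1 a2 a3 a4 a5 aw am av b1 b2 b3 b4 b5 bw bm bv c1 c2 c3 c4 c5 cw cm cv
      ra rb rc ha hb hc KA KB KC SA SB SC)
    (pa : 7 / 9 ≤ rb + rc) (ka4 : KA 4 a4) (ta : 5 * a5 ≤ aw)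
    (wa : aw ≤ 65 / 36 * (rb + rc) - 245 / 216) (ma : 5 * am ≤ av) (va : rb + rc ≤ av)
    (ua : 7 / 12 - (rb + rc) / 2 ≤ am) (kam : KA 5 am) (pb : ra + rc ≤ 7 / 9) (zb : b4 = 0)
    (tb : 4 * b5 ≤ bw) (wb : bw ≤ 20 / 13 * (ra + rc - 7 / 12)) (mb : 4 * bm ≤ bv)
    (vb : ra + rc ≤ bv) (ub : 7 / 12 - (ra + rc) / 2 ≤ bm) (kbm : KB 4 bm) (pc : ra + rb ≤ 7 / 9)
    (zc : c4 = 0) (tc : 4 * c5 ≤ cw) (wc : cw ≤ 20 / 13 * (ra + rb - 7 / 12)) (mc : cm = 0)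
    (vc : cv = 0) : False := by
  obtain ⟨era, erb, erc, eha, ehb, ehc, na1, na2, na3, na4, na5, naw, nam, nav, nb1, nb2, nb3, nb4, nb5,
    nbw, nbm, nbv, nc1, nc2, nc3, nc4, nc5, ncw, ncm, ncv, he, he1, hθ, htot, hbc, hcb, hab, hlo,
    hTab, hTac, hTbc, hNa, hNb, hNc, hBab, hBac, hBba, hBbc, hBca, hBcb, hXa, hXb, hXc, hL, hSa,
    hSb, hSc, ka1, ka2, ka3, kb1, kb2, kb3, kc1, kc2, kc3⟩ := id H
  linarith only [era, erb, erc, eha, ehb, ehc, htot, hbc, pa, tb, mb, ub, wc, zc, vc,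
    hBcb 3 c3 4 bm kc3 kbm, nb2, nb3, nb4, nb5, nc1, nc4, nc5, ncw, ncm, he, hθ]

theorem q1_4 {θ e a1 a2 a3 a4 a5 aw am av b1 b2 b3 b4 b5 bw bm bv c1 c2 c3 c4 c5 cw cm cv
    ra rb rc ha hb hc : ℝ} {KA KB KC SA SB SC : ℝ → ℝ → Prop}
    (H : Cfg θ e a1 a2 a3 a4 a5 aw am av b1 b2 b3 b4 b5 bw bm bv c1 c2 c3 c4 c5 cw cm cv
      ra rb rc ha hb hc KA KB KC SA SB SC)
    (pa : 7 / 9 ≤ rb + rc) (ka4 : KA 4 a4) (ta : 5 * a5 ≤ aw)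
    (wa : aw ≤ 65 / 36 * (rb + rc) - 245 / 216) (ma : am = 0) (va : av = 0) (pb : ra + rc ≤ 7 / 9)
    (zb : b4 = 0) (tb : 4 * b5 ≤ bw) (wb : bw ≤ 20 / 13 * (ra + rc - 7 / 12)) (mb : bm = 0)
    (vb : bv = 0) (pc : ra + rb ≤ 7 / 9) (zc : c4 = 0) (tc : 4 * c5 ≤ cw)
    (wc : cw ≤ 20 / 13 * (ra + rb - 7 / 12)) (mc : 4 * cm ≤ cv) (vc : ra + rb ≤ cv)
    (uc : 7 / 12 - (ra + rb) / 2 ≤ cm) (kcm : KC 4 cm) : False := by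
  obtain ⟨era, erb, erc, eha, ehb, ehc, na1, na2, na3, na4, na5, naw, nam, nav, nb1, nb2, nb3, nb4, nb5,
    nbw, nbm, nbv, nc1, nc2, nc3, nc4, nc5, ncw, ncm, ncv, he, he1, hθ, htot, hbc, hcb, hab, hlo,
    hTab, hTac, hTbc, hNa, hNb, hNc, hBab, hBac, hBba, hBbc, hBca, hBcb, hXa, hXb, hXc, hL, hSa,
    hSb, hSc, ka1, ka2, ka3, kb1, kb2, kb3, kc1, kc2, kc3⟩ := id H
  linarith only [era, erb, erc, eha, ehb, ehc, htot, hcb, pa, wb, zb, vb, tc, mc, uc,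
    hBbc 3 b3 4 cm kb3 kcm, nb1, nb4, nb5, nbw, nbm, nc2, nc3, nc4, ncw, he, hθ]

theorem q1_5 {θ e a1 a2 a3 a4 a5 aw am av b1 b2 b3 b4 b5 bw bm bv c1 c2 c3 c4 c5 cw cm cv
    ra rb rc ha hb hc : ℝ} {KA KB KC SA SB SC : ℝ → ℝ → Prop}
    (H : Cfg θ e a1 a2 a3 a4 a5 aw am av b1 b2 b3 b4 b5 bw bm bv c1 c2 c3 c4 c5 cw cm cv
      ra rb rc ha hb hc KA KB KC SA SB SC)
    (pa : 7 / 9 ≤ rb + rc) (ka4 : KA 4 a4) (ta : 5 * a5 ≤ aw)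
    (wa : aw ≤ 65 / 36 * (rb + rc) - 245 / 216) (ma : 5 * am ≤ av) (va : rb + rc ≤ av)
    (ua : 7 / 12 - (rb + rc) / 2 ≤ am) (kam : KA 5 am) (pb : ra + rc ≤ 7 / 9) (zb : b4 = 0)
    (tb : 4 * b5 ≤ bw) (wb : bw ≤ 20 / 13 * (ra + rc - 7 / 12)) (mb : bm = 0) (vb : bv = 0)
    (pc : ra + rb ≤ 7 / 9) (zc : c4 = 0) (tc : 4 * c5 ≤ cw)
    (wc : cw ≤ 20 / 13 * (ra + rb - 7 / 12)) (mc : 4 * cm ≤ cv) (vc : ra + rb ≤ cv)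
    (uc : 7 / 12 - (ra + rb) / 2 ≤ cm) (kcm : KC 4 cm) : False := by
  obtain ⟨era, erb, erc, eha, ehb, ehc, na1, na2, na3, na4, na5, naw, nam, nav, nb1, nb2, nb3, nb4, nb5,
    nbw, nbm, nbv, nc1, nc2, nc3, nc4, nc5, ncw, ncm, ncv, he, he1, hθ, htot, hbc, hcb, hab, hlo,
    hTab, hTac, hTbc, hNa, hNb, hNc, hBab, hBac, hBba, hBbc, hBca, hBcb, hXa, hXb, hXc, hL, hSa,
    hSb, hSc, ka1, ka2, ka3, kb1, kb2, kb3, kc1, kc2, kc3⟩ := id H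
  linarith only [era, erb, erc, eha, ehb, ehc, htot, hcb, pa, wb, zb, vb, tc, mc, uc,
    hBbc 3 b3 4 cm kb3 kcm, nb1, nb4, nb5, nbw, nbm, nc2, nc3, nc4, nc5, he, hθ]

theorem q1_6 {θ e a1 a2 a3 a4 a5 aw am av b1 b2 b3 b4 b5 bw bm bv c1 c2 c3 c4 c5 cw cm cv
    ra rb rc ha hb hc : ℝ} {KA KB KC SA SB SC : ℝ → ℝ → Prop}
    (H : Cfg θ e a1 a2 a3 a4 a5 aw am av b1 b2 b3 b4 b5 bw bm bv c1 c2 c3 c4 c5 cw cm cv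
      ra rb rc ha hb hc KA KB KC SA SB SC)
    (pa : 7 / 9 ≤ rb + rc) (ka4 : KA 4 a4) (ta : 5 * a5 ≤ aw)
    (wa : aw ≤ 65 / 36 * (rb + rc) - 245 / 216) (ma : am = 0) (va : av = 0) (pb : ra + rc ≤ 7 / 9)
    (zb : b4 = 0) (tb : 4 * b5 ≤ bw) (wb : bw ≤ 20 / 13 * (ra + rc - 7 / 12)) (mb : 4 * bm ≤ bv)
    (vb : ra + rc ≤ bv) (ub : 7 / 12 - (ra + rc) / 2 ≤ bm) (kbm : KB 4 bm) (pc : ra + rb ≤ 7 / 9)
    (zc : c4 = 0) (tc : 4 * c5 ≤ cw) (wc : cw ≤ 20 / 13 * (ra + rb - 7 / 12)) (mc : 4 * cm ≤ cv)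
    (vc : ra + rb ≤ cv) (uc : 7 / 12 - (ra + rb) / 2 ≤ cm) (kcm : KC 4 cm) : False := by
  obtain ⟨era, erb, erc, eha, ehb, ehc, na1, na2, na3, na4, na5, naw, nam, nav, nb1, nb2, nb3, nb4, nb5,
    nbw, nbm, nbv, nc1, nc2, nc3, nc4, nc5, ncw, ncm, ncv, he, he1, hθ, htot, hbc, hcb, hab, hlo,
    hTab, hTac, hTbc, hNa, hNb, hNc, hBab, hBac, hBba, hBbc, hBca, hBcb, hXa, hXb, hXc, hL, hSa,
    hSb, hSc, ka1, ka2, ka3, kb1, kb2, kb3, kc1, kc2, kc3⟩ := id H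
  linarith only [era, erb, erc, eha, ehb, ehc, htot, pa, zb, ub, uc, hBbc 4 bm 4 cm kbm kcm,
    hBcb 4 cm 4 bm kcm kbm, nb4, he, hθ]

theorem q1_7 {θ e a1 a2 a3 a4 a5 aw am av b1 b2 b3 b4 b5 bw bm bv c1 c2 c3 c4 c5 cw cm cv
    ra rb rc ha hb hc : ℝ} {KA KB KC SA SB SC : ℝ → ℝ → Prop}
    (H : Cfg θ e a1 a2 a3 a4 a5 aw am av b1 b2 b3 b4 b5 bw bm bv c1 c2 c3 c4 c5 cw cm cv
      ra rb rc ha hb hc KA KB KC SA SB SC)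
    (pa : 7 / 9 ≤ rb + rc) (ka4 : KA 4 a4) (ta : 5 * a5 ≤ aw)
    (wa : aw ≤ 65 / 36 * (rb + rc) - 245 / 216) (ma : 5 * am ≤ av) (va : rb + rc ≤ av)
    (ua : 7 / 12 - (rb + rc) / 2 ≤ am) (kam : KA 5 am) (pb : ra + rc ≤ 7 / 9) (zb : b4 = 0)
    (tb : 4 * b5 ≤ bw) (wb : bw ≤ 20 / 13 * (ra + rc - 7 / 12)) (mb : 4 * bm ≤ bv)
    (vb : ra + rc ≤ bv) (ub : 7 / 12 - (ra + rc) / 2 ≤ bm) (kbm : KB 4 bm) (pc : ra + rb ≤ 7 / 9)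
    (zc : c4 = 0) (tc : 4 * c5 ≤ cw) (wc : cw ≤ 20 / 13 * (ra + rb - 7 / 12)) (mc : 4 * cm ≤ cv)
    (vc : ra + rb ≤ cv) (uc : 7 / 12 - (ra + rb) / 2 ≤ cm) (kcm : KC 4 cm) : False := by
  obtain ⟨era, erb, erc, eha, ehb, ehc, na1, na2, na3, na4, na5, naw, nam, nav, nb1, nb2, nb3, nb4, nb5,
    nbw, nbm, nbv, nc1, nc2, nc3, nc4, nc5, ncw, ncm, ncv, he, he1, hθ, htot, hbc, hcb, hab, hlo,
    hTab, hTac, hTbc, hNa, hNb, hNc, hBab, hBac, hBba, hBbc, hBca, hBcb, hXa, hXb, hXc, hL, hSa,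
    hSb, hSc, ka1, ka2, ka3, kb1, kb2, kb3, kc1, kc2, kc3⟩ := id H
  linarith only [era, erb, erc, eha, ehb, ehc, htot, pa, ub, zc, uc, hBbc 4 bm 4 cm kbm kcm,
    hBcb 4 cm 4 bm kcm kbm, nc4, he, hθ]

theorem q2_1 {θ e a1 a2 a3 a4 a5 aw am av b1 b2 b3 b4 b5 bw bm bv c1 c2 c3 c4 c5 cw cm cv
    ra rb rc ha hb hc : ℝ} {KA KB KC SA SB SC : ℝ → ℝ → Prop}
    (H : Cfg θ e a1 a2 a3 a4 a5 aw am av b1 b2 b3 b4 b5 bw bm bv c1 c2 c3 c4 c5 cw cm cv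
      ra rb rc ha hb hc KA KB KC SA SB SC)
    (pa : rb + rc ≤ 7 / 9) (za : a4 = 0) (ta : 4 * a5 ≤ aw)
    (wa : aw ≤ 20 / 13 * (rb + rc - 7 / 12)) (ma : 4 * am ≤ av) (va : rb + rc ≤ av)
    (ua : 7 / 12 - (rb + rc) / 2 ≤ am) (kam : KA 4 am) (pb : 7 / 9 ≤ ra + rc) (kb4 : KB 4 b4)
    (tb : 5 * b5 ≤ bw) (wb : bw ≤ 65 / 36 * (ra + rc) - 245 / 216) (mb : bm = 0) (vb : bv = 0)
    (pc : ra + rb ≤ 7 / 9) (zc : c4 = 0) (tc : 4 * c5 ≤ cw)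
    (wc : cw ≤ 20 / 13 * (ra + rb - 7 / 12)) (mc : cm = 0) (vc : cv = 0) : False := by
  obtain ⟨era, erb, erc, eha, ehb, ehc, na1, na2, na3, na4, na5, naw, nam, nav, nb1, nb2, nb3, nb4, nb5,
    nbw, nbm, nbv, nc1, nc2, nc3, nc4, nc5, ncw, ncm, ncv, he, he1, hθ, htot, hbc, hcb, hab, hlo,
    hTab, hTac, hTbc, hNa, hNb, hNc, hBab, hBac, hBba, hBbc, hBca, hBcb, hXa, hXb, hXc, hL, hSa,
    hSb, hSc, ka1, ka2, ka3, kb1, kb2, kb3, kc1, kc2, kc3⟩ := id H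
  linarith only [era, erb, erc, eha, ehb, ehc, htot, hbc, hab, ta, ma, ua, pb, vb, wc, zc, vc,
    hBca 3 c3 4 am kc3 kam, na2, na3, na4, na5, nbv, nc1, nc5, ncw, ncm, he, hθ]

theorem q2_3 {θ e a1 a2 a3 a4 a5 aw am av b1 b2 b3 b4 b5 bw bm bv c1 c2 c3 c4 c5 cw cm cv
    ra rb rc ha hb hc : ℝ} {KA KB KC SA SB SC : ℝ → ℝ → Prop}
    (H : Cfg θ e a1 a2 a3 a4 a5 aw am av b1 b2 b3 b4 b5 bw bm bv c1 c2 c3 c4 c5 cw cm cv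
      ra rb rc ha hb hc KA KB KC SA SB SC)
    (pa : rb + rc ≤ 7 / 9) (za : a4 = 0) (ta : 4 * a5 ≤ aw)
    (wa : aw ≤ 20 / 13 * (rb + rc - 7 / 12)) (ma : 4 * am ≤ av) (va : rb + rc ≤ av)
    (ua : 7 / 12 - (rb + rc) / 2 ≤ am) (kam : KA 4 am) (pb : 7 / 9 ≤ ra + rc) (kb4 : KB 4 b4)
    (tb : 5 * b5 ≤ bw) (wb : bw ≤ 65 / 36 * (ra + rc) - 245 / 216) (mb : 5 * bm ≤ bv)
    (vb : ra + rc ≤ bv) (ub : 7 / 12 - (ra + rc) / 2 ≤ bm) (kbm : KB 5 bm) (pc : ra + rb ≤ 7 / 9)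
    (zc : c4 = 0) (tc : 4 * c5 ≤ cw) (wc : cw ≤ 20 / 13 * (ra + rb - 7 / 12)) (mc : cm = 0)
    (vc : cv = 0) : False := by
  obtain ⟨era, erb, erc, eha, ehb, ehc, na1, na2, na3, na4, na5, naw, nam, nav, nb1, nb2, nb3, nb4, nb5,
    nbw, nbm, nbv, nc1, nc2, nc3, nc4, nc5, ncw, ncm, ncv, he, he1, hθ, htot, hbc, hcb, hab, hlo,
    hTab, hTac, hTbc, hNa, hNb, hNc, hBab, hBac, hBba, hBbc, hBca, hBcb, hXa, hXb, hXc, hL, hSa,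
    hSb, hSc, ka1, ka2, ka3, kb1, kb2, kb3, kc1, kc2, kc3⟩ := id H
  linarith only [era, erb, erc, eha, ehb, ehc, htot, hbc, hab, ta, ma, ua, pb, wc, zc, vc,
    hBca 3 c3 4 am kc3 kam, na2, na3, na4, na5, nc1, nc4, nc5, ncw, ncm, he, hθ]

theorem q2_4 {θ e a1 a2 a3 a4 a5 aw am av b1 b2 b3 b4 b5 bw bm bv c1 c2 c3 c4 c5 cw cm cv
    ra rb rc ha hb hc : ℝ} {KA KB KC SA SB SC : ℝ → ℝ → Prop}
    (H : Cfg θ e a1 a2 a3 a4 a5 aw am av b1 b2 b3 b4 b5 bw bm bv c1 c2 c3 c4 c5 cw cm cv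
      ra rb rc ha hb hc KA KB KC SA SB SC)
    (pa : rb + rc ≤ 7 / 9) (za : a4 = 0) (ta : 4 * a5 ≤ aw)
    (wa : aw ≤ 20 / 13 * (rb + rc - 7 / 12)) (ma : am = 0) (va : av = 0) (pb : 7 / 9 ≤ ra + rc)
    (kb4 : KB 4 b4) (tb : 5 * b5 ≤ bw) (wb : bw ≤ 65 / 36 * (ra + rc) - 245 / 216) (mb : bm = 0)
    (vb : bv = 0) (pc : ra + rb ≤ 7 / 9) (zc : c4 = 0) (tc : 4 * c5 ≤ cw)
    (wc : cw ≤ 20 / 13 * (ra + rb - 7 / 12)) (mc : 4 * cm ≤ cv) (vc : ra + rb ≤ cv)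
    (uc : 7 / 12 - (ra + rb) / 2 ≤ cm) (kcm : KC 4 cm) : False := by
  obtain ⟨era, erb, erc, eha, ehb, ehc, na1, na2, na3, na4, na5, naw, nam, nav, nb1, nb2, nb3, nb4, nb5,
    nbw, nbm, nbv, nc1, nc2, nc3, nc4, nc5, ncw, ncm, ncv, he, he1, hθ, htot, hbc, hcb, hab, hlo,
    hTab, hTac, hTbc, hNa, hNb, hNc, hBab, hBac, hBba, hBbc, hBca, hBcb, hXa, hXb, hXc, hL, hSa,
    hSb, hSc, ka1, ka2, ka3, kb1, kb2, kb3, kc1, kc2, kc3⟩ := id H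
  linarith only [era, erb, erc, eha, ehb, ehc, htot, hcb, wa, pb, wb, vb, tc, mc, uc,
    hBbc 4 b4 4 cm kb4 kcm, naw, nb1, nb2, nb5, nbm, nbv, nc2, nc3, nc4, nc5, he, hθ]

theorem q2_5 {θ e a1 a2 a3 a4 a5 aw am av b1 b2 b3 b4 b5 bw bm bv c1 c2 c3 c4 c5 cw cm cv
    ra rb rc ha hb hc : ℝ} {KA KB KC SA SB SC : ℝ → ℝ → Prop}
    (H : Cfg θ e a1 a2 a3 a4 a5 aw am av b1 b2 b3 b4 b5 bw bm bv c1 c2 c3 c4 c5 cw cm cv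
      ra rb rc ha hb hc KA KB KC SA SB SC)
    (pa : rb + rc ≤ 7 / 9) (za : a4 = 0) (ta : 4 * a5 ≤ aw)
    (wa : aw ≤ 20 / 13 * (rb + rc - 7 / 12)) (ma : 4 * am ≤ av) (va : rb + rc ≤ av)
    (ua : 7 / 12 - (rb + rc) / 2 ≤ am) (kam : KA 4 am) (pb : 7 / 9 ≤ ra + rc) (kb4 : KB 4 b4)
    (tb : 5 * b5 ≤ bw) (wb : bw ≤ 65 / 36 * (ra + rc) - 245 / 216) (mb : bm = 0) (vb : bv = 0)
    (pc : ra + rb ≤ 7 / 9) (zc : c4 = 0) (tc : 4 * c5 ≤ cw)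
    (wc : cw ≤ 20 / 13 * (ra + rb - 7 / 12)) (mc : 4 * cm ≤ cv) (vc : ra + rb ≤ cv)
    (uc : 7 / 12 - (ra + rb) / 2 ≤ cm) (kcm : KC 4 cm) : False := by
  obtain ⟨era, erb, erc, eha, ehb, ehc, na1, na2, na3, na4, na5, naw, nam, nav, nb1, nb2, nb3, nb4, nb5,
    nbw, nbm, nbv, nc1, nc2, nc3, nc4, nc5, ncw, ncm, ncv, he, he1, hθ, htot, hbc, hcb, hab, hlo,
    hTab, hTac, hTbc, hNa, hNb, hNc, hBab, hBac, hBba, hBbc, hBca, hBcb, hXa, hXb, hXc, hL, hSa,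
    hSb, hSc, ka1, ka2, ka3, kb1, kb2, kb3, kc1, kc2, kc3⟩ := id H
  linarith only [era, erb, erc, eha, ehb, ehc, htot, hcb, hab, ta, ma, ua, pb, wb, vb, tc, mc, uc,
    hBca 4 cm 4 am kcm kam, na2, na3, na4, naw, nb1, nb2, nb3, nb5, nbm, nc2, nc3, nc4, ncw, he, hθ]

theorem q2_7 {θ e a1 a2 a3 a4 a5 aw am av b1 b2 b3 b4 b5 bw bm bv c1 c2 c3 c4 c5 cw cm cv
    ra rb rc ha hb hc : ℝ} {KA KB KC SA SB SC : ℝ → ℝ → Prop}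
    (H : Cfg θ e a1 a2 a3 a4 a5 aw am av b1 b2 b3 b4 b5 bw bm bv c1 c2 c3 c4 c5 cw cm cv
      ra rb rc ha hb hc KA KB KC SA SB SC)
    (pa : rb + rc ≤ 7 / 9) (za : a4 = 0) (ta : 4 * a5 ≤ aw)
    (wa : aw ≤ 20 / 13 * (rb + rc - 7 / 12)) (ma : 4 * am ≤ av) (va : rb + rc ≤ av)
    (ua : 7 / 12 - (rb + rc) / 2 ≤ am) (kam : KA 4 am) (pb : 7 / 9 ≤ ra + rc) (kb4 : KB 4 b4)
    (tb : 5 * b5 ≤ bw) (wb : bw ≤ 65 / 36 * (ra + rc) - 245 / 216) (mb : 5 * bm ≤ bv)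
    (vb : ra + rc ≤ bv) (ub : 7 / 12 - (ra + rc) / 2 ≤ bm) (kbm : KB 5 bm) (pc : ra + rb ≤ 7 / 9)
    (zc : c4 = 0) (tc : 4 * c5 ≤ cw) (wc : cw ≤ 20 / 13 * (ra + rb - 7 / 12)) (mc : 4 * cm ≤ cv)
    (vc : ra + rb ≤ cv) (uc : 7 / 12 - (ra + rb) / 2 ≤ cm) (kcm : KC 4 cm) : False := by
  obtain ⟨era, erb, erc, eha, ehb, ehc, na1, na2, na3, na4, na5, naw, nam, nav, nb1, nb2, nb3, nb4, nb5,
    nbw, nbm, nbv, nc1, nc2, nc3, nc4, nc5, ncw, ncm, ncv, he, he1, hθ, htot, hbc, hcb, hab, hlo,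
    hTab, hTac, hTbc, hNa, hNb, hNc, hBab, hBac, hBba, hBbc, hBca, hBcb, hXa, hXb, hXc, hL, hSa,
    hSb, hSc, ka1, ka2, ka3, kb1, kb2, kb3, kc1, kc2, kc3⟩ := id H
  linarith only [era, erb, erc, eha, ehb, ehc, htot, ua, pb, uc, hBca 4 cm 4 am kcm kam,
    hBac 4 am 4 cm kam kcm, he, hθ]

theorem q3_1 {θ e a1 a2 a3 a4 a5 aw am av b1 b2 b3 b4 b5 bw bm bv c1 c2 c3 c4 c5 cw cm cv
    ra rb rc ha hb hc : ℝ} {KA KB KC SA SB SC : ℝ → ℝ → Prop}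
    (H : Cfg θ e a1 a2 a3 a4 a5 aw am av b1 b2 b3 b4 b5 bw bm bv c1 c2 c3 c4 c5 cw cm cv
      ra rb rc ha hb hc KA KB KC SA SB SC)
    (pa : rb + rc ≤ 7 / 9) (za : a4 = 0) (ta : 4 * a5 ≤ aw)
    (wa : aw ≤ 20 / 13 * (rb + rc - 7 / 12)) (ma : 4 * am ≤ av) (va : rb + rc ≤ av)
    (ua : 7 / 12 - (rb + rc) / 2 ≤ am) (kam : KA 4 am) (pb : ra + rc ≤ 7 / 9) (zb : b4 = 0)
    (tb : 4 * b5 ≤ bw) (wb : bw ≤ 20 / 13 * (ra + rc - 7 / 12)) (mb : bm = 0) (vb : bv = 0)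
    (pc : 7 / 9 ≤ ra + rb) (kc4 : KC 4 c4) (tc : 5 * c5 ≤ cw)
    (wc : cw ≤ 65 / 36 * (ra + rb) - 245 / 216) (mc : cm = 0) (vc : cv = 0) : False := by
  obtain ⟨era, erb, erc, eha, ehb, ehc, na1, na2, na3, na4, na5, naw, nam, nav, nb1, nb2, nb3, nb4, nb5,
    nbw, nbm, nbv, nc1, nc2, nc3, nc4, nc5, ncw, ncm, ncv, he, he1, hθ, htot, hbc, hcb, hab, hlo,
    hTab, hTac, hTbc, hNa, hNb, hNc, hBab, hBac, hBba, hBbc, hBca, hBcb, hXa, hXb, hXc, hL, hSa,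
    hSb, hSc, ka1, ka2, ka3, kb1, kb2, kb3, kc1, kc2, kc3⟩ := id H
  linarith only [era, erb, erc, eha, ehb, ehc, htot, hab, ta, ma, ua, wb, zb, vb, pc,
    hBba 3 b3 4 am kb3 kam, na2, na3, na4, na5, nb1, nb4, nb5, nbw, nbm, he, hθ]

theorem q3_2 {θ e a1 a2 a3 a4 a5 aw am av b1 b2 b3 b4 b5 bw bm bv c1 c2 c3 c4 c5 cw cm cv
    ra rb rc ha hb hc : ℝ} {KA KB KC SA SB SC : ℝ → ℝ → Prop}
    (H : Cfg θ e a1 a2 a3 a4 a5 aw am av b1 b2 b3 b4 b5 bw bm bv c1 c2 c3 c4 c5 cw cm cv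
      ra rb rc ha hb hc KA KB KC SA SB SC)
    (pa : rb + rc ≤ 7 / 9) (za : a4 = 0) (ta : 4 * a5 ≤ aw)
    (wa : aw ≤ 20 / 13 * (rb + rc - 7 / 12)) (ma : am = 0) (va : av = 0) (pb : ra + rc ≤ 7 / 9)
    (zb : b4 = 0) (tb : 4 * b5 ≤ bw) (wb : bw ≤ 20 / 13 * (ra + rc - 7 / 12)) (mb : 4 * bm ≤ bv)
    (vb : ra + rc ≤ bv) (ub : 7 / 12 - (ra + rc) / 2 ≤ bm) (kbm : KB 4 bm) (pc : 7 / 9 ≤ ra + rb)
    (kc4 : KC 4 c4) (tc : 5 * c5 ≤ cw) (wc : cw ≤ 65 / 36 * (ra + rb) - 245 / 216) (mc : cm = 0)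
    (vc : cv = 0) : False := by
  obtain ⟨era, erb, erc, eha, ehb, ehc, na1, na2, na3, na4, na5, naw, nam, nav, nb1, nb2, nb3, nb4, nb5,
    nbw, nbm, nbv, nc1, nc2, nc3, nc4, nc5, ncw, ncm, ncv, he, he1, hθ, htot, hbc, hcb, hab, hlo,
    hTab, hTac, hTbc, hNa, hNb, hNc, hBab, hBac, hBba, hBbc, hBca, hBcb, hXa, hXb, hXc, hL, hSa,
    hSb, hSc, ka1, ka2, ka3, kb1, kb2, kb3, kc1, kc2, kc3⟩ := id H
  linarith only [era, erb, erc, eha, ehb, ehc, htot, hbc, wa, tb, mb, ub, pc, wc, vc,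
    hBcb 4 c4 4 bm kc4 kbm, naw, nb2, nb3, nb4, nb5, nc1, nc2, nc5, ncm, ncv, he, hθ]

theorem q3_3 {θ e a1 a2 a3 a4 a5 aw am av b1 b2 b3 b4 b5 bw bm bv c1 c2 c3 c4 c5 cw cm cv
    ra rb rc ha hb hc : ℝ} {KA KB KC SA SB SC : ℝ → ℝ → Prop}
    (H : Cfg θ e a1 a2 a3 a4 a5 aw am av b1 b2 b3 b4 b5 bw bm bv c1 c2 c3 c4 c5 cw cm cv
      ra rb rc ha hb hc KA KB KC SA SB SC)
    (pa : rb + rc ≤ 7 / 9) (za : a4 = 0) (ta : 4 * a5 ≤ aw)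
    (wa : aw ≤ 20 / 13 * (rb + rc - 7 / 12)) (ma : 4 * am ≤ av) (va : rb + rc ≤ av)
    (ua : 7 / 12 - (rb + rc) / 2 ≤ am) (kam : KA 4 am) (pb : ra + rc ≤ 7 / 9) (zb : b4 = 0)
    (tb : 4 * b5 ≤ bw) (wb : bw ≤ 20 / 13 * (ra + rc - 7 / 12)) (mb : 4 * bm ≤ bv)
    (vb : ra + rc ≤ bv) (ub : 7 / 12 - (ra + rc) / 2 ≤ bm) (kbm : KB 4 bm) (pc : 7 / 9 ≤ ra + rb)
    (kc4 : KC 4 c4) (tc : 5 * c5 ≤ cw) (wc : cw ≤ 65 / 36 * (ra + rb) - 245 / 216) (mc : cm = 0)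
    (vc : cv = 0) : False := by
  obtain ⟨era, erb, erc, eha, ehb, ehc, na1, na2, na3, na4, na5, naw, nam, nav, nb1, nb2, nb3, nb4, nb5,
    nbw, nbm, nbv, nc1, nc2, nc3, nc4, nc5, ncw, ncm, ncv, he, he1, hθ, htot, hbc, hcb, hab, hlo,
    hTab, hTac, hTbc, hNa, hNb, hNc, hBab, hBac, hBba, hBbc, hBca, hBcb, hXa, hXb, hXc, hL, hSa,
    hSb, hSc, ka1, ka2, ka3, kb1, kb2, kb3, kc1, kc2, kc3⟩ := id H
  linarith only [era, erb, erc, eha, ehb, ehc, htot, hbc, hab, ta, ma, ua, tb, mb, ub, pc, wc, vc,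
    hBba 4 bm 4 am kbm kam, na2, na3, na4, naw, nb2, nb3, nb4, nbw, nc1, nc2, nc3, nc5, ncm, he, hθ]

theorem q3_5 {θ e a1 a2 a3 a4 a5 aw am av b1 b2 b3 b4 b5 bw bm bv c1 c2 c3 c4 c5 cw cm cv
    ra rb rc ha hb hc : ℝ} {KA KB KC SA SB SC : ℝ → ℝ → Prop}
    (H : Cfg θ e a1 a2 a3 a4 a5 aw am av b1 b2 b3 b4 b5 bw bm bv c1 c2 c3 c4 c5 cw cm cv
      ra rb rc ha hb hc KA KB KC SA SB SC)
    (pa : rb + rc ≤ 7 / 9) (za : a4 = 0) (ta : 4 * a5 ≤ aw)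
    (wa : aw ≤ 20 / 13 * (rb + rc - 7 / 12)) (ma : 4 * am ≤ av) (va : rb + rc ≤ av)
    (ua : 7 / 12 - (rb + rc) / 2 ≤ am) (kam : KA 4 am) (pb : ra + rc ≤ 7 / 9) (zb : b4 = 0)
    (tb : 4 * b5 ≤ bw) (wb : bw ≤ 20 / 13 * (ra + rc - 7 / 12)) (mb : bm = 0) (vb : bv = 0)
    (pc : 7 / 9 ≤ ra + rb) (kc4 : KC 4 c4) (tc : 5 * c5 ≤ cw)
    (wc : cw ≤ 65 / 36 * (ra + rb) - 245 / 216) (mc : 5 * cm ≤ cv) (vc : ra + rb ≤ cv)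
    (uc : 7 / 12 - (ra + rb) / 2 ≤ cm) (kcm : KC 5 cm) : False := by
  obtain ⟨era, erb, erc, eha, ehb, ehc, na1, na2, na3, na4, na5, naw, nam, nav, nb1, nb2, nb3, nb4, nb5,
    nbw, nbm, nbv, nc1, nc2, nc3, nc4, nc5, ncw, ncm, ncv, he, he1, hθ, htot, hbc, hcb, hab, hlo,
    hTab, hTac, hTbc, hNa, hNb, hNc, hBab, hBac, hBba, hBbc, hBca, hBcb, hXa, hXb, hXc, hL, hSa,
    hSb, hSc, ka1, ka2, ka3, kb1, kb2, kb3, kc1, kc2, kc3⟩ := id H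
  linarith only [era, erb, erc, eha, ehb, ehc, htot, hab, ta, ma, ua, wb, zb, vb, pc,
    hBba 3 b3 4 am kb3 kam, na2, na3, na4, na5, nb1, nb4, nb5, nbw, nbm, he, hθ]

theorem q3_7 {θ e a1 a2 a3 a4 a5 aw am av b1 b2 b3 b4 b5 bw bm bv c1 c2 c3 c4 c5 cw cm cv
    ra rb rc ha hb hc : ℝ} {KA KB KC SA SB SC : ℝ → ℝ → Prop}
    (H : Cfg θ e a1 a2 a3 a4 a5 aw am av b1 b2 b3 b4 b5 bw bm bv c1 c2 c3 c4 c5 cw cm cv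
      ra rb rc ha hb hc KA KB KC SA SB SC)
    (pa : rb + rc ≤ 7 / 9) (za : a4 = 0) (ta : 4 * a5 ≤ aw)
    (wa : aw ≤ 20 / 13 * (rb + rc - 7 / 12)) (ma : 4 * am ≤ av) (va : rb + rc ≤ av)
    (ua : 7 / 12 - (rb + rc) / 2 ≤ am) (kam : KA 4 am) (pb : ra + rc ≤ 7 / 9) (zb : b4 = 0)
    (tb : 4 * b5 ≤ bw) (wb : bw ≤ 20 / 13 * (ra + rc - 7 / 12)) (mb : 4 * bm ≤ bv)
    (vb : ra + rc ≤ bv) (ub : 7 / 12 - (ra + rc) / 2 ≤ bm) (kbm : KB 4 bm) (pc : 7 / 9 ≤ ra + rb)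
    (kc4 : KC 4 c4) (tc : 5 * c5 ≤ cw) (wc : cw ≤ 65 / 36 * (ra + rb) - 245 / 216)
    (mc : 5 * cm ≤ cv) (vc : ra + rb ≤ cv) (uc : 7 / 12 - (ra + rb) / 2 ≤ cm) (kcm : KC 5 cm) : False := by
  obtain ⟨era, erb, erc, eha, ehb, ehc, na1, na2, na3, na4, na5, naw, nam, nav, nb1, nb2, nb3, nb4, nb5,
    nbw, nbm, nbv, nc1, nc2, nc3, nc4, nc5, ncw, ncm, ncv, he, he1, hθ, htot, hbc, hcb, hab, hlo,
    hTab, hTac, hTbc, hNa, hNb, hNc, hBab, hBac, hBba, hBbc, hBca, hBcb, hXa, hXb, hXc, hL, hSa,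
    hSb, hSc, ka1, ka2, ka3, kb1, kb2, kb3, kc1, kc2, kc3⟩ := id H
  linarith only [era, erb, erc, eha, ehb, ehc, htot, ua, ub, pc, hBba 4 bm 4 am kbm kam,
    hBab 4 am 4 bm kam kbm, he, hθ]

end Pool.Agent.Lib.MP_d8bd92_nt.Fh.Opt
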