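import Pool.Agent.Lib.MP_d8bd92_nt.Fh.Opt.M0
import Pool.Agent.Lib.MP_d8bd92_nt.Fh.Opt.M1
import Pool.Agent.Lib.MP_d8bd92_nt.Fh.Opt.M2
import Pool.Agent.Lib.MP_d8bd92_nt.Fh.Opt.M3

set_option autoImplicit false

/-!
Optimisation: the result.
-/

namespace Pool.Agent.Lib.MP_d8bd92_nt.Fh.Opt

open Pool.Agent.Lib.MP_d8bd92_nt.Fh

theorem opt {θ e a1 a2 a3 a4 a5 aw am av b1 b2 b3 b4 b5 bw bm bv c1 c2 c3 c4 c5 cw cm cv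
    ra rb rc ha hb hc : ℝ} {KA KB KC SA SB SC : ℝ → ℝ → Prop}
    (H : Cfg θ e a1 a2 a3 a4 a5 aw am av b1 b2 b3 b4 b5 bw bm bv c1 c2 c3 c4 c5 cw cm cv
      ra rb rc ha hb hc KA KB KC SA SB SC)
    (ha' : SideCase (rb + rc) a4 a5 aw am av KA)
    (hb' : SideCase (ra + rc) b4 b5 bw bm bv KB)
    (hc' : SideCase (ra + rb) c4 c5 cw cm cv KC) : False := by
  have htot := H.htot
  have hθ := H.hθ
  have he := H.he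
  have hTab := H.hTab
  have hTac := H.hTac
  have hTbc := H.hTbc
  rcases ha' with ⟨pa, za, ta, wa, ⟨ma, va⟩ | ⟨ma, va, ua, kam⟩⟩ |
    ⟨pa, ka4, ta, wa, ⟨ma, va⟩ | ⟨ma, va, ua, kam⟩⟩
  · rcases hb' with ⟨pb, zb, tb, wb, ⟨mb, vb⟩ | ⟨mb, vb, ub, kbm⟩⟩ |
      ⟨pb, kb4, tb, wb, ⟨mb, vb⟩ | ⟨mb, vb, ub, kbm⟩⟩
    · rcases hc' with ⟨pc, zc, tc, wc, ⟨mc, vc⟩ | ⟨mc, vc, uc, kcm⟩⟩ |
        ⟨pc, kc4, tc, wc, ⟨mc, vc⟩ | ⟨mc, vc, uc, kcm⟩⟩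
      · exact q0_0 H pa za ta wa ma va pb zb tb wb mb vb pc zc tc wc mc vc
      · exact q0_4 H pa za ta wa ma va pb zb tb wb mb vb pc zc tc wc mc vc uc kcm
      · exact q3_0 H pa za ta wa ma va pb zb tb wb mb vb pc kc4 tc wc mc vc
      · exact q3_4 H pa za ta wa ma va pb zb tb wb mb vb pc kc4 tc wc mc vc uc kcm
    · rcases hc' with ⟨pc, zc, tc, wc, ⟨mc, vc⟩ | ⟨mc, vc, uc, kcm⟩⟩ |
        ⟨pc, kc4, tc, wc, ⟨mc, vc⟩ | ⟨mc, vc, uc, kcm⟩⟩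
      · exact q0_2 H pa za ta wa ma va pb zb tb wb mb vb ub kbm pc zc tc wc mc vc
      · exact q0_6 H pa za ta wa ma va pb zb tb wb mb vb ub kbm pc zc tc wc mc vc uc kcm
      · exact q3_2 H pa za ta wa ma va pb zb tb wb mb vb ub kbm pc kc4 tc wc mc vc
      · exact q3_6 H pa za ta wa ma va pb zb tb wb mb vb ub kbm pc kc4 tc wc mc vc uc kcm
    · rcases hc' with ⟨pc, zc, tc, wc, ⟨mc, vc⟩ | ⟨mc, vc, uc, kcm⟩⟩ |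
        ⟨pc, kc4, tc, wc, ⟨mc, vc⟩ | ⟨mc, vc, uc, kcm⟩⟩
      · exact q2_0 H pa za ta wa ma va pb kb4 tb wb mb vb pc zc tc wc mc vc
      · exact q2_4 H pa za ta wa ma va pb kb4 tb wb mb vb pc zc tc wc mc vc uc kcm
      · linarith
      · linarith
    · rcases hc' with ⟨pc, zc, tc, wc, ⟨mc, vc⟩ | ⟨mc, vc, uc, kcm⟩⟩ |
        ⟨pc, kc4, tc, wc, ⟨mc, vc⟩ | ⟨mc, vc, uc, kcm⟩⟩
      · exact q2_2 H pa za ta wa ma va pb kb4 tb wb mb vb ub kbm pc zc tc wc mc vc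
      · exact q2_6 H pa za ta wa ma va pb kb4 tb wb mb vb ub kbm pc zc tc wc mc vc uc kcm
      · linarith
      · linarith
  · rcases hb' with ⟨pb, zb, tb, wb, ⟨mb, vb⟩ | ⟨mb, vb, ub, kbm⟩⟩ |
      ⟨pb, kb4, tb, wb, ⟨mb, vb⟩ | ⟨mb, vb, ub, kbm⟩⟩
    · rcases hc' with ⟨pc, zc, tc, wc, ⟨mc, vc⟩ | ⟨mc, vc, uc, kcm⟩⟩ |
        ⟨pc, kc4, tc, wc, ⟨mc, vc⟩ | ⟨mc, vc, uc, kcm⟩⟩
      · exact q0_1 H pa za ta wa ma va ua kam pb zb tb wb mb vb pc zc tc wc mc vc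
      · exact q0_5 H pa za ta wa ma va ua kam pb zb tb wb mb vb pc zc tc wc mc vc uc kcm
      · exact q3_1 H pa za ta wa ma va ua kam pb zb tb wb mb vb pc kc4 tc wc mc vc
      · exact q3_5 H pa za ta wa ma va ua kam pb zb tb wb mb vb pc kc4 tc wc mc vc uc kcm
    · rcases hc' with ⟨pc, zc, tc, wc, ⟨mc, vc⟩ | ⟨mc, vc, uc, kcm⟩⟩ |
        ⟨pc, kc4, tc, wc, ⟨mc, vc⟩ | ⟨mc, vc, uc, kcm⟩⟩
      · exact q0_3 H pa za ta wa ma va ua kam pb zb tb wb mb vb ub kbm pc zc tc wc mc vc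
      · exact q0_7 H pa za ta wa ma va ua kam pb zb tb wb mb vb ub kbm pc zc tc wc mc vc uc kcm
      · exact q3_3 H pa za ta wa ma va ua kam pb zb tb wb mb vb ub kbm pc kc4 tc wc mc vc
      · exact q3_7 H pa za ta wa ma va ua kam pb zb tb wb mb vb ub kbm pc kc4 tc wc mc vc uc kcm
    · rcases hc' with ⟨pc, zc, tc, wc, ⟨mc, vc⟩ | ⟨mc, vc, uc, kcm⟩⟩ |
        ⟨pc, kc4, tc, wc, ⟨mc, vc⟩ | ⟨mc, vc, uc, kcm⟩⟩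
      · exact q2_1 H pa za ta wa ma va ua kam pb kb4 tb wb mb vb pc zc tc wc mc vc
      · exact q2_5 H pa za ta wa ma va ua kam pb kb4 tb wb mb vb pc zc tc wc mc vc uc kcm
      · linarith
      · linarith
    · rcases hc' with ⟨pc, zc, tc, wc, ⟨mc, vc⟩ | ⟨mc, vc, uc, kcm⟩⟩ |
        ⟨pc, kc4, tc, wc, ⟨mc, vc⟩ | ⟨mc, vc, uc, kcm⟩⟩
      · exact q2_3 H pa za ta wa ma va ua kam pb kb4 tb wb mb vb ub kbm pc zc tc wc mc vc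
      · exact q2_7 H pa za ta wa ma va ua kam pb kb4 tb wb mb vb ub kbm pc zc tc wc mc vc uc kcm
      · linarith
      · linarith
  · rcases hb' with ⟨pb, zb, tb, wb, ⟨mb, vb⟩ | ⟨mb, vb, ub, kbm⟩⟩ |
      ⟨pb, kb4, tb, wb, ⟨mb, vb⟩ | ⟨mb, vb, ub, kbm⟩⟩
    · rcases hc' with ⟨pc, zc, tc, wc, ⟨mc, vc⟩ | ⟨mc, vc, uc, kcm⟩⟩ |
        ⟨pc, kc4, tc, wc, ⟨mc, vc⟩ | ⟨mc, vc, uc, kcm⟩⟩
      · exact q1_0 H pa ka4 ta wa ma va pb zb tb wb mb vb pc zc tc wc mc vc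
      · exact q1_4 H pa ka4 ta wa ma va pb zb tb wb mb vb pc zc tc wc mc vc uc kcm
      · linarith
      · linarith
    · rcases hc' with ⟨pc, zc, tc, wc, ⟨mc, vc⟩ | ⟨mc, vc, uc, kcm⟩⟩ |
        ⟨pc, kc4, tc, wc, ⟨mc, vc⟩ | ⟨mc, vc, uc, kcm⟩⟩
      · exact q1_2 H pa ka4 ta wa ma va pb zb tb wb mb vb ub kbm pc zc tc wc mc vc
      · exact q1_6 H pa ka4 ta wa ma va pb zb tb wb mb vb ub kbm pc zc tc wc mc vc uc kcm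
      · linarith
      · linarith
    · linarith
    · linarith
  · rcases hb' with ⟨pb, zb, tb, wb, ⟨mb, vb⟩ | ⟨mb, vb, ub, kbm⟩⟩ |
      ⟨pb, kb4, tb, wb, ⟨mb, vb⟩ | ⟨mb, vb, ub, kbm⟩⟩
    · rcases hc' with ⟨pc, zc, tc, wc, ⟨mc, vc⟩ | ⟨mc, vc, uc, kcm⟩⟩ |
        ⟨pc, kc4, tc, wc, ⟨mc, vc⟩ | ⟨mc, vc, uc, kcm⟩⟩
      · exact q1_1 H pa ka4 ta wa ma va ua kam pb zb tb wb mb vb pc zc tc wc mc vc
      · exact q1_5 H pa ka4 ta wa ma va ua kam pb zb tb wb mb vb pc zc tc wc mc vc uc kcm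
      · linarith
      · linarith
    · rcases hc' with ⟨pc, zc, tc, wc, ⟨mc, vc⟩ | ⟨mc, vc, uc, kcm⟩⟩ |
        ⟨pc, kc4, tc, wc, ⟨mc, vc⟩ | ⟨mc, vc, uc, kcm⟩⟩
      · exact q1_3 H pa ka4 ta wa ma va ua kam pb zb tb wb mb vb ub kbm pc zc tc wc mc vc
      · exact q1_7 H pa ka4 ta wa ma va ua kam pb zb tb wb mb vb ub kbm pc zc tc wc mc vc uc kcm
      · linarith
      · linarith
    · linarith
    · linarith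

end Pool.Agent.Lib.MP_d8bd92_nt.Fh.Opt
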