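import Pool.Agent.Lib.MP_d8bd92_nt.Fh.Defs

set_option autoImplicit false

/-!
The system of inequalities for the optimisation.
-/

namespace Pool.Agent.Lib.MP_d8bd92_nt.Fh.Opt

open Pool.Agent.Lib.MP_d8bd92_nt.Fh

/-- zero or one -/
def B01 (x : ℝ) : Prop := x = 0 ∨ x = 1

theorem o0 : B01 0 := Or.inl rfl

theorem o1 : B01 1 := Or.inr rfl

/-- All the inequalities. For the number `a` (and `b`, `c`) we have, as logarithms, the radicals `a1 a2 a3 a4` of the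
parts of exact exponent `1 2 3 4`, radical and size `a5 aw` of the rest and radical and size `am av` of a main block. `ra`
and `ha` are the total radical and the total size; `K k x`: there is a block of exponent at least `k` and radical
`x`; `S ρ D`: there is a divisor of radical `ρ` and size `D`. -/
structure Cfg (θ e a1 a2 a3 a4 a5 aw am av b1 b2 b3 b4 b5 bw bm bv c1 c2 c3 c4 c5 cw cm cv ra rb rc ha hb hc : ℝ)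
    (KA KB KC SA SB SC : ℝ → ℝ → Prop) : Prop where
  era : ra = a1 + a2 + a3 + a4 + a5 + am
  erb : rb = b1 + b2 + b3 + b4 + b5 + bm
  erc : rc = c1 + c2 + c3 + c4 + c5 + cm
  eha : ha = a1 + 2 * a2 + 3 * a3 + 4 * a4 + aw + av
  ehb : hb = b1 + 2 * b2 + 3 * b3 + 4 * b4 + bw + bv
  ehc : hc = c1 + 2 * c2 + 3 * c3 + 4 * c4 + cw + cv
  na1 : 0 ≤ a1
  na2 : 0 ≤ a2
  na3 : 0 ≤ a3
  na4 : 0 ≤ a4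
  na5 : 0 ≤ a5
  naw : 0 ≤ aw
  nam : 0 ≤ am
  nav : 0 ≤ av
  nb1 : 0 ≤ b1
  nb2 : 0 ≤ b2
  nb3 : 0 ≤ b3
  nb4 : 0 ≤ b4
  nb5 : 0 ≤ b5
  nbw : 0 ≤ bw
  nbm : 0 ≤ bm
  nbv : 0 ≤ bv
  nc1 : 0 ≤ c1
  nc2 : 0 ≤ c2
  nc3 : 0 ≤ c3
  nc4 : 0 ≤ c4
  nc5 : 0 ≤ c5
  ncw : 0 ≤ cw
  ncm : 0 ≤ cm
  ncv : 0 ≤ cv
  he : 0 ≤ e
  he1 : e ≤ 1 / 1000
  hθ : 7 / 12 + 10 * e ≤ θ
  htot : ra + rb + rc ≤ 1
  hbc : hb ≤ hc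
  hcb : hc ≤ hb + e
  hab : ha ≤ hb
  hlo : 49 / 100 ≤ hb
  hTab : θ < ra + rb
  hTac : θ < ra + rc
  hTbc : θ < rb + rc
  hNa : θ < ra + (rb - b2 - b4) + (rc - c2 - c4)
  hNb : θ < rb + (ra - a2 - a4) + (rc - c2 - c4)
  hNc : θ < rc + (ra - a2 - a4) + (rb - b2 - b4)
  hBab : ∀ j x k z : ℝ, KA j x → KB k z → θ < ra + rb + rc - x * (1 - 1 / k) - z
  hBac : ∀ j x k z : ℝ, KA j x → KC k z → θ < ra + rb + rc - x * (1 - 1 / k) - z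
  hBba : ∀ j x k z : ℝ, KB j x → KA k z → θ < ra + rb + rc - x * (1 - 1 / k) - z
  hBbc : ∀ j x k z : ℝ, KB j x → KC k z → θ < ra + rb + rc - x * (1 - 1 / k) - z
  hBca : ∀ j x k z : ℝ, KC j x → KA k z → θ < ra + rb + rc - x * (1 - 1 / k) - z
  hBcb : ∀ j x k z : ℝ, KC j x → KB k z → θ < ra + rb + rc - x * (1 - 1 / k) - z
  hXa : ∀ ρ D : ℝ, SA ρ D → XF θ (rb + rc) ρ D
  hXb : ∀ ρ D : ℝ, SB ρ D → XF θ (ra + rc) ρ D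
  hXc : ∀ ρ D : ℝ, SC ρ D → XF θ (ra + rb) ρ D
  hL : ∀ ρ₁ D₁ ρ₂ D₂ ρ₃ D₃ : ℝ, SA ρ₁ D₁ → SB ρ₂ D₂ → SC ρ₃ D₃ →
    θ < ρ₁ + ρ₂ + ρ₃ ∨ θ < ρ₁ + ρ₂ + ρ₃ + (ha + hb) - (D₁ + D₂ + D₃)
  hSa : ∀ e1 e2 e3 e4 e5 e6 : ℝ, B01 e1 → B01 e2 → B01 e3 → B01 e4 → B01 e5 → B01 e6 →
    SA (e1 * a1 + e2 * a2 + e3 * a3 + e4 * a4 + e5 * a5 + e6 * am)
      (e1 * a1 + 2 * (e2 * a2) + 3 * (e3 * a3) + 4 * (e4 * a4) + e5 * aw + e6 * av)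
  hSb : ∀ e1 e2 e3 e4 e5 e6 : ℝ, B01 e1 → B01 e2 → B01 e3 → B01 e4 → B01 e5 → B01 e6 →
    SB (e1 * b1 + e2 * b2 + e3 * b3 + e4 * b4 + e5 * b5 + e6 * bm)
      (e1 * b1 + 2 * (e2 * b2) + 3 * (e3 * b3) + 4 * (e4 * b4) + e5 * bw + e6 * bv)
  hSc : ∀ e1 e2 e3 e4 e5 e6 : ℝ, B01 e1 → B01 e2 → B01 e3 → B01 e4 → B01 e5 → B01 e6 →
    SC (e1 * c1 + e2 * c2 + e3 * c3 + e4 * c4 + e5 * c5 + e6 * cm)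
      (e1 * c1 + 2 * (e2 * c2) + 3 * (e3 * c3) + 4 * (e4 * c4) + e5 * cw + e6 * cv)
  ka1 : KA 1 a1
  ka2 : KA 2 a2
  ka3 : KA 3 a3
  kb1 : KB 1 b1
  kb2 : KB 2 b2
  kb3 : KB 3 b3
  kc1 : KC 1 c1
  kc2 : KC 2 c2
  kc3 : KC 3 c3

/-- the two cases (`P ≤ 7/9`: the rest has exponents at least 4; `P ≥ 7/9`: at least 5), each with or without a main
block -/
def SideCase (P z4 t w m v : ℝ) (K : ℝ → ℝ → Prop) : Prop :=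
  (P ≤ 7 / 9 ∧ z4 = 0 ∧ 4 * t ≤ w ∧ w ≤ 20 / 13 * (P - 7 / 12) ∧
    ((m = 0 ∧ v = 0) ∨ (4 * m ≤ v ∧ P ≤ v ∧ 7 / 12 - P / 2 ≤ m ∧ K 4 m))) ∨
  (7 / 9 ≤ P ∧ K 4 z4 ∧ 5 * t ≤ w ∧ w ≤ 65 / 36 * P - 245 / 216 ∧
    ((m = 0 ∧ v = 0) ∨ (5 * m ≤ v ∧ P ≤ v ∧ 7 / 12 - P / 2 ≤ m ∧ K 5 m)))

end Pool.Agent.Lib.MP_d8bd92_nt.Fh.Opt
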