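import Pool.Agent.Lib.MP_d8bd92_nt.Fh.Opt.Defs
import Pool.Agent.Lib.MP_d8bd92_nt.Fh.Opt.R0
import Pool.Agent.Lib.MP_d8bd92_nt.Fh.Opt.R1
import Pool.Agent.Lib.MP_d8bd92_nt.Fh.Opt.R2
import Pool.Agent.Lib.MP_d8bd92_nt.Fh.Opt.R3
import Pool.Agent.Lib.MP_d8bd92_nt.Fh.Opt.R4
import Pool.Agent.Lib.MP_d8bd92_nt.Fh.Opt.R5
import Pool.Agent.Lib.MP_d8bd92_nt.Fh.Opt.R6
import Pool.Agent.Lib.MP_d8bd92_nt.Fh.Opt.R7

set_option autoImplicit false

/-!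
Optimisation: leaves of the tree (linear certificates).
-/

namespace Pool.Agent.Lib.MP_d8bd92_nt.Fh.Opt

open Pool.Agent.Lib.MP_d8bd92_nt.Fh

theorem q2_0 {θ e a1 a2 a3 a4 a5 aw am av b1 b2 b3 b4 b5 bw bm bv c1 c2 c3 c4 c5 cw cm cv
    ra rb rc ha hb hc : ℝ} {KA KB KC SA SB SC : ℝ → ℝ → Prop}
    (H : Cfg θ e a1 a2 a3 a4 a5 aw am av b1 b2 b3 b4 b5 bw bm bv c1 c2 c3 c4 c5 cw cm cv
      ra rb rc ha hb hc KA KB KC SA SB SC)
    (pa : rb + rc ≤ 7 / 9) (za : a4 = 0) (ta : 4 * a5 ≤ aw)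
    (wa : aw ≤ 20 / 13 * (rb + rc - 7 / 12)) (ma : am = 0) (va : av = 0) (pb : 7 / 9 ≤ ra + rc)
    (kb4 : KB 4 b4) (tb : 5 * b5 ≤ bw) (wb : bw ≤ 65 / 36 * (ra + rc) - 245 / 216) (mb : bm = 0)
    (vb : bv = 0) (pc : ra + rb ≤ 7 / 9) (zc : c4 = 0) (tc : 4 * c5 ≤ cw)
    (wc : cw ≤ 20 / 13 * (ra + rb - 7 / 12)) (mc : cm = 0) (vc : cv = 0) : False := by
  obtain ⟨era, erb, erc, eha, ehb, ehc, na1, na2, na3, na4, na5, naw, nam, nav, nb1, nb2, nb3, nb4, nb5,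
    nbw, nbm, nbv, nc1, nc2, nc3, nc4, nc5, ncw, ncm, ncv, he, he1, hθ, htot, hbc, hcb, hab, hlo,
    hTab, hTac, hTbc, hNa, hNb, hNc, hBab, hBac, hBba, hBbc, hBca, hBcb, hXa, hXb, hXc, hL, hSa,
    hSb, hSc, ka1, ka2, ka3, kb1, kb2, kb3, kc1, kc2, kc3⟩ := id H
  rcases hXa _ _ (hSa 0 0 1 0 0 0 o0 o0 o1 o0 o0 o0) with g0 | g0 | g0 | g0 | g0
  · rcases hL _ _ _ _ _ _ (hSa 0 1 1 0 1 0 o0 o1 o1 o0 o1 o0) (hSb 0 1 1 1 1 0 o0 o1 o1 o1 o1 o0)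
      (hSc 0 1 1 0 1 0 o0 o1 o1 o0 o1 o0) with g1 | g1
    · rcases hL _ _ _ _ _ _ (hSa 0 0 0 0 1 0 o0 o0 o0 o0 o1 o0) (hSb 0 0 1 1 1 0 o0 o0 o1 o1 o1 o0)
        (hSc 0 0 1 0 1 0 o0 o0 o1 o0 o1 o0) with g2 | g2
      · linarith only [era, erb, erc, eha, ehb, ehc, htot, ta, wa, za, ma, pb, tc, wc, g0, g2,
          hBac 2 a2 3 c3 ka2 kc3, hBac 1 a1 3 c3 ka1 kc3, na4, nb1, nb2, nbm, ncw, he, hθ]
      · rcases hXc _ _ (hSc 0 0 1 0 0 0 o0 o0 o1 o0 o0 o0) with g3 | g3 | g3 | g3 | g3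
        · rcases hXa _ _ (hSa 0 1 1 0 1 0 o0 o1 o1 o0 o1 o0) with g4 | g4 | g4 | g4 | g4
          · linarith only [era, erb, erc, eha, ehb, ehc, htot, ta, za, ma, pb, tc, wc, g1, g3, g4,
              hBac 1 a1 2 c2 ka1 kc2, na3, na4, naw, nb1, nbm, nc5, he, hθ]
          · linarith only [era, erb, erc, eha, ehb, ehc, htot, ta, za, ma, pb, tc, wc, g1, g3, g4,
              hBac 1 a1 2 c2 ka1 kc2, na3, na4, naw, nb1, nbm, ncw, he, hθ]
          · linarith only [era, erb, erc, eha, ehb, ehc, htot, hbc, hab, ta, za, ma, pb, wc, zc,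
              vc, g3, g4, hNb, na3, na4, naw, nav, nc5, ncw, ncm, he, hθ]
          · linarith only [era, erb, erc, eha, ehb, ehc, htot, hbc, hab, ta, za, ma, pb, wc, zc,
              vc, g3, g4, hNb, na3, na4, naw, nav, nc5, ncw, ncm, he, hθ]
          · linarith only [era, erb, erc, eha, ehb, ehc, htot, hbc, hab, ta, za, ma, pb, wc, zc,
              vc, g3, g4, hNb, na4, naw, nav, nc5, ncw, ncm, he, hθ]
        · rcases hXa _ _ (hSa 0 1 1 0 1 0 o0 o1 o1 o0 o1 o0) with g4 | g4 | g4 | g4 | g4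
          · linarith only [era, erb, erc, eha, ehb, ehc, htot, ta, za, ma, pb, tc, wc, g1, g3, g4,
              hBac 1 a1 2 c2 ka1 kc2, na3, na4, naw, nb1, nbm, nc3, he, hθ]
          · linarith only [era, erb, erc, eha, ehb, ehc, htot, ta, za, ma, pb, tc, wc, g1, g3, g4,
              hBac 1 a1 2 c2 ka1 kc2, na3, na4, naw, nb1, nbm, nc3, he, hθ]
          · linarith only [era, erb, erc, eha, ehb, ehc, htot, hbc, hab, ta, za, ma, pb, wc, zc,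
              vc, g3, g4, hNb, na3, na4, naw, nav, nc3, nc5, ncm, he, hθ]
          · linarith only [era, erb, erc, eha, ehb, ehc, htot, hbc, hab, ta, za, ma, pb, wc, zc,
              vc, g3, g4, hNb, na3, na4, naw, nav, nc3, nc5, ncm, he, hθ]
          · linarith only [era, erb, erc, eha, ehb, ehc, htot, hbc, hab, ta, wa, za, ma, pb, wc,
              zc, vc, g3, g4, hNb, na4, naw, nav, nc5, ncm, he, hθ]
        · linarith only [era, erb, erc, eha, ehb, ehc, htot, wa, za, pb, g3, na4, naw, he, hθ]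
        · linarith only [era, erb, erc, eha, ehb, ehc, htot, hcb, wa, za, va, pb, wb, vb, tc, mc,
            g0, g2, g3, hNc, hBac 2 a2 3 c3 ka2 kc3, na4, naw, nam, nb1, nb5, nbm, nc2, nc4, ncw,
            ncv, he, hθ]
        · linarith only [era, erb, erc, eha, ehb, ehc, htot, hcb, wa, za, va, pb, wb, vb, tc, mc,
            g0, g2, g3, hNc, hBac 2 a2 3 c3 ka2 kc3, na4, naw, nam, nb1, nb5, nbm, nc2, nc4, ncw,
            ncv, he, hθ]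
    · linarith only [era, erb, erc, eha, ehb, ehc, htot, hbc, hlo, za, va, vb, zc, vc, g1, na4,
        nam, nbm, ncm, he, hθ]
  · rcases hL _ _ _ _ _ _ (hSa 0 1 1 0 1 0 o0 o1 o1 o0 o1 o0) (hSb 0 1 1 1 1 0 o0 o1 o1 o1 o1 o0)
      (hSc 0 1 1 0 1 0 o0 o1 o1 o0 o1 o0) with g1 | g1
    · rcases hL _ _ _ _ _ _ (hSa 0 0 0 0 1 0 o0 o0 o0 o0 o1 o0) (hSb 0 0 1 1 1 0 o0 o0 o1 o1 o1 o0)
        (hSc 0 0 1 0 1 0 o0 o0 o1 o0 o1 o0) with g2 | g2
      · linarith only [era, erb, erc, eha, ehb, ehc, htot, ta, wa, za, ma, pb, tc, wc, g0, g2,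
          hBac 2 a2 3 c3 ka2 kc3, hBac 1 a1 3 c3 ka1 kc3, na4, nb1, nb2, nbm, ncw, he, hθ]
      · rcases hXc _ _ (hSc 0 0 1 0 1 0 o0 o0 o1 o0 o1 o0) with g3 | g3 | g3 | g3 | g3
        · rcases hXa _ _ (hSa 0 1 1 0 1 0 o0 o1 o1 o0 o1 o0) with g4 | g4 | g4 | g4 | g4
          · linarith only [era, erb, erc, eha, ehb, ehc, htot, ta, za, ma, pb, tc, wc, g1, g3, g4,
              hBac 1 a1 2 c2 ka1 kc2, na3, na4, na5, nb1, nbm, ncw, he, hθ]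
          · linarith only [era, erb, erc, eha, ehb, ehc, htot, ta, za, ma, pb, tc, wc, g1, g3, g4,
              hBac 1 a1 2 c2 ka1 kc2, na3, na4, naw, nb1, nbm, ncw, he, hθ]
          · linarith only [era, erb, erc, eha, ehb, ehc, htot, hbc, hab, ta, za, ma, pb, wc, zc,
              vc, g3, g4, hNb, na3, na4, naw, nav, ncw, ncm, he, hθ]
          · linarith only [era, erb, erc, eha, ehb, ehc, htot, hbc, hab, ta, za, ma, pb, wc, zc,
              vc, g3, g4, hNb, na3, na4, naw, nav, ncw, ncm, he, hθ]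
          · linarith only [era, erb, erc, eha, ehb, ehc, htot, hbc, hab, ta, za, ma, pb, wc, zc,
              vc, g3, g4, hNb, na4, naw, nav, ncw, ncm, he, hθ]
        · linarith only [era, erb, erc, eha, ehb, ehc, htot, za, pb, tc, g0, g3, na3, na4, nc3,
            ncw, he, hθ]
        · linarith only [era, erb, erc, eha, ehb, ehc, htot, wa, za, pb, tc, g3, na4, naw, ncw, he,
            hθ]
        · linarith only [era, erb, erc, eha, ehb, ehc, htot, hcb, za, va, pb, wb, vb, tc, mc, g0,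
            g2, g3, hNc, hBac 2 a2 3 c3 ka2 kc3, na3, na4, nam, nb1, nb5, nbm, nc2, nc4, ncw, ncv,
            he, hθ]
        · linarith only [era, erb, erc, eha, ehb, ehc, htot, hcb, za, va, pb, wb, vb, tc, mc, g0,
            g2, g3, hNc, hBac 2 a2 3 c3 ka2 kc3, na3, na4, nam, nb1, nb5, nbm, nc2, nc4, ncw, ncv,
            he, hθ]
    · linarith only [era, erb, erc, eha, ehb, ehc, htot, hbc, hlo, za, va, vb, zc, vc, g1, na4,
        nam, nbm, ncm, he, hθ]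
  · linarith only [era, erb, erc, eha, ehb, ehc, htot, za, pb, wc, g0, na4, ncw, he, hθ]
  · rcases hXc _ _ (hSc 0 0 1 0 1 0 o0 o0 o1 o0 o1 o0) with g1 | g1 | g1 | g1 | g1
    · linarith only [era, erb, erc, eha, ehb, ehc, htot, hbc, hab, ta, za, ma, pb, wc, zc, vc, g0,
        g1, hBac 3 a3 2 c2 ka3 kc2, na2, na4, naw, nav, ncw, ncm, he, hθ]
    · linarith only [era, erb, erc, eha, ehb, ehc, htot, hbc, hab, ta, za, ma, pb, tc, wc, zc, vc,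
        g0, g1, hBac 3 a3 2 c2 ka3 kc2, na2, na4, naw, nav, ncw, ncm, he, hθ]
    · linarith only [era, erb, erc, eha, ehb, ehc, htot, wa, za, pb, tc, g1, na4, naw, ncw, he, hθ]
    · linarith only [era, erb, erc, eha, ehb, ehc, htot, za, pb, tc, wc, g0, g1,
        hBac 3 a3 3 c3 ka3 kc3, hBca 3 c3 3 a3 kc3 ka3, na4, he, hθ]
    · linarith only [era, erb, erc, eha, ehb, ehc, htot, za, pb, tc, wc, g0, g1,
        hBac 3 a3 3 c3 ka3 kc3, hBca 3 c3 3 a3 kc3 ka3, na4, he, hθ]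
  · rcases hXc _ _ (hSc 0 0 1 0 1 0 o0 o0 o1 o0 o1 o0) with g1 | g1 | g1 | g1 | g1
    · linarith only [era, erb, erc, eha, ehb, ehc, htot, hbc, hab, ta, za, ma, pb, wc, zc, vc, g0,
        g1, hBac 3 a3 2 c2 ka3 kc2, na2, na4, naw, nav, ncw, ncm, he, hθ]
    · linarith only [era, erb, erc, eha, ehb, ehc, htot, hbc, hab, ta, za, ma, pb, tc, wc, zc, vc,
        g0, g1, hBac 3 a3 2 c2 ka3 kc2, na2, na4, naw, nav, ncw, ncm, he, hθ]
    · linarith only [era, erb, erc, eha, ehb, ehc, htot, wa, za, pb, tc, g1, na4, naw, ncw, he, hθ]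
    · linarith only [era, erb, erc, eha, ehb, ehc, htot, wa, za, pb, tc, wc, g0, g1,
        hBca 3 c3 3 a3 kc3 ka3, na4, naw, he, hθ]
    · linarith only [era, erb, erc, eha, ehb, ehc, htot, wa, za, pb, tc, wc, g0, g1,
        hBca 3 c3 3 a3 kc3 ka3, na4, naw, he, hθ]

theorem q0_1 {θ e a1 a2 a3 a4 a5 aw am av b1 b2 b3 b4 b5 bw bm bv c1 c2 c3 c4 c5 cw cm cv
    ra rb rc ha hb hc : ℝ} {KA KB KC SA SB SC : ℝ → ℝ → Prop}
    (H : Cfg θ e a1 a2 a3 a4 a5 aw am av b1 b2 b3 b4 b5 bw bm bv c1 c2 c3 c4 c5 cw cm cv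
      ra rb rc ha hb hc KA KB KC SA SB SC)
    (pa : rb + rc ≤ 7 / 9) (za : a4 = 0) (ta : 4 * a5 ≤ aw)
    (wa : aw ≤ 20 / 13 * (rb + rc - 7 / 12)) (ma : 4 * am ≤ av) (va : rb + rc ≤ av)
    (ua : 7 / 12 - (rb + rc) / 2 ≤ am) (kam : KA 4 am) (pb : ra + rc ≤ 7 / 9) (zb : b4 = 0)
    (tb : 4 * b5 ≤ bw) (wb : bw ≤ 20 / 13 * (ra + rc - 7 / 12)) (mb : bm = 0) (vb : bv = 0)
    (pc : ra + rb ≤ 7 / 9) (zc : c4 = 0) (tc : 4 * c5 ≤ cw)
    (wc : cw ≤ 20 / 13 * (ra + rb - 7 / 12)) (mc : cm = 0) (vc : cv = 0) : False := by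
  obtain ⟨era, erb, erc, eha, ehb, ehc, na1, na2, na3, na4, na5, naw, nam, nav, nb1, nb2, nb3, nb4, nb5,
    nbw, nbm, nbv, nc1, nc2, nc3, nc4, nc5, ncw, ncm, ncv, he, he1, hθ, htot, hbc, hcb, hab, hlo,
    hTab, hTac, hTbc, hNa, hNb, hNc, hBab, hBac, hBba, hBbc, hBca, hBcb, hXa, hXb, hXc, hL, hSa,
    hSb, hSc, ka1, ka2, ka3, kb1, kb2, kb3, kc1, kc2, kc3⟩ := id H
  rcases hXc _ _ (hSc 0 0 1 0 0 0 o0 o0 o1 o0 o0 o0) with g0 | g0 | g0 | g0 | g0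
  · linarith only [era, erb, erc, eha, ehb, ehc, htot, hbc, hab, ta, ma, va, ua, wb, zb, wc, zc,
      vc, g0, hBca 2 c2 4 am kc2 kam, na2, na3, na4, na5, nb4, nbw, nc5, ncm, he, hθ]
  · linarith only [era, erb, erc, eha, ehb, ehc, htot, hbc, hab, ta, ma, va, ua, wb, zb, wc, zc,
      vc, g0, hBca 2 c2 4 am kc2 kam, na2, na3, na4, na5, nb4, nbw, nc5, ncm, he, hθ]
  · linarith only [era, erb, erc, eha, ehb, ehc, htot, hbc, hab, ta, ma, ua, wb, zb, wc, zc, vc,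
      g0, na2, na3, na4, na5, nb4, nbw, nc1, nc2, nc5, ncm, he, hθ]
  · rcases hXb _ _ (hSb 0 0 1 0 1 0 o0 o0 o1 o0 o1 o0) with g1 | g1 | g1 | g1 | g1
    · linarith only [era, erb, erc, eha, ehb, ehc, htot, hcb, hab, ta, ma, ua, wb, zb, vb, tc, mc,
        g0, g1, hBcb 3 c3 2 b2 kc3 kb2, na2, na3, na4, naw, nb4, nbw, nbm, nc2, nc4, ncw, ncv, he,
        hθ]
    · linarith only [era, erb, erc, eha, ehb, ehc, htot, hcb, hab, ta, ma, va, ua, tb, zb, vb, tc,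
        mc, g0, g1, hBcb 3 c3 2 b2 kc3 kb2, na2, na3, na4, na5, nb4, nb5, nbm, nc2, nc4, ncw, ncv,
        he, hθ]
    · linarith only [era, erb, erc, eha, ehb, ehc, htot, hab, ta, ma, ua, tb, zb, vb, wc, g1, na2,
        na3, na4, na5, nb1, nb2, nb4, nb5, nbm, ncw, he, hθ]
    · linarith only [era, erb, erc, eha, ehb, ehc, htot, ua, tb, wb, zb, g0, g1,
        hBcb 3 c3 3 b3 kc3 kb3, hBba 3 b3 4 am kb3 kam, hBca 3 c3 4 am kc3 kam, nb4, he, hθ]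
    · linarith only [era, erb, erc, eha, ehb, ehc, htot, ua, tb, wb, zb, g0, g1,
        hBbc 3 b3 3 c3 kb3 kc3, hBba 3 b3 4 am kb3 kam, hBca 3 c3 4 am kc3 kam, nb4, he, hθ]
  · rcases hXb _ _ (hSb 0 0 1 0 1 0 o0 o0 o1 o0 o1 o0) with g1 | g1 | g1 | g1 | g1
    · linarith only [era, erb, erc, eha, ehb, ehc, htot, hab, ta, ma, va, wb, zb, vb, g0, g1,
        hBcb 3 c3 2 b2 kc3 kb2, na2, na3, na4, naw, nb4, nbw, nbm, he, hθ]
    · linarith only [era, erb, erc, eha, ehb, ehc, htot, hcb, hab, ta, ma, va, ua, tb, zb, vb, tc,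
        mc, g0, g1, hBcb 3 c3 2 b2 kc3 kb2, na2, na3, na4, na5, nb4, nb5, nbm, nc2, nc4, ncw, ncv,
        he, hθ]
    · linarith only [era, erb, erc, eha, ehb, ehc, htot, hab, ta, ma, ua, tb, zb, vb, wc, g1, na2,
        na3, na4, na5, nb1, nb2, nb4, nb5, nbm, ncw, he, hθ]
    · linarith only [era, erb, erc, eha, ehb, ehc, htot, ua, tb, wb, zb, g0, g1,
        hBcb 3 c3 3 b3 kc3 kb3, hBba 3 b3 4 am kb3 kam, hBca 3 c3 4 am kc3 kam, nb4, he, hθ]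
    · linarith only [era, erb, erc, eha, ehb, ehc, htot, ua, tb, wb, zb, g0, g1,
        hBcb 3 c3 3 b3 kc3 kb3, hBba 3 b3 4 am kb3 kam, hBca 3 c3 4 am kc3 kam, nb4, he, hθ]

end Pool.Agent.Lib.MP_d8bd92_nt.Fh.Opt
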